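import Mathlib

open Polynomial

namespace Pool.Agent.H93.SStar

/-- Naive height of an integer polynomial: the maximum absolute value of its coefficients. -/
def ht (P : ℤ[X]) : ℕ := P.support.sup fun i => (P.coeff i).natAbs

lemma natAbs_coeff_le_ht (P : ℤ[X]) (i : ℕ) : (P.coeff i).natAbs ≤ ht P := by
  by_cases h : P.coeff i = 0
  · simp [h]
  · exact Finset.le_sup (f := fun i => (P.coeff i).natAbs) (mem_support_iff.mpr h)

lemma abs_coeff_le_ht (P : ℤ[X]) (i : ℕ) : |(P.coeff i : ℝ)| ≤ (ht P : ℝ) := by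
  have := natAbs_coeff_le_ht P i
  have h2 : |(P.coeff i : ℝ)| = ((P.coeff i).natAbs : ℝ) := by
    rw [Nat.cast_natAbs]; push_cast; rfl
  rw [h2]; exact_mod_cast this

lemma one_le_ht {P : ℤ[X]} (h : P ≠ 0) : 1 ≤ ht P := by
  have h1 : P.leadingCoeff ≠ 0 := leadingCoeff_ne_zero.mpr h
  have h2 := natAbs_coeff_le_ht P P.natDegree
  have h3 : 1 ≤ (P.coeff P.natDegree).natAbs := by
    rw [Nat.one_le_iff_ne_zero]
    simpa [Int.natAbs_eq_zero] using h1
  omega

lemma ht_le_of_forall {P : ℤ[X]} {H : ℕ} (h : ∀ i, (P.coeff i).natAbs ≤ H) : ht P ≤ H := by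
  unfold ht
  exact Finset.sup_le fun i _ => h i

/-- evaluation as a sum -/
lemma aeval_eq_sum (P : ℤ[X]) (x : ℝ) :
    aeval x P = ∑ i ∈ Finset.range (P.natDegree + 1), (P.coeff i : ℝ) * x ^ i := by
  rw [aeval_eq_sum_range]
  simp

lemma abs_aeval_le (P : ℤ[X]) (x : ℝ) (Θ : ℝ) (hΘ : 1 ≤ Θ) (hx : |x| ≤ Θ) :
    |aeval x P| ≤ (P.natDegree + 1) * ht P * Θ ^ P.natDegree := by
  rw [aeval_eq_sum]
  calc |∑ i ∈ Finset.range (P.natDegree + 1), (P.coeff i : ℝ) * x ^ i|
      ≤ ∑ i ∈ Finset.range (P.natDegree + 1), |(P.coeff i : ℝ) * x ^ i| :=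
        Finset.abs_sum_le_sum_abs _ _
    _ ≤ ∑ i ∈ Finset.range (P.natDegree + 1), (ht P : ℝ) * Θ ^ P.natDegree := by
        apply Finset.sum_le_sum
        intro i hi
        rw [abs_mul, abs_pow]
        have hi' : i ≤ P.natDegree := by
          have := Finset.mem_range.mp hi; omega
        have h1 : |x| ^ i ≤ Θ ^ P.natDegree :=
          (pow_le_pow_left₀ (abs_nonneg _) hx i).trans (pow_le_pow_right₀ hΘ hi')
        exact mul_le_mul (abs_coeff_le_ht P i) h1 (by positivity) (by positivity)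
    _ = (P.natDegree + 1) * ht P * Θ ^ P.natDegree := by
        rw [Finset.sum_const, Finset.card_range, nsmul_eq_mul]
        push_cast; ring

lemma abs_pow_sub_pow_le' (x y Θ : ℝ) (hΘ : 1 ≤ Θ) (hx : |x| ≤ Θ) (hy : |y| ≤ Θ) (i : ℕ) :
    |x ^ i - y ^ i| ≤ i * Θ ^ i * |x - y| := by
  induction i with
  | zero => simp
  | succ i ih =>
    have h : x ^ (i + 1) - y ^ (i + 1) = x * (x ^ i - y ^ i) + (x - y) * y ^ i := by ring
    rw [h]
    have hΘ0 : 0 ≤ Θ := by linarith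
    calc |x * (x ^ i - y ^ i) + (x - y) * y ^ i|
        ≤ |x * (x ^ i - y ^ i)| + |(x - y) * y ^ i| := abs_add_le _ _
      _ = |x| * |x ^ i - y ^ i| + |x - y| * |y| ^ i := by rw [abs_mul, abs_mul, abs_pow]
      _ ≤ Θ * (i * Θ ^ i * |x - y|) + |x - y| * Θ ^ (i + 1) := by
          have h1 : |y| ^ i ≤ Θ ^ (i + 1) :=
            (pow_le_pow_left₀ (abs_nonneg _) hy i).trans (pow_le_pow_right₀ hΘ (Nat.le_succ i))
          have h2 : |x| * |x ^ i - y ^ i| ≤ Θ * (i * Θ ^ i * |x - y|) :=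
            mul_le_mul hx ih (abs_nonneg _) hΘ0
          have h3 : |x - y| * |y| ^ i ≤ |x - y| * Θ ^ (i + 1) :=
            mul_le_mul_of_nonneg_left h1 (abs_nonneg _)
          linarith
      _ = ((i + 1 : ℕ) : ℝ) * Θ ^ (i + 1) * |x - y| := by push_cast; ring

/-- Lipschitz-type estimate for integer polynomials. -/
lemma abs_aeval_sub_le (P : ℤ[X]) (x y : ℝ) (Θ : ℝ) (hΘ : 1 ≤ Θ) (hx : |x| ≤ Θ) (hy : |y| ≤ Θ) :
    |aeval x P - aeval y P| ≤
      (P.natDegree + 1) ^ 2 * ht P * Θ ^ P.natDegree * |x - y| := by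
  rw [aeval_eq_sum, aeval_eq_sum, ← Finset.sum_sub_distrib]
  have hΘ0 : 0 ≤ Θ := by linarith
  calc |∑ i ∈ Finset.range (P.natDegree + 1), ((P.coeff i : ℝ) * x ^ i - (P.coeff i : ℝ) * y ^ i)|
      ≤ ∑ i ∈ Finset.range (P.natDegree + 1), |(P.coeff i : ℝ) * x ^ i - (P.coeff i : ℝ) * y ^ i| :=
        Finset.abs_sum_le_sum_abs _ _
    _ ≤ ∑ i ∈ Finset.range (P.natDegree + 1),
          (ht P : ℝ) * ((P.natDegree + 1) * Θ ^ P.natDegree * |x - y|) := by
        apply Finset.sum_le_sum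
        intro i hi
        rw [← mul_sub, abs_mul]
        have hi' : i ≤ P.natDegree := by
          have := Finset.mem_range.mp hi; omega
        have h1 : |x ^ i - y ^ i| ≤ (P.natDegree + 1) * Θ ^ P.natDegree * |x - y| := by
          refine (abs_pow_sub_pow_le' x y Θ hΘ hx hy i).trans ?_
          apply mul_le_mul_of_nonneg_right _ (abs_nonneg _)
          have hi2 : (i : ℝ) ≤ (P.natDegree : ℝ) + 1 := by
            have : (i : ℝ) ≤ (P.natDegree : ℝ) := by exact_mod_cast hi'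
            linarith
          exact mul_le_mul hi2 (pow_le_pow_right₀ hΘ hi') (by positivity) (by positivity)
        exact mul_le_mul (abs_coeff_le_ht P i) h1 (by positivity) (by positivity)
    _ = (P.natDegree + 1) ^ 2 * ht P * Θ ^ P.natDegree * |x - y| := by
        rw [Finset.sum_const, Finset.card_range, nsmul_eq_mul]
        push_cast; ring

end Pool.Agent.H93.SStar
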