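import Mathlib
import Pool.Agent.H93.SStar.Basic

open Polynomial

namespace Pool.Agent.H93.SStar

lemma card_le_of_diam (A : Finset ℕ) (D : ℝ) (hD : 0 ≤ D)
    (h : ∀ a ∈ A, ∀ b ∈ A, (a : ℝ) - b ≤ D) : (A.card : ℝ) ≤ D + 1 := by
  rcases A.eq_empty_or_nonempty with rfl | hne
  · simp; linarith
  · have hsub : A ⊆ Finset.Icc (A.min' hne) (A.max' hne) := by
      intro x hx
      rw [Finset.mem_Icc]
      exact ⟨A.min'_le x hx, A.le_max' x hx⟩
    have h1 := Finset.card_le_card hsub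
    rw [Nat.card_Icc] at h1
    have h2 := h _ (A.max'_mem hne) _ (A.min'_mem hne)
    have h3 : A.min' hne ≤ A.max' hne := A.min'_le _ (A.max'_mem hne)
    have h4 : (A.card : ℝ) ≤ ((A.max' hne + 1 - A.min' hne : ℕ) : ℝ) := by exact_mod_cast h1
    rw [Nat.cast_sub (by omega)] at h4
    push_cast at h4
    linarith

lemma kill_count (S : Finset ℕ) (Y z δ : ℝ) (hY : 0 < Y) (hδ : 0 ≤ δ) :
    ((S.filter (fun b : ℕ => |(18 * (b : ℝ) + 3) / Y - z| ≤ δ)).card : ℝ) ≤ δ * Y / 9 + 1 := by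
  apply card_le_of_diam _ _ (by positivity)
  intro a ha b hb
  have h1 := abs_le.mp (Finset.mem_filter.mp ha).2
  have h2 := abs_le.mp (Finset.mem_filter.mp hb).2
  have h3 : (18 * (a : ℝ) + 3) / Y - (18 * (b : ℝ) + 3) / Y ≤ 2 * δ := by linarith
  rw [← sub_div, div_le_iff₀ hY] at h3
  linarith

/-- weight of an integer -/
noncomputable def w1 (q : ℤ) : ℝ := ((1 + |(q : ℝ)|) ^ 2)⁻¹

lemma w1_nonneg (q : ℤ) : 0 ≤ w1 q := by unfold w1; positivity

lemma sum_w1_aux (H : ℕ) : ∑ k ∈ Finset.Icc 1 H, (((1 : ℝ) + k) ^ 2)⁻¹ ≤ 1 - 1 / (H + 1) := by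
  induction H with
  | zero => simp
  | succ H ih =>
    rw [Finset.sum_Icc_succ_top (by omega)]
    have h1 : (((1 : ℝ) + ((H + 1 : ℕ) : ℝ)) ^ 2)⁻¹ ≤ 1 / ((H : ℝ) + 1) - 1 / ((H : ℝ) + 1 + 1) := by
      push_cast
      rw [div_sub_div _ _ (by positivity) (by positivity), inv_eq_one_div,
        div_le_div_iff₀ (by positivity) (by positivity)]
      nlinarith [Nat.cast_nonneg (α := ℝ) H]
    push_cast at h1 ⊢
    linarith

lemma sum_w1 (H : ℕ) : ∑ q ∈ Finset.Icc (-(H : ℤ)) H, w1 q ≤ 3 := by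
  have hsplit : Finset.Icc (-(H : ℤ)) H ⊆
      {0} ∪ ((Finset.Icc 1 H).image (fun k : ℕ => (k : ℤ)) ∪
        (Finset.Icc 1 H).image (fun k : ℕ => -(k : ℤ))) := by
    intro q hq
    rw [Finset.mem_Icc] at hq
    simp only [Finset.mem_union, Finset.mem_singleton, Finset.mem_image, Finset.mem_Icc]
    rcases lt_trichotomy q 0 with h | h | h
    · right; right
      exact ⟨q.natAbs, by omega, by omega⟩
    · left; exact h
    · right; left
      exact ⟨q.natAbs, by omega, by omega⟩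
  have haux := sum_w1_aux H
  have hpos : (0 : ℝ) ≤ 1 / ((H : ℝ) + 1) := by positivity
  have hA : ∑ q ∈ (Finset.Icc 1 H).image (fun k : ℕ => (k : ℤ)), w1 q ≤ 1 := by
    rw [Finset.sum_image (by intro a _ b _ h; simpa using h)]
    have : ∀ k ∈ Finset.Icc 1 H, w1 ((k : ℕ) : ℤ) = (((1 : ℝ) + k) ^ 2)⁻¹ := by
      intro k _
      unfold w1
      simp
    rw [Finset.sum_congr rfl this]
    linarith
  have hB : ∑ q ∈ (Finset.Icc 1 H).image (fun k : ℕ => -(k : ℤ)), w1 q ≤ 1 := by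
    rw [Finset.sum_image (by intro a _ b _ h; simpa using h)]
    have : ∀ k ∈ Finset.Icc 1 H, w1 (-((k : ℕ) : ℤ)) = (((1 : ℝ) + k) ^ 2)⁻¹ := by
      intro k _
      unfold w1
      simp
    rw [Finset.sum_congr rfl this]
    linarith
  calc ∑ q ∈ Finset.Icc (-(H : ℤ)) H, w1 q
      ≤ ∑ q ∈ {0} ∪ ((Finset.Icc 1 H).image (fun k : ℕ => (k : ℤ)) ∪
        (Finset.Icc 1 H).image (fun k : ℕ => -(k : ℤ))), w1 q :=
        Finset.sum_le_sum_of_subset_of_nonneg hsplit (fun q _ _ => w1_nonneg q)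
    _ ≤ ∑ q ∈ ({0} : Finset ℤ), w1 q + ∑ q ∈ ((Finset.Icc 1 H).image (fun k : ℕ => (k : ℤ)) ∪
        (Finset.Icc 1 H).image (fun k : ℕ => -(k : ℤ))), w1 q := by
        rw [← Finset.sum_union_inter]
        have : 0 ≤ ∑ q ∈ ({0} : Finset ℤ) ∩ ((Finset.Icc 1 H).image (fun k : ℕ => (k : ℤ)) ∪
          (Finset.Icc 1 H).image (fun k : ℕ => -(k : ℤ))), w1 q :=
          Finset.sum_nonneg (fun q _ => w1_nonneg q)
        linarith
    _ ≤ 1 + (1 + 1) := by
        apply add_le_add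
        · simp [w1]
        · refine le_trans ?_ (add_le_add hA hB)
          rw [← Finset.sum_union_inter]
          have : 0 ≤ ∑ q ∈ ((Finset.Icc 1 H).image (fun k : ℕ => (k : ℤ))) ∩
            (Finset.Icc 1 H).image (fun k : ℕ => -(k : ℤ)), w1 q :=
            Finset.sum_nonneg (fun q _ => w1_nonneg q)
          linarith
    _ = 3 := by norm_num

/-- weight of a coefficient vector -/
noncomputable def wt {k : ℕ} (q : Fin k → ℤ) : ℝ := ∏ i, w1 (q i)

lemma wt_nonneg {k : ℕ} (q : Fin k → ℤ) : 0 ≤ wt q := Finset.prod_nonneg fun i _ => w1_nonneg _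

lemma sum_wt (k H : ℕ) :
    ∑ q ∈ Fintype.piFinset (fun _ : Fin k => Finset.Icc (-(H : ℤ)) H), wt q ≤ 3 ^ k := by
  unfold wt
  rw [← Finset.prod_univ_sum]
  rw [Finset.prod_const, Finset.card_univ, Fintype.card_fin]
  exact pow_le_pow_left₀ (Finset.sum_nonneg fun q _ => w1_nonneg q) (sum_w1 H) k

/-- the polynomial with given coefficient vector -/
noncomputable def polyOf {k : ℕ} (q : Fin k → ℤ) : ℤ[X] := ∑ i : Fin k, C (q i) * X ^ (i : ℕ)

lemma polyOf_coeff (Q : ℤ[X]) (k : ℕ) (hk : Q.natDegree < k) :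
    polyOf (fun i : Fin k => Q.coeff i) = Q := by
  unfold polyOf
  rw [Fin.sum_univ_eq_sum_range (fun i => C (Q.coeff i) * X ^ i) k]
  exact (as_sum_range_C_mul_X_pow' Q hk).symm

lemma mem_box (Q : ℤ[X]) (k H : ℕ) (hH : ht Q ≤ H) :
    (fun i : Fin k => Q.coeff i) ∈ Fintype.piFinset (fun _ : Fin k => Finset.Icc (-(H : ℤ)) H) := by
  rw [Fintype.mem_piFinset]
  intro i
  rw [Finset.mem_Icc]
  have := natAbs_coeff_le_ht Q i
  omega

lemma card_box (k H : ℕ) :
    (Fintype.piFinset (fun _ : Fin k => Finset.Icc (-(H : ℤ)) H)).card = (2 * H + 1) ^ k := by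
  rw [Fintype.card_piFinset_const, Int.card_Icc]
  congr 1
  omega

lemma le_wt (Q : ℤ[X]) (k : ℕ) (hk : Q.natDegree < k) (hQ : Q ≠ 0) :
    ((2 * (ht Q : ℝ)) ^ (2 * (Q.natDegree + 1)))⁻¹ ≤ wt (fun i : Fin k => Q.coeff i) := by
  unfold wt
  rw [Fin.prod_univ_eq_prod_range (fun i => w1 (Q.coeff i)) k]
  have h1 : ∏ i ∈ Finset.range k, w1 (Q.coeff i) =
      ∏ i ∈ Finset.range (Q.natDegree + 1), w1 (Q.coeff i) := by
    symm
    apply Finset.prod_subset
    · intro i hi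
      rw [Finset.mem_range] at hi ⊢
      omega
    · intro i _ hi
      rw [Finset.mem_range] at hi
      rw [coeff_eq_zero_of_natDegree_lt (by omega)]
      simp [w1]
  rw [h1]
  have hht : (1 : ℝ) ≤ ht Q := by exact_mod_cast one_le_ht hQ
  calc ((2 * (ht Q : ℝ)) ^ (2 * (Q.natDegree + 1)))⁻¹
      = ∏ i ∈ Finset.range (Q.natDegree + 1), ((2 * (ht Q : ℝ)) ^ 2)⁻¹ := by
        rw [Finset.prod_const, Finset.card_range, inv_pow, ← pow_mul]
    _ ≤ ∏ i ∈ Finset.range (Q.natDegree + 1), w1 (Q.coeff i) := by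
        apply Finset.prod_le_prod
        · intro i _; positivity
        · intro i _
          unfold w1
          apply inv_anti₀ (by positivity)
          apply pow_le_pow_left₀ (by positivity)
          have := abs_coeff_le_ht Q i
          linarith

end Pool.Agent.H93.SStar
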