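import Mathlib

open Polynomial

namespace Pool.Agent.H93.SStar

lemma trace_eq_zero_of_sq {F : Type*} [Field F] [Algebra ℚ F] [FiniteDimensional ℚ F] (z : F)
    (s : ℚ) (hz : z ^ 2 = algebraMap ℚ F s) (hs : ¬ IsSquare s) : Algebra.trace ℚ F z = 0 := by
  have hirr : Irreducible (X ^ 2 - C s : ℚ[X]) := by
    apply X_pow_sub_C_irreducible_of_prime Nat.prime_two
    intro b hb
    exact hs ⟨b, by rw [← hb]; ring⟩
  have hmonic : (X ^ 2 - C s : ℚ[X]).Monic := monic_X_pow_sub_C s (by norm_num)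
  have heval : aeval z (X ^ 2 - C s : ℚ[X]) = 0 := by
    simp [hz]
  have hmin : minpoly ℚ z = X ^ 2 - C s :=
    (minpoly.eq_of_irreducible_of_monic hirr heval hmonic).symm
  rw [trace_eq_finrank_mul_minpoly_nextCoeff, hmin]
  have hnd : (X ^ 2 - C s : ℚ[X]).natDegree = 2 := natDegree_X_pow_sub_C
  have hnc : (X ^ 2 - C s : ℚ[X]).nextCoeff = 0 := by
    rw [nextCoeff_of_natDegree_pos (by rw [hnd]; norm_num), hnd]
    simp [coeff_X_pow]
  rw [hnc]; simp

lemma card_le_of_squares (G : ℚ[X]) (hG : Irreducible G) (hG0 : G.coeff 0 ≠ 0) (T : Finset ℚ)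
    (hpos : ∀ t ∈ T, t ≠ 0)
    (hsq : ∀ t ∈ T, ∀ t' ∈ T, t ≠ t' → ¬ IsSquare (t * t'))
    (h : ∀ t ∈ T, ∃ g : ℚ[X], G ∣ g ^ 2 - C t * X) : T.card ≤ G.natDegree := by
  classical
  have : Fact (Irreducible G) := ⟨hG⟩
  let pb := AdjoinRoot.powerBasis hG.ne_zero
  have : FiniteDimensional ℚ (AdjoinRoot G) := pb.finite
  have hfr : Module.finrank ℚ (AdjoinRoot G) = G.natDegree := by
    rw [pb.finrank, AdjoinRoot.powerBasis_dim]
  have hγ : (AdjoinRoot.root G) ≠ 0 := by
    intro h0
    rw [← AdjoinRoot.mk_X, AdjoinRoot.mk_eq_zero] at h0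
    obtain ⟨q, hq⟩ := h0
    -- G ∣ X, so G.coeff 0 * q.coeff 0 = 0
    have hX : (X : ℚ[X]).coeff 0 = (G * q).coeff 0 := by rw [← hq]
    rw [mul_coeff_zero, coeff_X_zero] at hX
    have hq0 : q.coeff 0 = 0 := by
      rcases mul_eq_zero.mp hX.symm with h1 | h1
      · exact absurd h1 hG0
      · exact h1
    obtain ⟨r, hr⟩ := X_dvd_iff.mpr hq0
    have h3 : (X : ℚ[X]) * 1 = X * (G * r) := by
      rw [mul_one]; nth_rewrite 1 [hq, hr]; ring
    have h4 : (1 : ℚ[X]) = G * r := mul_left_cancel₀ X_ne_zero h3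
    exact hG.not_isUnit (IsUnit.of_mul_eq_one r h4.symm)
  choose! g hg using h
  let x : ℚ → AdjoinRoot G := fun t => AdjoinRoot.mk G (g t)
  have hx : ∀ t ∈ T, x t ^ 2 = algebraMap ℚ (AdjoinRoot G) t * AdjoinRoot.root G := by
    intro t ht
    have h1 := (AdjoinRoot.mk_eq_zero (f := G)).mpr (hg t ht)
    rw [map_sub, map_pow, map_mul, AdjoinRoot.mk_X, AdjoinRoot.mk_C] at h1
    have h2 := sub_eq_zero.mp h1
    simpa [x, AdjoinRoot.algebraMap_eq] using h2
  have hlin : LinearIndependent ℚ (fun t : T => x t) := by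
    rw [Fintype.linearIndependent_iff]
    intro c hc t'
    have hzero : Algebra.trace ℚ (AdjoinRoot G)
        ((∑ t : T, c t • x t) * (x t' / AdjoinRoot.root G)) = 0 := by
      rw [hc]; simp
    rw [Finset.sum_mul, map_sum] at hzero
    have hterm : ∀ t : T, t ≠ t' → Algebra.trace ℚ (AdjoinRoot G)
        (c t • x t * (x t' / AdjoinRoot.root G)) = 0 := by
      intro t htt'
      rw [smul_mul_assoc, map_smul]
      have h1 : Algebra.trace ℚ (AdjoinRoot G) (x t * (x t' / AdjoinRoot.root G)) = 0 := by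
        apply trace_eq_zero_of_sq _ ((t : ℚ) * t')
        · have e1 := hx t t.2
          have e2 := hx t' t'.2
          have : (x t * (x t' / AdjoinRoot.root G)) ^ 2 =
              (x t) ^ 2 * (x t') ^ 2 / (AdjoinRoot.root G) ^ 2 := by
            ring
          rw [this, e1, e2, map_mul]
          field_simp
        · apply hsq t t.2 t' t'.2
          intro heq
          exact htt' (Subtype.ext heq)
      rw [h1, smul_zero]
    rw [Finset.sum_eq_single t' (fun t _ ht => hterm t ht) (by simp)] at hzero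
    have h2 : c t' • x t' * (x t' / AdjoinRoot.root G) =
        algebraMap ℚ (AdjoinRoot G) (c t' * t') := by
      have e2 := hx t' t'.2
      have e3 : x t' * (x t' / AdjoinRoot.root G) = algebraMap ℚ (AdjoinRoot G) (t' : ℚ) := by
        have : x t' * (x t' / AdjoinRoot.root G) = (x t' ^ 2) / AdjoinRoot.root G := by ring
        rw [this, e2]
        field_simp
      rw [smul_mul_assoc, e3, map_mul, Algebra.smul_def]
      congr 1
    rw [h2, Algebra.trace_algebraMap, hfr] at hzero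
    have h3 : (G.natDegree : ℚ) ≠ 0 := by
      have := hG.natDegree_pos
      exact_mod_cast this.ne'
    rw [nsmul_eq_mul] at hzero
    have h4 : (t' : ℚ) ≠ 0 := hpos t' t'.2
    rcases mul_eq_zero.mp hzero with h5 | h5
    · exact absurd h5 h3
    · rcases mul_eq_zero.mp h5 with h6 | h6
      · exact h6
      · exact absurd h6 h4
  have := hlin.fintype_card_le_finrank
  rw [hfr] at this
  simpa using this

end Pool.Agent.H93.SStar
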