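import Mathlib
import Pool.Agent.H93.SStar.Basic

open Polynomial

namespace Pool.Agent.H93.SStar

lemma coeff_comp_neg_X {R : Type*} [CommRing R] (P : R[X]) (n : ℕ) :
    (P.comp (-X)).coeff n = (-1) ^ n * P.coeff n := by
  have h : (-X : R[X]) = C (-1) * X := by simp
  rw [h, comp_C_mul_X_coeff, mul_comm]

/-- even polynomials are expansions -/
lemma eq_expand_of_even {R : Type*} [CommRing R] [NoZeroDivisors R] [CharZero R] (P : R[X])
    (h : P.comp (-X) = P) : expand R 2 (contract 2 P) = P := by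
  ext n
  rw [coeff_expand (by norm_num)]
  split_ifs with h2
  · rw [coeff_contract (by norm_num), Nat.div_mul_cancel h2]
  · have h1 := congrArg (fun Q => Q.coeff n) h
    simp only [coeff_comp_neg_X] at h1
    have hodd : Odd n := by
      rw [← Nat.not_even_iff_odd]; intro he; exact h2 he.two_dvd
    rw [hodd.neg_one_pow] at h1
    have h3 : 2 * P.coeff n = 0 := by
      have : -1 * P.coeff n = P.coeff n := h1
      calc 2 * P.coeff n = P.coeff n + P.coeff n := by ring
        _ = P.coeff n + -1 * P.coeff n := by rw [this]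
        _ = 0 := by ring
    rcases mul_eq_zero.mp h3 with h4 | h4
    · exact absurd h4 two_ne_zero
    · exact h4.symm

lemma natDegree_ne_zero_of_root {Q : ℤ[X]} (hQ : Irreducible Q) {β : ℝ} (hβ : aeval β Q = 0) :
    Q.natDegree ≠ 0 := by
  intro h
  obtain ⟨c, hc⟩ := natDegree_eq_zero.mp h
  rw [← hc, aeval_C] at hβ
  have hc0 : c = 0 := by simpa using hβ
  rw [hc0, C_0] at hc
  exact hQ.ne_zero hc.symm

lemma irreducible_map {Q : ℤ[X]} (hQ : Irreducible Q) {β : ℝ} (hβ : aeval β Q = 0) :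
    Irreducible (Q.map (Int.castRingHom ℚ)) := by
  have hp : Q.IsPrimitive := hQ.isPrimitive (natDegree_ne_zero_of_root hQ hβ)
  exact (IsPrimitive.Int.irreducible_iff_irreducible_map_cast hp).mp hQ

lemma aeval_map_int (Q : ℤ[X]) (β : ℝ) : aeval β (Q.map (Int.castRingHom ℚ)) = aeval β Q := by
  have : (Int.castRingHom ℚ) = algebraMap ℤ ℚ := rfl
  rw [this, aeval_map_algebraMap]

lemma natDegree_map_int (Q : ℤ[X]) : (Q.map (Int.castRingHom ℚ)).natDegree = Q.natDegree :=
  natDegree_map_eq_of_injective Int.cast_injective _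

lemma natDegree_minpoly {Q : ℤ[X]} (hQ : Irreducible Q) {β : ℝ} (hβ : aeval β Q = 0) :
    (minpoly ℚ β).natDegree = Q.natDegree := by
  have h1 := irreducible_map hQ hβ
  have h2 : aeval β (Q.map (Int.castRingHom ℚ)) = 0 := by rw [aeval_map_int]; exact hβ
  rw [← minpoly.eq_of_irreducible h1 h2, natDegree_mul_C, natDegree_map_int]
  exact inv_ne_zero (leadingCoeff_ne_zero.mpr h1.ne_zero)

/-- scaling does not change the degree of the minimal polynomial -/
lemma natDegree_minpoly_smul_le (x : ℝ) (hx : IsIntegral ℚ x) (c : ℚ) (hc : c ≠ 0) :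
    (minpoly ℚ ((c : ℝ) * x)).natDegree ≤ (minpoly ℚ x).natDegree := by
  have h1 : aeval ((c : ℝ) * x) ((minpoly ℚ x).comp (C c⁻¹ * X)) = 0 := by
    rw [aeval_comp]
    have : aeval ((c : ℝ) * x) (C c⁻¹ * X : ℚ[X]) = x := by
      simp only [map_mul, aeval_C, aeval_X]
      have : (algebraMap ℚ ℝ) c⁻¹ = (c : ℝ)⁻¹ := by simp
      rw [this]
      have hc' : (c : ℝ) ≠ 0 := by exact_mod_cast hc
      field_simp
    rw [this, minpoly.aeval]
  have h2 : ((minpoly ℚ x).comp (C c⁻¹ * X)) ≠ 0 := by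
    intro h
    have h3 : ((minpoly ℚ x).comp (C c⁻¹ * X)).natDegree = (minpoly ℚ x).natDegree := by
      rw [natDegree_comp, natDegree_C_mul_X _ (inv_ne_zero hc), mul_one]
    rw [h] at h3
    have := minpoly.natDegree_pos hx
    simp at h3; omega
  have h4 := natDegree_le_of_dvd (minpoly.dvd ℚ _ h1) h2
  rwa [natDegree_comp, natDegree_C_mul_X _ (inv_ne_zero hc), mul_one] at h4

lemma natDegree_minpoly_smul (x : ℝ) (hx : IsIntegral ℚ x) (c : ℚ) (hc : c ≠ 0) :
    (minpoly ℚ ((c : ℝ) * x)).natDegree = (minpoly ℚ x).natDegree := by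
  apply le_antisymm (natDegree_minpoly_smul_le x hx c hc)
  have hcx : IsIntegral ℚ ((c : ℝ) * x) := by
    have : IsIntegral ℚ (c : ℝ) := by
      have := isIntegral_algebraMap (R := ℚ) (A := ℝ) (x := c)
      simpa using this
    exact this.mul hx
  have h := natDegree_minpoly_smul_le ((c : ℝ) * x) hcx c⁻¹ (inv_ne_zero hc)
  have h2 : ((c⁻¹ : ℚ) : ℝ) * ((c : ℝ) * x) = x := by
    have hc' : (c : ℝ) ≠ 0 := by exact_mod_cast hc
    push_cast; field_simp
  rwa [h2] at h

/-- An integer polynomial of minimal degree vanishing at `γ` is a multiple of the minimal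
polynomial; its primitive part is irreducible. -/
lemma map_eq_of_natDegree (V : ℤ[X]) (hV : V ≠ 0) (γ : ℝ) (hγ : aeval γ V = 0)
    (hd : V.natDegree = (minpoly ℚ γ).natDegree) :
    V.map (Int.castRingHom ℚ) = C (V.leadingCoeff : ℚ) * minpoly ℚ γ := by
  have hint : IsIntegral ℚ γ := by
    refine isAlgebraic_iff_isIntegral.mp ⟨V.map (Int.castRingHom ℚ), ?_, ?_⟩
    · rwa [Ne, Polynomial.map_eq_zero_iff Int.cast_injective]
    · rw [aeval_map_int, hγ]
  have h1 : minpoly ℚ γ ∣ V.map (Int.castRingHom ℚ) := by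
    apply minpoly.dvd; rw [aeval_map_int, hγ]
  obtain ⟨r, hr⟩ := h1
  have hV' : V.map (Int.castRingHom ℚ) ≠ 0 := by
    rwa [Ne, Polynomial.map_eq_zero_iff Int.cast_injective]
  have hr0 : r ≠ 0 := by rintro rfl; simp at hr; exact hV' (by simpa using hr)
  have h2 : r.natDegree = 0 := by
    have h3 : (V.map (Int.castRingHom ℚ)).natDegree = V.natDegree := natDegree_map_int V
    rw [hr, natDegree_mul (minpoly.ne_zero hint) hr0] at h3
    omega
  obtain ⟨c, hc⟩ := natDegree_eq_zero.mp h2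
  have h4 : (V.leadingCoeff : ℚ) = c := by
    have h5 : (V.map (Int.castRingHom ℚ)).leadingCoeff = (V.leadingCoeff : ℚ) := by
      rw [leadingCoeff_map_of_injective Int.cast_injective]; simp
    rw [← h5, hr, ← hc, leadingCoeff_mul, minpoly.monic hint, leadingCoeff_C, one_mul]
  rw [hr, ← hc, h4, mul_comm]

lemma irreducible_primPart_of_natDegree (V : ℤ[X]) (hV : V ≠ 0) (γ : ℝ) (hγ : aeval γ V = 0)
    (hd : V.natDegree = (minpoly ℚ γ).natDegree) : Irreducible V.primPart := by
  have hint : IsIntegral ℚ γ := by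
    refine isAlgebraic_iff_isIntegral.mp ⟨V.map (Int.castRingHom ℚ), ?_, ?_⟩
    · rwa [Ne, Polynomial.map_eq_zero_iff Int.cast_injective]
    · rw [aeval_map_int, hγ]
  rw [IsPrimitive.Int.irreducible_iff_irreducible_map_cast V.isPrimitive_primPart]
  have h1 := map_eq_of_natDegree V hV γ hγ hd
  have h2 : V = C V.content * V.primPart := V.eq_C_content_mul_primPart
  have hc : (V.content : ℚ) ≠ 0 := by
    have : V.content ≠ 0 := by rwa [Ne, content_eq_zero_iff]
    exact_mod_cast this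
  have h3 : V.map (Int.castRingHom ℚ) = C (V.content : ℚ) * V.primPart.map (Int.castRingHom ℚ) := by
    conv_lhs => rw [h2]
    rw [Polynomial.map_mul, map_C]; simp
  have h4 : V.primPart.map (Int.castRingHom ℚ) =
      C ((V.content : ℚ)⁻¹ * (V.leadingCoeff : ℚ)) * minpoly ℚ γ := by
    rw [C_mul, mul_assoc, ← h1, h3, ← mul_assoc, ← C_mul, inv_mul_cancel₀ hc, C_1, one_mul]
  rw [h4]
  have hl : (V.leadingCoeff : ℚ) ≠ 0 := by
    have : V.leadingCoeff ≠ 0 := leadingCoeff_ne_zero.mpr hV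
    exact_mod_cast this
  have hu : IsUnit (C ((V.content : ℚ)⁻¹ * (V.leadingCoeff : ℚ)) : ℚ[X]) :=
    isUnit_C.mpr (isUnit_iff_ne_zero.mpr (mul_ne_zero (inv_ne_zero hc) hl))
  exact (irreducible_isUnit_mul hu).mpr (minpoly.irreducible hint)

end Pool.Agent.H93.SStar
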