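import Mathlib
import Pool.Agent.H93.SStar.Even

open Polynomial

namespace Pool.Agent.H93.SStar

/-- `D ^ deg * P (A x / D)` as an integer polynomial. -/
noncomputable def scaled (P : ℤ[X]) (A D : ℕ) : ℤ[X] := scaleRoots (P.comp (C (A : ℤ) * X)) (D : ℤ)

lemma natDegree_comp_CX (P : ℤ[X]) (A : ℕ) (hA : A ≠ 0) :
    (P.comp (C (A : ℤ) * X)).natDegree = P.natDegree := by
  rw [natDegree_comp, natDegree_C_mul_X _ (by exact_mod_cast hA), mul_one]

lemma natDegree_scaled (P : ℤ[X]) (A D : ℕ) (hA : A ≠ 0) :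
    (scaled P A D).natDegree = P.natDegree := by
  rw [scaled, natDegree_scaleRoots, natDegree_comp_CX P A hA]

lemma coeff_scaled (P : ℤ[X]) (A D : ℕ) (hA : A ≠ 0) (i : ℕ) :
    (scaled P A D).coeff i = P.coeff i * (A : ℤ) ^ i * (D : ℤ) ^ (P.natDegree - i) := by
  rw [scaled, coeff_scaleRoots, comp_C_mul_X_coeff, natDegree_comp_CX P A hA]

lemma aeval_scaled (P : ℤ[X]) (A D : ℕ) (hA : A ≠ 0) (y : ℝ) :
    aeval ((D : ℝ) * (y / A)) (scaled P A D) = (D : ℝ) ^ P.natDegree * aeval y P := by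
  have h1 := scaleRoots_eval₂_mul (p := P.comp (C (A : ℤ) * X)) (Int.castRingHom ℝ) (y / A) (D : ℤ)
  rw [natDegree_comp_CX P A hA] at h1
  have h2 : ∀ (P : ℤ[X]) (x : ℝ), eval₂ (Int.castRingHom ℝ) x P = aeval x P := by
    intro P x; rfl
  rw [h2, h2] at h1
  have h3 : (Int.castRingHom ℝ) (D : ℤ) = (D : ℝ) := by simp
  rw [h3] at h1
  rw [scaled, h1, aeval_comp]
  congr 2
  have hA' : (A : ℝ) ≠ 0 := by exact_mod_cast hA
  simp only [map_mul, aeval_C, aeval_X]
  have : (algebraMap ℤ ℝ) (A : ℤ) = (A : ℝ) := by simp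
  rw [this]
  field_simp

lemma ht_scaled (P : ℤ[X]) (A D : ℕ) (hA : A ≠ 0) :
    ht (scaled P A D) ≤ ht P * (max A D) ^ P.natDegree := by
  apply ht_le_of_forall
  intro i
  rw [coeff_scaled P A D hA]
  by_cases hi : i ≤ P.natDegree
  · rw [Int.natAbs_mul, Int.natAbs_mul, Int.natAbs_pow, Int.natAbs_pow, Int.natAbs_natCast,
      Int.natAbs_natCast, mul_assoc]
    apply Nat.mul_le_mul (natAbs_coeff_le_ht P i)
    calc A ^ i * D ^ (P.natDegree - i) ≤ (max A D) ^ i * (max A D) ^ (P.natDegree - i) :=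
          Nat.mul_le_mul (Nat.pow_le_pow_left (le_max_left _ _) _)
            (Nat.pow_le_pow_left (le_max_right _ _) _)
      _ = (max A D) ^ P.natDegree := by rw [← pow_add]; congr 1; omega
  · rw [coeff_eq_zero_of_natDegree_lt (by omega)]; simp

/-- `N(x^2) = Q(x) Q(-x)` -/
noncomputable def normPoly (Q : ℤ[X]) : ℤ[X] := contract 2 (Q * Q.comp (-X))

lemma expand_normPoly (Q : ℤ[X]) : expand ℤ 2 (normPoly Q) = Q * Q.comp (-X) := by
  apply eq_expand_of_even
  rw [mul_comp, comp_neg_X_comp_neg_X, mul_comm]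

lemma natDegree_comp_neg_X (Q : ℤ[X]) : (Q.comp (-X)).natDegree = Q.natDegree := by
  rw [natDegree_comp]; simp

lemma natDegree_normPoly (Q : ℤ[X]) (hQ : Q ≠ 0) : (normPoly Q).natDegree = Q.natDegree := by
  have h1 := congrArg natDegree (expand_normPoly Q)
  rw [natDegree_expand] at h1
  have h2 : Q.comp (-X) ≠ 0 := by
    intro h
    have h3 := congrArg (fun P => P.comp (-X)) h
    simp only [comp_neg_X_comp_neg_X, zero_comp] at h3
    exact hQ h3
  rw [natDegree_mul hQ h2, natDegree_comp_neg_X] at h1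
  omega

lemma aeval_normPoly (Q : ℤ[X]) (x : ℝ) :
    aeval (x ^ 2) (normPoly Q) = aeval x Q * aeval (-x) Q := by
  rw [← expand_aeval, expand_normPoly, map_mul, aeval_comp]
  simp

lemma natAbs_coeff_mul_le (P R : ℤ[X]) (a b : ℕ) (hP : ∀ i, (P.coeff i).natAbs ≤ a)
    (hR : ∀ i, (R.coeff i).natAbs ≤ b) (n : ℕ) :
    ((P * R).coeff n).natAbs ≤ (n + 1) * (a * b) := by
  rw [coeff_mul]
  calc (∑ x ∈ Finset.HasAntidiagonal.antidiagonal n, P.coeff x.1 * R.coeff x.2).natAbs
      ≤ ∑ x ∈ Finset.HasAntidiagonal.antidiagonal n, (P.coeff x.1 * R.coeff x.2).natAbs := by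
        exact Int.natAbs_sum_le _ _
    _ ≤ ∑ x ∈ Finset.HasAntidiagonal.antidiagonal n, a * b := by
        apply Finset.sum_le_sum
        intro x _
        rw [Int.natAbs_mul]
        exact Nat.mul_le_mul (hP _) (hR _)
    _ = (n + 1) * (a * b) := by
        rw [Finset.sum_const, Finset.Nat.card_antidiagonal, smul_eq_mul]

lemma ht_normPoly (Q : ℤ[X]) (hQ : Q ≠ 0) :
    ht (normPoly Q) ≤ (2 * Q.natDegree + 1) * (ht Q * ht Q) := by
  apply ht_le_of_forall
  intro i
  by_cases hi : i ≤ Q.natDegree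
  · rw [normPoly, coeff_contract (by norm_num)]
    refine (natAbs_coeff_mul_le _ _ (ht Q) (ht Q) (natAbs_coeff_le_ht Q) ?_ _).trans ?_
    · intro j
      rw [coeff_comp_neg_X, Int.natAbs_mul]
      have : ((-1 : ℤ) ^ j).natAbs = 1 := by
        rw [Int.natAbs_pow]; simp
      rw [this, one_mul]
      exact natAbs_coeff_le_ht Q j
    · apply Nat.mul_le_mul_right; omega
  · rw [coeff_eq_zero_of_natDegree_lt (by rw [natDegree_normPoly Q hQ]; omega)]; simp

/-- NORM lemma -/
lemma exists_norm (Q : ℤ[X]) (hQ : Q ≠ 0) (A D : ℕ) (hA : A ≠ 0) :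
    ∃ U : ℤ[X], U.natDegree = Q.natDegree ∧
      ht U ≤ (2 * Q.natDegree + 1) * (ht Q * ht Q) * (max A D) ^ Q.natDegree ∧
      ∀ x : ℝ, aeval ((D : ℝ) * (x ^ 2 / A)) U =
        (D : ℝ) ^ Q.natDegree * (aeval x Q * aeval (-x) Q) := by
  refine ⟨scaled (normPoly Q) A D, ?_, ?_, ?_⟩
  · rw [natDegree_scaled _ _ _ hA, natDegree_normPoly Q hQ]
  · refine (ht_scaled _ A D hA).trans ?_
    rw [natDegree_normPoly Q hQ]
    exact Nat.mul_le_mul_right _ (ht_normPoly Q hQ)
  · intro x
    rw [aeval_scaled _ _ _ hA, natDegree_normPoly Q hQ, aeval_normPoly]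

lemma ht_primPart_le (V : ℤ[X]) (hV : V ≠ 0) : ht V.primPart ≤ ht V := by
  apply ht_le_of_forall
  intro i
  refine le_trans ?_ (natAbs_coeff_le_ht V i)
  have h2 : V = C V.content * V.primPart := V.eq_C_content_mul_primPart
  have h3 : V.coeff i = V.content * V.primPart.coeff i := by
    conv_lhs => rw [h2]
    rw [coeff_C_mul]
  rw [h3, Int.natAbs_mul]
  have hc : V.content ≠ 0 := by rwa [Ne, content_eq_zero_iff]
  have : 1 ≤ V.content.natAbs := Nat.one_le_iff_ne_zero.mpr (Int.natAbs_ne_zero.mpr hc)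
  nlinarith [Nat.zero_le (V.primPart.coeff i).natAbs]

/-- EVEN lemma -/
lemma exists_half (Q : ℤ[X]) (hQ : Irreducible Q) (hev : Q.comp (-X) = Q) (β : ℝ)
    (hβ : aeval β Q = 0) (A D : ℕ) (hA : A ≠ 0) (hD : D ≠ 0) :
    ∃ G : ℤ[X], Irreducible G ∧ 2 * G.natDegree = Q.natDegree ∧
      ht G ≤ ht Q * (max A D) ^ Q.natDegree ∧ aeval ((D : ℝ) * (β ^ 2 / A)) G = 0 := by
  have hexp := eq_expand_of_even Q hev
  set E := contract 2 Q with hE
  have hEirr : Irreducible E := by
    apply of_irreducible_expand (p := 2) (by norm_num)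
    rw [hexp]; exact hQ
  have hEdeg : 2 * E.natDegree = Q.natDegree := by
    rw [← hexp, natDegree_expand, mul_comm]
  have hEroot : aeval (β ^ 2) E = 0 := by
    rw [← expand_aeval, hexp, hβ]
  have hEht : ht E ≤ ht Q := by
    apply ht_le_of_forall
    intro i
    rw [hE, coeff_contract (by norm_num)]
    exact natAbs_coeff_le_ht Q _
  let V := scaled E A D
  have hVdeg : V.natDegree = E.natDegree := natDegree_scaled E A D hA
  have hE0 : E.natDegree ≠ 0 := natDegree_ne_zero_of_root hEirr hEroot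
  have hV0 : V ≠ 0 := by
    intro h
    rw [h] at hVdeg; simp at hVdeg; exact hE0 hVdeg.symm
  have hVroot : aeval ((D : ℝ) * (β ^ 2 / A)) V = 0 := by
    rw [aeval_scaled E A D hA, hEroot, mul_zero]
  have hmin : V.natDegree = (minpoly ℚ ((D : ℝ) * (β ^ 2 / A))).natDegree := by
    have h1 : (D : ℝ) * (β ^ 2 / A) = (((D : ℚ) / A : ℚ) : ℝ) * β ^ 2 := by
      push_cast; ring
    have hint : IsIntegral ℚ (β ^ 2) := by
      refine isAlgebraic_iff_isIntegral.mp ⟨E.map (Int.castRingHom ℚ), ?_, ?_⟩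
      · rw [Ne, Polynomial.map_eq_zero_iff Int.cast_injective]; exact hEirr.ne_zero
      · rw [aeval_map_int, hEroot]
    have hc : ((D : ℚ) / A : ℚ) ≠ 0 := by
      have h1 : (D : ℚ) ≠ 0 := by exact_mod_cast hD
      have h2 : (A : ℚ) ≠ 0 := by exact_mod_cast hA
      exact div_ne_zero h1 h2
    rw [h1, natDegree_minpoly_smul _ hint _ hc, natDegree_minpoly hEirr hEroot, hVdeg]
  refine ⟨V.primPart, irreducible_primPart_of_natDegree V hV0 _ hVroot hmin, ?_, ?_, ?_⟩
  · rw [natDegree_primPart, hVdeg, hEdeg]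
  · refine (ht_primPart_le V hV0).trans ((ht_scaled E A D hA).trans ?_)
    apply Nat.mul_le_mul hEht
    apply Nat.pow_le_pow_right
    · have : 0 < A := Nat.pos_of_ne_zero hA
      exact lt_of_lt_of_le this (le_max_left _ _)
    · omega
  · have h2 : V = C V.content * V.primPart := V.eq_C_content_mul_primPart
    rw [h2, map_mul, aeval_C] at hVroot
    rcases mul_eq_zero.mp hVroot with h3 | h3
    · exfalso
      have hc : V.content ≠ 0 := by rwa [Ne, content_eq_zero_iff]
      apply hc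
      simpa using h3
    · exact h3

/-- NONEVEN lemma -/
lemma noneven_root (Q : ℤ[X]) (hQ : Irreducible Q) (hev : Q.comp (-X) ≠ Q) (β : ℝ)
    (hβ : aeval β Q = 0) : ∃ g : ℚ[X], aeval (β ^ 2) g = β := by
  set q := Q.map (Int.castRingHom ℚ) with hq
  have hqirr : Irreducible q := irreducible_map hQ hβ
  have hqroot : aeval β q = 0 := by rw [hq, aeval_map_int, hβ]
  set E := contract 2 q
  set O := contract 2 (divX q)
  have hdec : q = expand ℚ 2 E + X * expand ℚ 2 O := by
    ext n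
    rw [coeff_add, coeff_expand (by norm_num)]
    rcases Nat.even_or_odd' n with ⟨k, rfl | rfl⟩
    · rw [if_pos ⟨k, rfl⟩, coeff_contract (by norm_num)]
      have h1 : 2 * k / 2 * 2 = 2 * k := by omega
      rw [h1]
      rcases k with _ | k
      · simp
      · have h2 : 2 * (k + 1) = (2 * k + 1) + 1 := by ring
        rw [h2, coeff_X_mul, coeff_expand (by norm_num), if_neg (by omega), add_zero]
    · rw [if_neg (by omega), zero_add, coeff_X_mul, coeff_expand (by norm_num), if_pos ⟨k, rfl⟩,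
        coeff_contract (by norm_num), coeff_divX]
      congr 1; omega
  have hint : IsIntegral ℚ β := isAlgebraic_iff_isIntegral.mp ⟨q, hqirr.ne_zero, hqroot⟩
  have hval : aeval (β ^ 2) E + β * aeval (β ^ 2) O = 0 := by
    have h1 := hqroot
    rw [hdec, map_add, map_mul, aeval_X, expand_aeval, expand_aeval] at h1
    exact h1
  by_cases hO : aeval (β ^ 2) O = 0
  · exfalso
    -- then O = 0
    have h1 : aeval β (expand ℚ 2 O) = 0 := by rw [expand_aeval, hO]
    have h2 : minpoly ℚ β ∣ expand ℚ 2 O := minpoly.dvd ℚ _ h1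
    have h3 : expand ℚ 2 O = 0 := by
      by_contra hne
      have h4 := natDegree_le_of_dvd h2 hne
      have h5 : (minpoly ℚ β).natDegree = q.natDegree := by
        rw [natDegree_minpoly hQ hβ, hq, natDegree_map_int]
      rw [h5] at h4
      have h6 : (expand ℚ 2 O).natDegree ≤ q.natDegree - 1 := by
        rw [natDegree_le_iff_coeff_eq_zero]
        intro N hN
        rw [coeff_expand (by norm_num)]
        split_ifs with h7
        · rw [coeff_contract (by norm_num), Nat.div_mul_cancel h7, coeff_divX]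
          apply coeff_eq_zero_of_natDegree_lt; omega
        · rfl
      have h7 : q.natDegree ≠ 0 := by
        rw [hq, natDegree_map_int]; exact natDegree_ne_zero_of_root hQ hβ
      omega
    have h4 : q = expand ℚ 2 E := by rw [hdec, h3, mul_zero, add_zero]
    apply hev
    apply Polynomial.map_injective (Int.castRingHom ℚ) Int.cast_injective
    rw [Polynomial.map_comp, Polynomial.map_neg, map_X, ← hq, h4]
    ext n
    rw [coeff_comp_neg_X, coeff_expand (by norm_num)]
    split_ifs with h5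
    · have : Even n := even_iff_two_dvd.mpr h5
      rw [this.neg_one_pow, one_mul]
    · rw [mul_zero]
  · -- inverse of O(β^2)
    have hint2 : IsIntegral ℚ (β ^ 2) := hint.pow 2
    have hcop : IsCoprime (minpoly ℚ (β ^ 2)) O := by
      rw [(minpoly.irreducible hint2).coprime_iff_not_dvd]
      intro hdvd
      obtain ⟨r, hr⟩ := hdvd
      apply hO
      rw [hr, map_mul, minpoly.aeval, zero_mul]
    obtain ⟨a, b, hab⟩ := hcop
    have h1 := congrArg (aeval (β ^ 2)) hab
    rw [map_add, map_mul, map_mul, minpoly.aeval, mul_zero, zero_add, map_one] at h1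
    refine ⟨-E * b, ?_⟩
    rw [map_mul, map_neg]
    have h2 : aeval (β ^ 2) E = - (β * aeval (β ^ 2) O) := by linarith
    rw [h2]
    calc - -(β * (aeval (β ^ 2)) O) * (aeval (β ^ 2)) b
        = β * ((aeval (β ^ 2)) b * (aeval (β ^ 2)) O) := by ring
      _ = β := by rw [h1, mul_one]

lemma noneven_data (Q : ℤ[X]) (hQ : Irreducible Q) (hev : Q.comp (-X) ≠ Q) (β : ℝ)
    (hβ : aeval β Q = 0) (t : ℚ) (ht0 : t ≠ 0) :
    (minpoly ℚ (β ^ 2 / (t : ℝ))).natDegree = Q.natDegree ∧
      ∃ g : ℚ[X], minpoly ℚ (β ^ 2 / (t : ℝ)) ∣ g ^ 2 - C t * X := by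
  obtain ⟨g, hg⟩ := noneven_root Q hQ hev β hβ
  have htR : (t : ℝ) ≠ 0 := by exact_mod_cast ht0
  have hint : IsIntegral ℚ β := by
    refine isAlgebraic_iff_isIntegral.mp ⟨Q.map (Int.castRingHom ℚ),
      (irreducible_map hQ hβ).ne_zero, ?_⟩
    rw [aeval_map_int, hβ]
  have hint2 : IsIntegral ℚ (β ^ 2) := hint.pow 2
  have hu : β ^ 2 / (t : ℝ) = ((t⁻¹ : ℚ) : ℝ) * β ^ 2 := by
    push_cast; field_simp
  constructor
  · rw [hu, natDegree_minpoly_smul _ hint2 _ (inv_ne_zero ht0), ← natDegree_minpoly hQ hβ]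
    -- degree of β^2 equals degree of β
    have h1 : IntermediateField.adjoin ℚ {β ^ 2} = IntermediateField.adjoin ℚ {β} := by
      apply le_antisymm
      · rw [IntermediateField.adjoin_simple_le_iff]
        exact pow_mem (IntermediateField.mem_adjoin_simple_self ℚ β) 2
      · rw [IntermediateField.adjoin_simple_le_iff]
        have h2 : aeval (β ^ 2) g ∈ IntermediateField.adjoin ℚ {β ^ 2} := by
          have := IntermediateField.algebra_adjoin_le_adjoin ℚ {β ^ 2}
          apply this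
          exact aeval_mem_adjoin_singleton ℚ (β ^ 2)
        rwa [hg] at h2
    rw [← IntermediateField.adjoin.finrank hint2, ← IntermediateField.adjoin.finrank hint, h1]
  · refine ⟨g.comp (C t * X), ?_⟩
    apply minpoly.dvd
    have h3 : aeval (β ^ 2 / (t : ℝ)) (g.comp (C t * X)) = β := by
      rw [aeval_comp]
      have : aeval (β ^ 2 / (t : ℝ)) (C t * X : ℚ[X]) = β ^ 2 := by
        simp only [map_mul, aeval_C, aeval_X, eq_ratCast]
        field_simp
      rw [this, hg]
    rw [map_sub, map_pow, h3, map_mul, aeval_C, aeval_X, eq_ratCast]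
    field_simp
    ring

end Pool.Agent.H93.SStar
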