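import Mathlib
import Pool.Agent.H93.SStar.Basic

open Polynomial

namespace Pool.Agent.H93.SStar

/-- key identity: row vector of powers times Sylvester matrix -/
lemma vec_sylvester (U V : ℤ[X]) (m : ℕ) (hU : U.natDegree ≤ m) (hV : V.natDegree ≤ m) (θ : ℝ)
    (j : Fin (m + m)) :
    (∑ i : Fin (m + m), θ ^ (i : ℕ) * ((sylvester U V m m i j : ℤ) : ℝ)) =
      j.addCases (fun j₁ => θ ^ (j₁ : ℕ) * aeval θ V) (fun j₁ => θ ^ (j₁ : ℕ) * aeval θ U) := by
  have key : ∀ (P : ℤ[X]) (_ : P.natDegree ≤ m) (j₁ : Fin m),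
      (∑ i : Fin (m + m), θ ^ (i : ℕ) *
        (((if (i : ℕ) ∈ Set.Icc (j₁ : ℕ) (j₁ + m) then P.coeff (i - j₁) else 0 : ℤ)) : ℝ)) =
        θ ^ (j₁ : ℕ) * aeval θ P := by
    intro P hP j₁
    have h1 : aeval θ P = ∑ i ∈ Finset.range (m + 1), (P.coeff i : ℝ) * θ ^ i := by
      rw [aeval_eq_sum_range' (n := m + 1) (by omega)]
      simp
    rw [h1, Finset.mul_sum]
    rw [Fin.sum_univ_eq_sum_range (fun i => θ ^ i *
        (((if i ∈ Set.Icc (j₁ : ℕ) (j₁ + m) then P.coeff (i - j₁) else 0 : ℤ)) : ℝ)) (m + m)]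
    have h2 : ∀ i ∈ Finset.range (m + m), i ∉ Finset.Ico (j₁ : ℕ) (j₁ + m + 1) →
        θ ^ i * (((if i ∈ Set.Icc (j₁ : ℕ) (j₁ + m) then P.coeff (i - j₁) else 0 : ℤ)) : ℝ) = 0 := by
      intro i _ hi2
      rw [if_neg]
      · simp
      · intro h
        apply hi2
        simp only [Set.mem_Icc] at h
        simp only [Finset.mem_Ico]
        omega
    have hsub : Finset.Ico (j₁ : ℕ) (j₁ + m + 1) ⊆ Finset.range (m + m) := by
      intro i hi
      simp only [Finset.mem_Ico] at hi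
      have := j₁.2
      simp only [Finset.mem_range]
      omega
    rw [← Finset.sum_subset hsub h2]
    rw [Finset.sum_Ico_eq_sum_range]
    have h3 : (j₁ : ℕ) + m + 1 - j₁ = m + 1 := by omega
    rw [h3]
    apply Finset.sum_congr rfl
    intro i hi
    have hi' : i ≤ m := by
      have := Finset.mem_range.mp hi; omega
    rw [if_pos (by simp only [Set.mem_Icc]; omega)]
    have h4 : (j₁ : ℕ) + i - j₁ = i := by omega
    rw [h4, pow_add]; ring
  induction j using Fin.addCases with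
  | left j₁ =>
    simp only [sylvester, Matrix.of_apply, Fin.addCases_left]
    exact key V hV j₁
  | right j₁ =>
    simp only [sylvester, Matrix.of_apply, Fin.addCases_right]
    exact key U hU j₁

lemma sylvester_entry_le (U V : ℤ[X]) (m : ℕ) (A : ℝ) (hA : 0 ≤ A)
    (hUA : ∀ i, |(U.coeff i : ℝ)| ≤ A) (hVA : ∀ i, |(V.coeff i : ℝ)| ≤ A) (i j : Fin (m + m)) :
    |((sylvester U V m m i j : ℤ) : ℝ)| ≤ A := by
  induction j using Fin.addCases with
  | left j₁ =>
    simp only [sylvester, Matrix.of_apply, Fin.addCases_left]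
    split_ifs
    · exact hVA _
    · simpa using hA
  | right j₁ =>
    simp only [sylvester, Matrix.of_apply, Fin.addCases_right]
    split_ifs
    · exact hUA _
    · simpa using hA

/-- Upper bound for the resultant in terms of small values at a real point. -/
lemma abs_resultant_le (U V : ℤ[X]) (m : ℕ) (hm : 1 ≤ m) (hU : U.natDegree ≤ m)
    (hV : V.natDegree ≤ m) (A : ℝ) (hA : 1 ≤ A)
    (hUA : ∀ i, |(U.coeff i : ℝ)| ≤ A) (hVA : ∀ i, |(V.coeff i : ℝ)| ≤ A)
    (θ Θ ε : ℝ) (hΘ : 1 ≤ Θ) (hθ : |θ| ≤ Θ)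
    (hUe : |aeval θ U| ≤ ε) (hVe : |aeval θ V| ≤ ε) :
    |((resultant U V m m : ℤ) : ℝ)| ≤
      (m + m) * ((Nat.factorial (m + m) : ℝ) * A ^ (m + m)) * (Θ ^ m * ε) := by
  set SR : Matrix (Fin (m + m)) (Fin (m + m)) ℝ :=
    (sylvester U V m m).map (Int.castRingHom ℝ) with hSR
  have hdet : ((resultant U V m m : ℤ) : ℝ) = SR.det := by
    rw [resultant, hSR]
    have := RingHom.map_det (Int.castRingHom ℝ) (sylvester U V m m)
    simpa using this
  have hε : 0 ≤ ε := (abs_nonneg _).trans hUe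
  let v : Fin (m + m) → ℝ := fun i => θ ^ (i : ℕ)
  let w : Fin (m + m) → ℝ := Matrix.vecMul v SR
  have hw : ∀ j, |w j| ≤ Θ ^ m * ε := by
    intro j
    have h1 : w j = ∑ i : Fin (m + m), θ ^ (i : ℕ) * ((sylvester U V m m i j : ℤ) : ℝ) := by
      simp [w, v, Matrix.vecMul, dotProduct, hSR]
    rw [h1, vec_sylvester U V m hU hV θ j]
    have hpow : ∀ j₁ : Fin m, |θ ^ (j₁ : ℕ)| ≤ Θ ^ m := by
      intro j₁
      rw [abs_pow]
      exact (pow_le_pow_left₀ (abs_nonneg _) hθ _).trans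
        (pow_le_pow_right₀ hΘ (le_of_lt j₁.2))
    induction j using Fin.addCases with
    | left j₁ =>
      simp only [Fin.addCases_left, abs_mul]
      exact mul_le_mul (hpow j₁) hVe (abs_nonneg _) (by positivity)
    | right j₁ =>
      simp only [Fin.addCases_right, abs_mul]
      exact mul_le_mul (hpow j₁) hUe (abs_nonneg _) (by positivity)
  let z : Fin (m + m) := ⟨0, by omega⟩
  have hv0 : v z = 1 := by simp [v, z]
  have hmain : SR.det = ∑ j, w j * SR.adjugate j z := by
    have h1 : Matrix.vecMul w SR.adjugate = SR.det • v := by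
      simp only [w]
      rw [Matrix.vecMul_vecMul, Matrix.mul_adjugate, Matrix.vecMul_smul, Matrix.vecMul_one]
    have h2 := congrFun h1 z
    simp only [Pi.smul_apply, hv0, smul_eq_mul, mul_one] at h2
    rw [← h2]
    simp [Matrix.vecMul, dotProduct]
  have hadj : ∀ j, |SR.adjugate j z| ≤ (Nat.factorial (m + m) : ℝ) * A ^ (m + m) := by
    intro j
    rw [Matrix.adjugate_apply]
    have := Matrix.det_le (A := SR.updateRow z (Pi.single j 1)) (abv := AbsoluteValue.abs)
      (x := A) ?_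
    · simpa [nsmul_eq_mul] using this
    · intro i k
      rw [AbsoluteValue.abs_apply, Matrix.updateRow_apply]
      split_ifs with h
      · rw [Pi.single_apply]
        split_ifs
        · simpa using hA
        · simpa using (by linarith : (0:ℝ) ≤ A)
      · simp only [hSR, Matrix.map_apply]
        exact sylvester_entry_le U V m A (by linarith) hUA hVA i k
  rw [hdet, hmain]
  calc |∑ j, w j * SR.adjugate j z| ≤ ∑ j, |w j * SR.adjugate j z| :=
        Finset.abs_sum_le_sum_abs _ _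
    _ ≤ ∑ j : Fin (m + m), (Θ ^ m * ε) * ((Nat.factorial (m + m) : ℝ) * A ^ (m + m)) := by
        apply Finset.sum_le_sum
        intro j _
        rw [abs_mul]
        exact mul_le_mul (hw j) (hadj j) (abs_nonneg _) (by positivity)
    _ = (m + m) * ((Nat.factorial (m + m) : ℝ) * A ^ (m + m)) * (Θ ^ m * ε) := by
        rw [Finset.sum_const, Finset.card_univ, Fintype.card_fin, nsmul_eq_mul]
        push_cast; ring

/-- If both polynomials are tiny at a real point, they are not coprime over `ℚ`. -/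
lemma not_coprime_of_small (U V : ℤ[X]) (m : ℕ) (hm : 1 ≤ m) (hU : U.natDegree = m)
    (hV : V.natDegree = m) (A : ℝ) (hA : 1 ≤ A)
    (hUA : ∀ i, |(U.coeff i : ℝ)| ≤ A) (hVA : ∀ i, |(V.coeff i : ℝ)| ≤ A)
    (θ Θ ε : ℝ) (hΘ : 1 ≤ Θ) (hθ : |θ| ≤ Θ)
    (hUe : |aeval θ U| ≤ ε) (hVe : |aeval θ V| ≤ ε)
    (hsmall : (m + m) * ((Nat.factorial (m + m) : ℝ) * A ^ (m + m)) * (Θ ^ m * ε) < 1) :
    ¬ IsCoprime (U.map (Int.castRingHom ℚ)) (V.map (Int.castRingHom ℚ)) := by
  have h1 := abs_resultant_le U V m hm hU.le hV.le A hA hUA hVA θ Θ ε hΘ hθ hUe hVe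
  have h2 : |((resultant U V m m : ℤ) : ℝ)| < 1 := lt_of_le_of_lt h1 hsmall
  have h3 : resultant U V m m = 0 := by
    have h4 : |resultant U V m m| < 1 := by exact_mod_cast h2
    exact Int.abs_lt_one_iff.mp h4
  intro hcop
  have hinj : Function.Injective (Int.castRingHom ℚ) := Int.cast_injective
  have hUm : (U.map (Int.castRingHom ℚ)).natDegree = m := by
    rw [natDegree_map_eq_of_injective hinj, hU]
  have hVm : (V.map (Int.castRingHom ℚ)).natDegree = m := by
    rw [natDegree_map_eq_of_injective hinj, hV]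
  have h5 : resultant (U.map (Int.castRingHom ℚ)) (V.map (Int.castRingHom ℚ)) = 0 := by
    rw [hUm, hVm, resultant_map_map, h3, map_zero]
  rw [resultant_eq_zero_iff] at h5
  exact h5.2 hcop

end Pool.Agent.H93.SStar
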