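import Mathlib
import Pool.Agent.H93.SStar.Norm
import Pool.Agent.H93.SStar.Res
import Pool.Agent.H93.SStar.Alg

open Polynomial

namespace Pool.Agent.H93.SStar

/-- `θ` is abnormally close to a root of a small irreducible polynomial of small degree. -/
def Matched (M : ℕ) (Wm Wp : ℝ) (e : ℕ) (K : ℝ) (θ : ℝ) : Prop :=
  ∃ m : ℕ, 1 ≤ m ∧ e * m ≤ M ∧ ∃ B : ℝ, 1 ≤ B ∧ Wm ≤ B ^ (e * m) ∧ B ^ (e * m) ≤ Wp ∧
    ∃ Q : ℤ[X], Irreducible Q ∧ Q.natDegree = m ∧ (ht Q : ℝ) ≤ K * B ∧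
      ∃ β : ℝ, aeval β Q = 0 ∧ |θ - β| ≤ K * ((B ^ (e * m)) ^ 1800)⁻¹

lemma exists_class (y Wm : ℝ) (h1 : Wm ≤ y) :
    ∀ N : ℕ, 1 ≤ N → y ≤ Wm ^ (2 ^ N) → ∃ l < N, Wm ^ (2 ^ l) ≤ y ∧ y ≤ (Wm ^ (2 ^ l)) ^ 2 := by
  intro N hN
  induction N with
  | zero => omega
  | succ N ih =>
    intro hy
    rcases Nat.eq_zero_or_pos N with rfl | hN'
    · refine ⟨0, by omega, by simpa using h1, ?_⟩
      simpa using hy
    · by_cases h : y ≤ Wm ^ (2 ^ N)
      · obtain ⟨l, hl, h2, h3⟩ := ih hN' h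
        exact ⟨l, by omega, h2, h3⟩
      · push Not at h
        refine ⟨N, by omega, h.le, ?_⟩
        rw [← pow_mul, ← pow_succ]
        exact hy

/-- auxiliary polynomial attached to a matched square root -/
lemma U_data (M : ℕ) (t : ℚ) (ht1 : 1 < t) (Q : ℤ[X]) (hQ : Irreducible Q) (β : ℝ)
    (hβ : aeval β Q = 0) (hM : Q.natDegree ≤ M) (θ Θ : ℝ) (hΘ : 2 ≤ Θ) (hθ1 : 1 ≤ θ)
    (hx : Real.sqrt (t * θ) ≤ Θ) (h : ℕ) (hh1 : t.num.natAbs ≤ h) (hh2 : t.den ≤ h)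
    (K B δ : ℝ) (hK : 1 ≤ K) (hB : 1 ≤ B) (hQB : (ht Q : ℝ) ≤ K * B)
    (hδ : |Real.sqrt (t * θ) - β| ≤ K * δ) (hδ1 : K * δ ≤ 1 / 2) :
    ∃ U : ℤ[X], U.natDegree = Q.natDegree ∧
      (∀ i, |(U.coeff i : ℝ)| ≤ (2 * M + 1) * K ^ 2 * h ^ M * B ^ 2) ∧
      |aeval θ U| ≤ h ^ M * (M + 1) ^ 3 * K ^ 3 * (Θ + 1) ^ (2 * M) * (B ^ 2 * δ) ∧
      aeval (β ^ 2 / (t : ℝ)) U = 0 := by
  have htpos : 0 < t := by linarith
  have hA : t.num.natAbs ≠ 0 := by
    have : 0 < t.num := Rat.num_pos.mpr htpos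
    omega
  have hD : t.den ≠ 0 := t.den_nz
  have hh0 : 1 ≤ h := le_trans (Nat.one_le_iff_ne_zero.mpr hD) hh2
  obtain ⟨U, hUd, hUh, hUe⟩ := exists_norm Q hQ.ne_zero t.num.natAbs t.den hA
  have hnum : ((t.num.natAbs : ℕ) : ℝ) = (t.num : ℝ) := by
    have : (0 : ℤ) ≤ t.num := (Rat.num_pos.mpr htpos).le
    rw [Nat.cast_natAbs, abs_of_nonneg this]
  have htR : (t : ℝ) = (t.num : ℝ) / (t.den : ℝ) := by
    exact_mod_cast (Rat.num_div_den t).symm
  have hnumR : (t.num : ℝ) ≠ 0 := by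
    rw [← hnum]; exact_mod_cast hA
  have hdenR : (t.den : ℝ) ≠ 0 := by exact_mod_cast hD
  have hconv : ∀ y : ℝ, (t.den : ℝ) * (y ^ 2 / (t.num.natAbs : ℝ)) = y ^ 2 / (t : ℝ) := by
    intro y
    rw [hnum, htR]; field_simp
  have htR1 : (1 : ℝ) < (t : ℝ) := by exact_mod_cast ht1
  set x := Real.sqrt (t * θ) with hxdef
  have hx2 : x ^ 2 = t * θ := Real.sq_sqrt (by positivity)
  have hx0 : 0 ≤ x := Real.sqrt_nonneg _
  have hθval : x ^ 2 / (t : ℝ) = θ := by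
    rw [hx2]; field_simp
  have hδ' : |x - β| ≤ 1 / 2 := hδ.trans hδ1
  have hβabs : |β| ≤ Θ + 1 := by
    have := abs_le.mp hδ'
    rw [abs_le]; constructor <;> linarith
  have hxabs : |x| ≤ Θ + 1 := by rw [abs_of_nonneg hx0]; linarith
  have hΘ1 : (1 : ℝ) ≤ Θ + 1 := by linarith
  have hmM : (Q.natDegree : ℝ) ≤ M := by exact_mod_cast hM
  have hhM : ((h : ℝ)) ^ Q.natDegree ≤ (h : ℝ) ^ M :=
    pow_le_pow_right₀ (by exact_mod_cast hh0) hM
  have hh0R : (1 : ℝ) ≤ (h : ℝ) := by exact_mod_cast hh0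
  have hδ0 : 0 ≤ K * δ := (abs_nonneg _).trans hδ
  have hδn : 0 ≤ δ := by
    by_contra hneg
    push Not at hneg
    have : K * δ < 0 := mul_neg_of_pos_of_neg (by linarith) hneg
    linarith
  refine ⟨U, hUd, ?_, ?_, ?_⟩
  · intro i
    refine (abs_coeff_le_ht U i).trans ?_
    have h1 : (ht U : ℝ) ≤ (2 * Q.natDegree + 1) * (ht Q * ht Q) *
        (max t.num.natAbs t.den : ℕ) ^ Q.natDegree := by
      exact_mod_cast hUh
    refine h1.trans ?_
    have h2 : (((max t.num.natAbs t.den : ℕ) : ℝ)) ^ Q.natDegree ≤ (h : ℝ) ^ M := by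
      refine le_trans ?_ hhM
      apply pow_le_pow_left₀ (by positivity)
      exact_mod_cast max_le hh1 hh2
    have h3 : (ht Q : ℝ) * ht Q ≤ (K * B) * (K * B) :=
      mul_le_mul hQB hQB (by positivity) (by positivity)
    calc (2 * (Q.natDegree : ℝ) + 1) * (ht Q * ht Q) *
        ((max t.num.natAbs t.den : ℕ) : ℝ) ^ Q.natDegree
        ≤ (2 * (M : ℝ) + 1) * ((K * B) * (K * B)) * (h : ℝ) ^ M := by
          apply mul_le_mul _ h2 (by positivity) (by positivity)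
          apply mul_le_mul _ h3 (by positivity) (by positivity)
          linarith
      _ = (2 * M + 1) * K ^ 2 * h ^ M * B ^ 2 := by ring
  · have h1 := hUe x
    rw [hconv, hθval] at h1
    rw [h1]
    have hQx : |aeval x Q| ≤ (M + 1) ^ 2 * (K * B) * (Θ + 1) ^ M * (K * δ) := by
      have h2 := abs_aeval_sub_le Q x β (Θ + 1) hΘ1 hxabs hβabs
      rw [hβ, sub_zero] at h2
      refine h2.trans ?_
      have h3 : (Θ + 1) ^ Q.natDegree ≤ (Θ + 1) ^ M := pow_le_pow_right₀ hΘ1 hM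
      have h4 : ((Q.natDegree : ℝ) + 1) ^ 2 ≤ ((M : ℝ) + 1) ^ 2 :=
        pow_le_pow_left₀ (by positivity) (by linarith) 2
      apply mul_le_mul _ hδ (abs_nonneg _) (by positivity)
      apply mul_le_mul _ h3 (by positivity) (by positivity)
      exact mul_le_mul h4 hQB (by positivity) (by positivity)
    have hQx' : |aeval (-x) Q| ≤ (M + 1) * (K * B) * (Θ + 1) ^ M := by
      have h2 := abs_aeval_le Q (-x) (Θ + 1) hΘ1 (by rwa [abs_neg])
      refine h2.trans ?_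
      have h3 : (Θ + 1) ^ Q.natDegree ≤ (Θ + 1) ^ M := pow_le_pow_right₀ hΘ1 hM
      apply mul_le_mul _ h3 (by positivity) (by positivity)
      exact mul_le_mul (by linarith) hQB (by positivity) (by positivity)
    rw [abs_mul, abs_mul, abs_pow, Nat.abs_cast]
    have hden : (t.den : ℝ) ^ Q.natDegree ≤ (h : ℝ) ^ M := by
      refine le_trans ?_ hhM
      apply pow_le_pow_left₀ (by positivity)
      exact_mod_cast hh2
    calc (t.den : ℝ) ^ Q.natDegree * (|aeval x Q| * |aeval (-x) Q|)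
        ≤ (h : ℝ) ^ M * (((M + 1) ^ 2 * (K * B) * (Θ + 1) ^ M * (K * δ)) *
            ((M + 1) * (K * B) * (Θ + 1) ^ M)) := by
          apply mul_le_mul hden _ (by positivity) (by positivity)
          exact mul_le_mul hQx hQx' (abs_nonneg _) (by positivity)
      _ = h ^ M * (M + 1) ^ 3 * K ^ 3 * (Θ + 1) ^ (2 * M) * (B ^ 2 * δ) := by ring
  · rw [← hconv, hUe, hβ]; ring

lemma minpoly_eq_of_not_coprime (u v : ℝ) (hu : IsIntegral ℚ u) (hv : IsIntegral ℚ v)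
    (a b : ℚ) (ha : a ≠ 0) (hb : b ≠ 0)
    (h : ¬ IsCoprime (C a * minpoly ℚ u) (C b * minpoly ℚ v)) : minpoly ℚ u = minpoly ℚ v := by
  have hua : IsUnit (C a : ℚ[X]) := isUnit_C.mpr (isUnit_iff_ne_zero.mpr ha)
  have hub : IsUnit (C b : ℚ[X]) := isUnit_C.mpr (isUnit_iff_ne_zero.mpr hb)
  rw [isCoprime_mul_unit_left_left hua, isCoprime_mul_unit_left_right hub] at h
  rw [(minpoly.irreducible hu).coprime_iff_not_dvd, not_not] at h
  have hass : Associated (minpoly ℚ u) (minpoly ℚ v) :=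
    (minpoly.irreducible hu).associated_of_dvd (minpoly.irreducible hv) h
  exact eq_of_monic_of_associated (minpoly.monic hu) (minpoly.monic hv) hass

lemma one_step (M N : ℕ) (hN : 1 ≤ N) (T : Finset ℚ) (hT1 : ∀ t ∈ T, 1 < t)
    (hTsq : ∀ t ∈ T, ∀ t' ∈ T, t ≠ t' → ¬ IsSquare (t * t')) (hcard : M * N * M < T.card)
    (Θ : ℝ) (hΘ : 2 ≤ Θ) (K : ℝ) (hK : 1 ≤ K) :
    ∃ K' W0 : ℝ, 1 ≤ K' ∧ 1 ≤ W0 ∧ ∀ (Wm Wp θ : ℝ) (e : ℕ), W0 ≤ Wm → Wp ≤ Wm ^ (2 ^ N) →
      1 ≤ θ → θ ≤ Θ → (∀ t ∈ T, Real.sqrt (t * θ) ≤ Θ) →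
      1 ≤ e → (∀ t ∈ T, Matched M Wm Wp e K (Real.sqrt (t * θ))) →
      Matched M Wm Wp (2 * e) K' θ := by
  classical
  set h : ℕ := T.sup (fun t => max t.num.natAbs t.den) with hh
  have hh1 : ∀ t ∈ T, t.num.natAbs ≤ h ∧ t.den ≤ h := by
    intro t ht
    have := Finset.le_sup (f := fun t : ℚ => max t.num.natAbs t.den) ht
    exact ⟨le_trans (le_max_left _ _) this, le_trans (le_max_right _ _) this⟩
  have hTne : T.Nonempty := by
    rw [← Finset.card_pos]; omega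
  have hhpos : 1 ≤ h := by
    obtain ⟨t, ht⟩ := hTne
    exact le_trans (Nat.one_le_iff_ne_zero.mpr t.den_nz) (hh1 t ht).2
  have hhR : (1 : ℝ) ≤ (h : ℝ) := by exact_mod_cast hhpos
  have hΘ1 : (1 : ℝ) ≤ Θ := by linarith
  set c1 : ℝ := h ^ M * (M + 1) ^ 3 * K ^ 3 * (Θ + 1) ^ (2 * M) with hc1
  set c2 : ℝ := (2 * M + 1) * K ^ 2 * h ^ M with hc2
  set c3 : ℝ := (M + M) * ((Nat.factorial (M + M) : ℝ) * c2 ^ (M + M)) * (Θ ^ M * c1) with hc3
  have hc1pos : 0 ≤ c1 := by positivity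
  have hc2one : 1 ≤ c2 := by
    have h1 : (1 : ℝ) ≤ 2 * M + 1 := by
      have : (0 : ℝ) ≤ (M : ℝ) := by positivity
      linarith
    have h2 : (1 : ℝ) ≤ K ^ 2 := one_le_pow₀ hK
    have h3 : (1 : ℝ) ≤ (h : ℝ) ^ M := one_le_pow₀ hhR
    calc (1 : ℝ) = 1 * 1 * 1 := by ring
      _ ≤ (2 * M + 1) * K ^ 2 * h ^ M := by gcongr
  have hc3pos : 0 ≤ c3 := by positivity
  refine ⟨K * h ^ M * (2 * Θ + 2), max (c3 + 1) (2 * K), ?_, ?_, ?_⟩
  · have h3 : (1 : ℝ) ≤ (h : ℝ) ^ M := one_le_pow₀ hhR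
    calc (1 : ℝ) = 1 * 1 * 1 := by ring
      _ ≤ K * h ^ M * (2 * Θ + 2) := by gcongr; linarith
  · exact le_max_of_le_left (by linarith)
  intro Wm Wp θ e hWm hWp hθ1 hθΘ hsqrt he hall
  have hWm1 : c3 + 1 ≤ Wm := (le_max_left _ _).trans hWm
  have hWm2 : 2 * K ≤ Wm := (le_max_right _ _).trans hWm
  have hWmone : 1 ≤ Wm := by linarith
  -- choose data
  simp only [Matched] at hall
  choose! m hm1 hmM B hB1 hBm hBp Q hQirr hQdeg hQht β hβ hβclose using hall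
  -- class function
  have hcls : ∀ t ∈ T, ∃ l < N, Wm ^ (2 ^ l) ≤ B t ^ (e * m t) ∧
      B t ^ (e * m t) ≤ (Wm ^ (2 ^ l)) ^ 2 := by
    intro t ht
    exact exists_class _ _ (hBm t ht) N hN ((hBp t ht).trans hWp)
  choose! l hlN hl1 hl2 using hcls
  have hmaps : ∀ t ∈ T, (m t, l t) ∈ (Finset.Icc 1 M) ×ˢ (Finset.range N) := by
    intro t ht
    rw [Finset.mem_product, Finset.mem_Icc, Finset.mem_range]
    refine ⟨⟨hm1 t ht, ?_⟩, hlN t ht⟩
    exact le_trans (Nat.le_mul_of_pos_left _ he) (hmM t ht)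
  have hcard2 : ((Finset.Icc 1 M) ×ˢ (Finset.range N)).card * M < T.card := by
    rw [Finset.card_product, Nat.card_Icc, Finset.card_range]
    simpa using hcard
  obtain ⟨⟨m₀, l₀⟩, -, hfib⟩ :=
    Finset.exists_lt_card_fiber_of_mul_lt_card_of_maps_to hmaps hcard2
  set T' := T.filter (fun t => (m t, l t) = (m₀, l₀)) with hT'
  have hT'T : ∀ t ∈ T', t ∈ T := fun t ht => (Finset.mem_filter.mp ht).1
  have hT'm : ∀ t ∈ T', m t = m₀ := fun t ht => (Prod.ext_iff.mp (Finset.mem_filter.mp ht).2).1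
  have hT'l : ∀ t ∈ T', l t = l₀ := fun t ht => (Prod.ext_iff.mp (Finset.mem_filter.mp ht).2).2
  set W : ℝ := Wm ^ (2 ^ l₀) with hW
  have hWWm : Wm ≤ W := by
    calc Wm = Wm ^ 1 := (pow_one _).symm
      _ ≤ Wm ^ (2 ^ l₀) := pow_le_pow_right₀ hWmone Nat.one_le_two_pow
  have hWone : 1 ≤ W := hWmone.trans hWWm
  have hWpos : 0 < W := by linarith
  have hy1 : ∀ t ∈ T', W ≤ B t ^ (e * m t) := by
    intro t ht
    have := hl1 t (hT'T t ht)
    rwa [hT'l t ht] at this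
  have hy2 : ∀ t ∈ T', B t ^ (e * m t) ≤ W ^ 2 := by
    intro t ht
    have := hl2 t (hT'T t ht)
    rwa [hT'l t ht] at this
  have hδle : ∀ t ∈ T', ((B t ^ (e * m t)) ^ 1800)⁻¹ ≤ (W ^ 1800)⁻¹ := by
    intro t ht
    apply inv_anti₀ (by positivity)
    exact pow_le_pow_left₀ hWpos.le (hy1 t ht) _
  have hW1800 : K * (W ^ 1800)⁻¹ ≤ 1 / 2 := by
    have h1 : W ≤ W ^ 1800 := by
      calc W = W ^ 1 := (pow_one _).symm
        _ ≤ W ^ 1800 := pow_le_pow_right₀ hWone (by norm_num)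
    have h2 : (W ^ 1800)⁻¹ ≤ W⁻¹ := inv_anti₀ hWpos h1
    have h3 : W⁻¹ ≤ (2 * K)⁻¹ := inv_anti₀ (by linarith) (hWm2.trans hWWm)
    calc K * (W ^ 1800)⁻¹ ≤ K * (2 * K)⁻¹ := by
          apply mul_le_mul_of_nonneg_left (h2.trans h3); linarith
      _ = 1 / 2 := by field_simp
  have hclose : ∀ t ∈ T', |Real.sqrt (t * θ) - β t| ≤ 1 / 2 := by
    intro t ht
    refine (hβclose t (hT'T t ht)).trans (le_trans ?_ hW1800)
    exact mul_le_mul_of_nonneg_left (hδle t ht) (by linarith)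
  have htpos : ∀ t ∈ T', (0 : ℚ) < t := fun t ht => by linarith [hT1 t (hT'T t ht)]
  have htR1 : ∀ t ∈ T', (1 : ℝ) < (t : ℝ) := fun t ht => by exact_mod_cast hT1 t (hT'T t ht)
  have hx1 : ∀ t ∈ T', 1 ≤ Real.sqrt (t * θ) := by
    intro t ht
    rw [Real.one_le_sqrt]
    have := htR1 t ht
    nlinarith
  have hβpos : ∀ t ∈ T', 0 < β t := by
    intro t ht
    have h1 := abs_le.mp (hclose t ht)
    have h2 := hx1 t ht
    linarith
  -- there is an even one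
  have heven : ∃ t ∈ T', (Q t).comp (-X) = Q t := by
    by_contra hno
    push Not at hno
    -- the auxiliary polynomials
    have hU : ∀ t ∈ T', ∃ U : ℤ[X], U.natDegree = m₀ ∧
        (∀ i, |(U.coeff i : ℝ)| ≤ c2 * B t ^ 2) ∧
        |aeval θ U| ≤ c1 * (W ^ 4 * (W ^ 1800)⁻¹) ∧ aeval ((β t) ^ 2 / (t : ℝ)) U = 0 := by
      intro t ht
      have htT := hT'T t ht
      have hdeg : (Q t).natDegree = m₀ := by rw [hQdeg t htT, hT'm t ht]
      have hmle : m₀ ≤ M := by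
        rw [← hT'm t ht]
        exact le_trans (Nat.le_mul_of_pos_left _ he) (hmM t htT)
      obtain ⟨U, h1, h2, h3, h4⟩ := U_data M t (hT1 t htT) (Q t) (hQirr t htT) (β t) (hβ t htT)
        (by rw [hdeg]; exact hmle) θ Θ hΘ hθ1 (hsqrt t htT) h (hh1 t htT).1 (hh1 t htT).2
        K (B t) (((B t ^ (e * m t)) ^ 1800)⁻¹) hK (hB1 t htT) (hQht t htT) (hβclose t htT)
        (le_trans (mul_le_mul_of_nonneg_left (hδle t ht) (by linarith)) hW1800)
      refine ⟨U, by rw [h1, hdeg], h2, h3.trans ?_, h4⟩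
      rw [hc1]
      apply mul_le_mul_of_nonneg_left _ hc1pos
      apply mul_le_mul _ (hδle t ht) (by positivity) (by positivity)
      have hB0 : 1 ≤ B t := hB1 t htT
      have hBy : B t ≤ B t ^ (e * m t) := by
        calc B t = B t ^ 1 := (pow_one _).symm
          _ ≤ B t ^ (e * m t) := pow_le_pow_right₀ hB0 (Nat.mul_pos he (hm1 t htT))
      have hBW : B t ≤ W ^ 2 := hBy.trans (hy2 t ht)
      calc B t ^ 2 ≤ (W ^ 2) ^ 2 := pow_le_pow_left₀ (by linarith) hBW 2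
        _ = W ^ 4 := by ring
    choose! U hUdeg hUcoeff hUθ hUroot using hU
    have hminp : ∀ t ∈ T', (minpoly ℚ ((β t) ^ 2 / (t : ℝ))).natDegree = m₀ ∧
        ∃ g : ℚ[X], minpoly ℚ ((β t) ^ 2 / (t : ℝ)) ∣ g ^ 2 - C t * X := by
      intro t ht
      have htT := hT'T t ht
      have h1 := noneven_data (Q t) (hQirr t htT) (hno t ht) (β t) (hβ t htT) t (htpos t ht).ne'
      rwa [hQdeg t htT, hT'm t ht] at h1
    have hm₀ : ∀ t ∈ T', 1 ≤ m₀ ∧ m₀ ≤ M := by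
      intro t ht
      have htT := hT'T t ht
      rw [← hT'm t ht]
      exact ⟨hm1 t htT, le_trans (Nat.le_mul_of_pos_left _ he) (hmM t htT)⟩
    have hU0 : ∀ t ∈ T', U t ≠ 0 := by
      intro t ht h0
      have := hUdeg t ht
      rw [h0] at this
      simp at this
      have := (hm₀ t ht).1
      omega
    have hint : ∀ t ∈ T', IsIntegral ℚ ((β t) ^ 2 / (t : ℝ)) := by
      intro t ht
      refine isAlgebraic_iff_isIntegral.mp ⟨(U t).map (Int.castRingHom ℚ), ?_, ?_⟩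
      · rw [Ne, Polynomial.map_eq_zero_iff Int.cast_injective]; exact hU0 t ht
      · rw [aeval_map_int, hUroot t ht]
    have hUmap : ∀ t ∈ T', (U t).map (Int.castRingHom ℚ) =
        C ((U t).leadingCoeff : ℚ) * minpoly ℚ ((β t) ^ 2 / (t : ℝ)) := by
      intro t ht
      apply map_eq_of_natDegree (U t) (hU0 t ht) _ (hUroot t ht)
      rw [hUdeg t ht, (hminp t ht).1]
    have hpair : ∀ t ∈ T', ∀ t' ∈ T',
        minpoly ℚ ((β t) ^ 2 / (t : ℝ)) = minpoly ℚ ((β t') ^ 2 / (t' : ℝ)) := by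
      intro t ht t' ht'
      have htT := hT'T t ht
      have htT' := hT'T t' ht'
      obtain ⟨hm₀1, hm₀M⟩ := hm₀ t ht
      apply minpoly_eq_of_not_coprime _ _ (hint t ht) (hint t' ht') ((U t).leadingCoeff : ℚ)
        ((U t').leadingCoeff : ℚ)
      · have : (U t).leadingCoeff ≠ 0 := leadingCoeff_ne_zero.mpr (hU0 t ht)
        exact_mod_cast this
      · have : (U t').leadingCoeff ≠ 0 := leadingCoeff_ne_zero.mpr (hU0 t' ht')
        exact_mod_cast this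
      rw [← hUmap t ht, ← hUmap t' ht']
      set Bx : ℝ := max (B t) (B t') with hBx
      have hBx1 : 1 ≤ Bx := le_max_of_le_left (hB1 t htT)
      have hBpow : ∀ s ∈ T', B s ^ m₀ ≤ W ^ 2 := by
        intro s hs
        refine le_trans ?_ (hy2 s hs)
        apply pow_le_pow_right₀ (hB1 s (hT'T s hs))
        rw [hT'm s hs]
        exact Nat.le_mul_of_pos_left _ he
      have hBxpow : Bx ^ m₀ ≤ W ^ 2 := by
        rcases max_choice (B t) (B t') with h5 | h5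
        · rw [hBx, h5]; exact hBpow t ht
        · rw [hBx, h5]; exact hBpow t' ht'
      have hA1 : 1 ≤ c2 * Bx ^ 2 := by
        have : 1 ≤ Bx ^ 2 := one_le_pow₀ hBx1
        calc (1 : ℝ) = 1 * 1 := by ring
          _ ≤ c2 * Bx ^ 2 := by gcongr
      have hB0 : ∀ s ∈ T', 0 ≤ B s := fun s hs => by linarith [hB1 s (hT'T s hs)]
      apply not_coprime_of_small (U t) (U t') m₀ hm₀1 (hUdeg t ht) (hUdeg t' ht') (c2 * Bx ^ 2)
        hA1 _ _ θ Θ (c1 * (W ^ 4 * (W ^ 1800)⁻¹)) hΘ1 _ (hUθ t ht) (hUθ t' ht')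
      · -- smallness
        have hfac : ((Nat.factorial (m₀ + m₀) : ℕ) : ℝ) ≤ (Nat.factorial (M + M) : ℕ) := by
          exact_mod_cast Nat.factorial_le (by omega)
        have hmm : (m₀ : ℝ) + m₀ ≤ M + M := by
          have : (m₀ : ℝ) ≤ M := by exact_mod_cast hm₀M
          linarith
        have hApow : (c2 * Bx ^ 2) ^ (m₀ + m₀) ≤ c2 ^ (M + M) * W ^ 8 := by
          rw [mul_pow]
          apply mul_le_mul
          · exact pow_le_pow_right₀ hc2one (by omega)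
          · calc (Bx ^ 2) ^ (m₀ + m₀) = (Bx ^ m₀) ^ 4 := by
                  rw [← pow_mul, ← pow_mul]; congr 1; ring
              _ ≤ (W ^ 2) ^ 4 := pow_le_pow_left₀ (by positivity) hBxpow 4
              _ = W ^ 8 := by ring
          · positivity
          · positivity
        have hΘpow : Θ ^ m₀ ≤ Θ ^ M := pow_le_pow_right₀ hΘ1 hm₀M
        calc (m₀ + m₀ : ℝ) * ((Nat.factorial (m₀ + m₀) : ℝ) * (c2 * Bx ^ 2) ^ (m₀ + m₀)) *
              (Θ ^ m₀ * (c1 * (W ^ 4 * (W ^ 1800)⁻¹)))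
            ≤ (M + M) * ((Nat.factorial (M + M) : ℝ) * (c2 ^ (M + M) * W ^ 8)) *
              (Θ ^ M * (c1 * (W ^ 4 * (W ^ 1800)⁻¹))) := by
              gcongr
          _ = c3 * (W ^ 12 * (W ^ 1800)⁻¹) := by rw [hc3]; ring
          _ < 1 := by
              have h6 : c3 < W := by linarith
              have h7 : c3 * W ^ 12 < W ^ 1800 := by
                calc c3 * W ^ 12 < W * W ^ 12 := by
                      apply mul_lt_mul_of_pos_right h6 (by positivity)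
                  _ = W ^ 13 := by ring
                  _ ≤ W ^ 1800 := pow_le_pow_right₀ hWone (by norm_num)
              rw [← mul_assoc, ← div_eq_mul_inv, div_lt_one (by positivity)]
              exact h7
      · intro i
        refine (hUcoeff t ht i).trans ?_
        have h9 : B t ^ 2 ≤ Bx ^ 2 := pow_le_pow_left₀ (hB0 t ht) (le_max_left _ _) 2
        exact mul_le_mul_of_nonneg_left h9 (by linarith)
      · intro i
        refine (hUcoeff t' ht' i).trans ?_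
        have h9 : B t' ^ 2 ≤ Bx ^ 2 := pow_le_pow_left₀ (hB0 t' ht') (le_max_right _ _) 2
        exact mul_le_mul_of_nonneg_left h9 (by linarith)
      · rw [abs_of_nonneg (by linarith)]; exact hθΘ
    -- contradiction with the algebraic lemma
    have hne : T'.Nonempty := by
      rw [← Finset.card_pos]; omega
    obtain ⟨t₀, ht₀⟩ := hne
    have hG0 : (minpoly ℚ ((β t₀) ^ 2 / (t₀ : ℝ))).coeff 0 ≠ 0 := by
      apply minpoly.coeff_zero_ne_zero (hint t₀ ht₀)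
      have h1 := hβpos t₀ ht₀
      have h2 := htR1 t₀ ht₀
      positivity
    have hfin := card_le_of_squares (minpoly ℚ ((β t₀) ^ 2 / (t₀ : ℝ)))
      (minpoly.irreducible (hint t₀ ht₀)) hG0 T' (fun t ht => (htpos t ht).ne')
      (fun t ht t' ht' => hTsq t (hT'T t ht) t' (hT'T t' ht')) (by
        intro t ht
        obtain ⟨g, hg⟩ := (hminp t ht).2
        rw [hpair t ht t₀ ht₀] at hg
        exact ⟨g, hg⟩)
    rw [(hminp t₀ ht₀).1] at hfin
    have := (hm₀ t₀ ht₀).2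
    omega
  -- descend
  obtain ⟨t, htt, hev⟩ := heven
  have htT := hT'T t htt
  have hA : t.num.natAbs ≠ 0 := by
    have : 0 < t.num := Rat.num_pos.mpr (htpos t htt)
    omega
  obtain ⟨G, hG1, hG2, hG3, hG4⟩ := exists_half (Q t) (hQirr t htT) hev (β t) (hβ t htT)
    t.num.natAbs t.den hA t.den_nz
  have hdegQ := hQdeg t htT
  have hm1' := hm1 t htT
  have hmM' := hmM t htT
  have hem : 2 * e * G.natDegree = e * m t := by
    rw [← hdegQ, ← hG2]; ring
  have hnum : ((t.num.natAbs : ℕ) : ℝ) = (t.num : ℝ) := by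
    have : (0 : ℤ) ≤ t.num := (Rat.num_pos.mpr (htpos t htt)).le
    rw [Nat.cast_natAbs, abs_of_nonneg this]
  have htR : (t : ℝ) = (t.num : ℝ) / (t.den : ℝ) := by
    exact_mod_cast (Rat.num_div_den t).symm
  have hnumR : (t.num : ℝ) ≠ 0 := by
    rw [← hnum]; exact_mod_cast hA
  have hdenR : (t.den : ℝ) ≠ 0 := by exact_mod_cast t.den_nz
  have hmMle : m t ≤ M := le_trans (Nat.le_mul_of_pos_left _ he) hmM'
  refine ⟨G.natDegree, by omega, by rw [hem]; exact hmM', B t, hB1 t htT, by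
    rw [hem]; exact hBm t htT, by rw [hem]; exact hBp t htT, G, hG1, rfl, ?_,
    (t.den : ℝ) * ((β t) ^ 2 / (t.num.natAbs : ℝ)), hG4, ?_⟩
  · have h1 : (ht G : ℝ) ≤ (ht (Q t) : ℝ) * ((max t.num.natAbs t.den : ℕ) : ℝ) ^ (Q t).natDegree := by
      exact_mod_cast hG3
    refine h1.trans ?_
    have h2 : (((max t.num.natAbs t.den : ℕ) : ℝ)) ^ (Q t).natDegree ≤ (h : ℝ) ^ M := by
      rw [hdegQ]
      calc (((max t.num.natAbs t.den : ℕ) : ℝ)) ^ (m t) ≤ (h : ℝ) ^ (m t) := by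
            apply pow_le_pow_left₀ (by positivity)
            exact_mod_cast max_le (hh1 t htT).1 (hh1 t htT).2
        _ ≤ (h : ℝ) ^ M := pow_le_pow_right₀ hhR hmMle
    have hB0 := hB1 t htT
    calc (ht (Q t) : ℝ) * ((max t.num.natAbs t.den : ℕ) : ℝ) ^ (Q t).natDegree
        ≤ (K * B t) * (h : ℝ) ^ M := mul_le_mul (hQht t htT) h2 (by positivity) (by positivity)
      _ = K * h ^ M * 1 * B t := by ring
      _ ≤ K * h ^ M * (2 * Θ + 2) * B t := by
          gcongr; linarith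
  · rw [hem]
    set x := Real.sqrt (t * θ) with hxdef
    have htθ : (0 : ℝ) ≤ t * θ := by
      have := htR1 t htt
      positivity
    have hx2 : x ^ 2 = t * θ := Real.sq_sqrt htθ
    have hx0 : 0 ≤ x := Real.sqrt_nonneg _
    have hxΘ : x ≤ Θ := hsqrt t htT
    have hcl := abs_le.mp (hclose t htt)
    have hβp := hβpos t htt
    have hval : θ - (t.den : ℝ) * ((β t) ^ 2 / (t.num.natAbs : ℝ)) =
        (x - β t) * (x + β t) / (t : ℝ) := by
      have h1 : θ = x ^ 2 / (t : ℝ) := by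
        rw [hx2]
        have : (t : ℝ) ≠ 0 := by have := htR1 t htt; positivity
        field_simp
      rw [hnum]
      nth_rewrite 1 [h1]
      rw [htR]; field_simp; ring
    rw [hval, abs_div, abs_mul]
    have ht1 := htR1 t htt
    rw [abs_of_pos (show (0 : ℝ) < (t : ℝ) by linarith)]
    have h5 : |x + β t| ≤ 2 * Θ + 2 := by
      rw [abs_of_nonneg (by linarith)]; linarith
    have h6 := hβclose t htT
    have hδ0 : 0 ≤ ((B t ^ (e * m t)) ^ 1800)⁻¹ := by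
      have := hB1 t htT
      positivity
    have h3 : (1 : ℝ) ≤ (h : ℝ) ^ M := one_le_pow₀ hhR
    calc |x - β t| * |x + β t| / (t : ℝ) ≤ |x - β t| * |x + β t| := by
          apply div_le_self (by positivity) ht1.le
      _ ≤ (K * ((B t ^ (e * m t)) ^ 1800)⁻¹) * (2 * Θ + 2) :=
          mul_le_mul h6 h5 (abs_nonneg _) (by positivity)
      _ = K * 1 * (2 * Θ + 2) * ((B t ^ (e * m t)) ^ 1800)⁻¹ := by ring
      _ ≤ K * h ^ M * (2 * Θ + 2) * ((B t ^ (e * m t)) ^ 1800)⁻¹ := by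
          gcongr

end Pool.Agent.H93.SStar
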