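import Mathlib
import Pool.Agent.H93.SStar.OneStep

open Polynomial

namespace Pool.Agent.H93.SStar

/-- iterated twisted square roots -/
noncomputable def leaf : List ℚ → ℝ → ℝ
  | [], θ => θ
  | t :: ts, θ => leaf ts (Real.sqrt (t * θ))

lemma descent (M N : ℕ) (hN : 1 ≤ N) (T : Finset ℚ) (hT1 : ∀ t ∈ T, 1 < t)
    (hT2 : ∀ t ∈ T, t ≤ 2)
    (hTsq : ∀ t ∈ T, ∀ t' ∈ T, t ≠ t' → ¬ IsSquare (t * t')) (hcard : M * N * M < T.card)
    (Θ : ℝ) (hΘ : 2 ≤ Θ) (L : ℕ) :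
    ∃ K W0 : ℝ, 1 ≤ K ∧ 1 ≤ W0 ∧ ∀ (Wm Wp θ : ℝ), W0 ≤ Wm → Wp ≤ Wm ^ (2 ^ N) →
      1 ≤ θ → θ ≤ Θ →
      (∀ ts : List ℚ, ts.length = L → (∀ t ∈ ts, t ∈ T) → Matched M Wm Wp 1 1 (leaf ts θ)) →
      Matched M Wm Wp (2 ^ L) K θ := by
  induction L with
  | zero =>
    refine ⟨1, 1, le_rfl, le_rfl, ?_⟩
    intro Wm Wp θ _ _ _ _ h
    have := h [] rfl (by simp)
    simpa [leaf] using this
  | succ L ih =>
    obtain ⟨K, W0, hK, hW0, hIH⟩ := ih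
    obtain ⟨K', W0', hK', hW0', hstep⟩ := one_step M N hN T hT1 hTsq hcard Θ hΘ K hK
    refine ⟨K', max W0 W0', hK', le_max_of_le_left hW0, ?_⟩
    intro Wm Wp θ hWm hWp hθ1 hθΘ h
    have hs : ∀ t ∈ T, 1 ≤ Real.sqrt (t * θ) ∧ Real.sqrt (t * θ) ≤ Θ := by
      intro t ht
      have h1 : (1 : ℝ) < (t : ℝ) := by exact_mod_cast hT1 t ht
      have h2 : (t : ℝ) ≤ 2 := by exact_mod_cast hT2 t ht
      constructor
      · rw [Real.one_le_sqrt]; nlinarith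
      · rw [Real.sqrt_le_left (by linarith)]
        nlinarith
    rw [pow_succ, mul_comm]
    apply hstep Wm Wp θ (2 ^ L) ((le_max_right _ _).trans hWm) hWp hθ1 hθΘ
      (fun t ht => (hs t ht).2) Nat.one_le_two_pow
    intro t ht
    apply hIH Wm Wp _ ((le_max_left _ _).trans hWm) hWp (hs t ht).1 (hs t ht).2
    intro ts hlen hmem
    have := h (t :: ts) (by simp [hlen]) (by
      intro s hs'
      rcases List.mem_cons.mp hs' with rfl | h3
      · exact ht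
      · exact hmem s h3)
    simpa [leaf] using this

end Pool.Agent.H93.SStar
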