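import Mathlib

namespace Pool.Agent.H93.SStar

lemma padicValRat_nat_eq_zero {p n : ℕ} (h : ¬ p ∣ n) : padicValRat p (n : ℚ) = 0 := by
  rw [padicValRat.of_nat, padicValNat.eq_zero_of_not_dvd h]; simp

lemma twist_exists (ε : ℝ) (hε : 0 < ε) (R : ℕ) :
    ∃ T : Finset ℚ, T.card = R ∧ (∀ t ∈ T, 1 < t) ∧ (∀ t ∈ T, (t : ℝ) < 1 + ε) ∧
      (∀ t ∈ T, padicValRat 3 t = 0) ∧
      (∀ t ∈ T, ∀ t' ∈ T, t ≠ t' → ¬ IsSquare (t * t')) := by
  classical
  induction R with
  | zero => exact ⟨∅, by simp, by simp, by simp, by simp, by simp⟩
  | succ R ih =>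
    obtain ⟨T, hcard, h1, h2, h3, h4⟩ := ih
    set b : ℕ := T.sup (fun t => max t.num.natAbs t.den) with hb
    obtain ⟨p, hpb, hp⟩ := Nat.exists_infinite_primes (b + 4 + ⌈3 / ε⌉₊)
    have hfact : Fact p.Prime := ⟨hp⟩
    have hp3 : 3 < p := by omega
    have hp0 : (0 : ℚ) < p := by exact_mod_cast hp.pos
    have hndvd : ¬ p ∣ p + 3 := by
      intro h
      have : p ∣ 3 := (Nat.dvd_add_right (dvd_refl p)).mp h
      have := Nat.le_of_dvd (by norm_num) this
      omega
    set t : ℚ := ((p + 3 : ℕ) : ℚ) / (p : ℚ) with ht
    have htval : padicValRat p t = -1 := by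
      rw [ht, padicValRat.div (by positivity) (by positivity), padicValRat_nat_eq_zero hndvd,
        padicValRat.of_nat, padicValNat_self]
      simp
    have hTval : ∀ s ∈ T, padicValRat p s = 0 := by
      intro s hs
      have hle := Finset.le_sup (f := fun t : ℚ => max t.num.natAbs t.den) hs
      have hs1 : s.num.natAbs < p := by
        have := le_trans (le_max_left s.num.natAbs s.den) hle
        omega
      have hs2 : s.den < p := by
        have := le_trans (le_max_right s.num.natAbs s.den) hle
        omega
      have hs0 : 0 < s := by linarith [h1 s hs]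
      have hsn : 0 < s.num := Rat.num_pos.mpr hs0
      have e1 : padicValInt p s.num = 0 := by
        rw [padicValInt]
        apply padicValNat.eq_zero_of_not_dvd
        intro h
        have := Nat.le_of_dvd (by omega) h
        omega
      have e2 : padicValNat p s.den = 0 := by
        apply padicValNat.eq_zero_of_not_dvd
        intro h
        have := Nat.le_of_dvd s.den_pos h
        omega
      rw [padicValRat, e1, e2]; simp
    have htT : t ∉ T := by
      intro h
      rw [hTval t h] at htval
      norm_num at htval
    have ht1 : 1 < t := by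
      rw [ht, lt_div_iff₀ hp0]; push_cast; linarith
    have hnsq : ∀ s ∈ T, ¬ IsSquare (t * s) := by
      intro s hs
      rintro ⟨r, hr⟩
      have hs0 : s ≠ 0 := by linarith [h1 s hs]
      have ht0 : t ≠ 0 := by linarith
      have hr0 : r ≠ 0 := by
        rintro rfl
        simp at hr
        rcases hr with h | h
        · exact ht0 h
        · exact hs0 h
      have h5 : padicValRat p (t * s) = -1 := by
        rw [padicValRat.mul ht0 hs0, htval, hTval s hs]; norm_num
      rw [hr, padicValRat.mul hr0 hr0] at h5
      omega
    refine ⟨insert t T, by rw [Finset.card_insert_of_notMem htT, hcard], ?_, ?_, ?_, ?_⟩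
    · intro s hs
      rcases Finset.mem_insert.mp hs with rfl | hs
      · exact ht1
      · exact h1 s hs
    · intro s hs
      rcases Finset.mem_insert.mp hs with rfl | hs
      · have hpR : (0 : ℝ) < p := by exact_mod_cast hp.pos
        have h6 : (t : ℝ) = 1 + 3 / p := by
          rw [ht]; push_cast; field_simp
        rw [h6]
        have h7 : 3 / ε < p := by
          have := Nat.le_ceil (3 / ε)
          have h8 : ((b + 4 + ⌈3 / ε⌉₊ : ℕ) : ℝ) ≤ p := by exact_mod_cast hpb
          push_cast at h8
          have h9 : (0 : ℝ) ≤ b := by positivity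
          linarith
        have : 3 / (p : ℝ) < ε := by
          rw [div_lt_iff₀ hpR]
          rw [div_lt_iff₀ hε] at h7
          linarith
        linarith
      · exact h2 s hs
    · intro s hs
      rcases Finset.mem_insert.mp hs with rfl | hs
      · have hfact3 : Fact (Nat.Prime 3) := ⟨Nat.prime_three⟩
        have h3p : ¬ 3 ∣ p := by
          intro h
          have := (Nat.prime_dvd_prime_iff_eq Nat.prime_three hp).mp h
          omega
        have h3p3 : ¬ 3 ∣ p + 3 := by
          intro h
          exact h3p ((Nat.dvd_add_left (dvd_refl 3)).mp h)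
        rw [ht, padicValRat.div (by positivity) (by positivity), padicValRat_nat_eq_zero h3p3,
          padicValRat_nat_eq_zero h3p]
        norm_num
      · exact h3 s hs
    · intro s hs s' hs' hne
      rcases Finset.mem_insert.mp hs with rfl | hs
      · rcases Finset.mem_insert.mp hs' with rfl | hs'
        · exact absurd rfl hne
        · exact hnsq s' hs'
      · rcases Finset.mem_insert.mp hs' with rfl | hs'
        · rw [mul_comm]; exact hnsq s hs
        · exact h4 s hs s' hs' hne

end Pool.Agent.H93.SStar
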