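import Mathlib
import Pool.Agent.H93.SStar.Descent
import Pool.Agent.H93.SStar.Twist
import Pool.Agent.H93.SStar.Count

open Polynomial

namespace Pool.Agent.H93.SStar

/-- the rational factor produced by iterated twisting -/
def prodT : List ℚ → ℚ
  | [] => 1
  | t :: ts => prodT ts ^ 2 * t

lemma leaf_nonneg (ts : List ℚ) (θ : ℝ) (hθ : 0 ≤ θ) : 0 ≤ leaf ts θ := by
  induction ts generalizing θ with
  | nil => simpa [leaf] using hθ
  | cons t ts ih => exact ih _ (Real.sqrt_nonneg _)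

lemma leaf_pow (ts : List ℚ) (θ : ℝ) (hθ : 0 ≤ θ) (hts : ∀ t ∈ ts, (0 : ℚ) ≤ t) :
    leaf ts θ ^ (2 ^ ts.length) = (prodT ts : ℝ) * θ := by
  induction ts generalizing θ with
  | nil => simp [leaf, prodT]
  | cons t ts ih =>
    have ht : (0 : ℚ) ≤ t := hts t (by simp)
    have htR : (0 : ℝ) ≤ (t : ℝ) := by exact_mod_cast ht
    have h1 := ih (Real.sqrt (t * θ)) (Real.sqrt_nonneg _) (fun s hs => hts s (by simp [hs]))
    simp only [leaf, prodT, List.length_cons]
    rw [pow_succ, pow_mul, h1, mul_pow, Real.sq_sqrt (by positivity)]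
    push_cast; ring

lemma one_le_prodT (ts : List ℚ) (hts : ∀ t ∈ ts, (1 : ℚ) < t) : 1 ≤ prodT ts := by
  induction ts with
  | nil => simp [prodT]
  | cons t ts ih =>
    have ht := hts t (by simp)
    have h1 := ih (fun s hs => hts s (by simp [hs]))
    simp only [prodT]
    nlinarith [one_le_pow₀ h1 (n := 2)]

lemma prodT_le (ts : List ℚ) (ε : ℝ) (hε : 0 < ε) (hts : ∀ t ∈ ts, (1 : ℚ) < t)
    (hts2 : ∀ t ∈ ts, (t : ℝ) < 1 + ε) :
    (prodT ts : ℝ) * (1 + ε) ≤ (1 + ε) ^ (2 ^ ts.length) := by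
  induction ts with
  | nil => simp [prodT]
  | cons t ts ih =>
    have ht := hts2 t (by simp)
    have ht1 : (1 : ℝ) < t := by exact_mod_cast hts t (by simp)
    have h1 := ih (fun s hs => hts s (by simp [hs])) (fun s hs => hts2 s (by simp [hs]))
    have h0 : (1 : ℝ) ≤ prodT ts := by exact_mod_cast one_le_prodT ts (fun s hs => hts s (by simp [hs]))
    simp only [prodT, List.length_cons]
    rw [pow_succ 2 ts.length, pow_mul]
    push_cast
    calc (prodT ts : ℝ) ^ 2 * t * (1 + ε) ≤ (prodT ts : ℝ) ^ 2 * (1 + ε) * (1 + ε) := by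
          gcongr
      _ = ((prodT ts : ℝ) * (1 + ε)) ^ 2 := by ring
      _ ≤ ((1 + ε) ^ (2 ^ ts.length)) ^ 2 := pow_le_pow_left₀ (by positivity) h1 2

lemma prodT_val (ts : List ℚ) (hts : ∀ t ∈ ts, (1 : ℚ) < t)
    (hts3 : ∀ t ∈ ts, padicValRat 3 t = 0) : padicValRat 3 (prodT ts) = 0 := by
  have hfact3 : Fact (Nat.Prime 3) := ⟨Nat.prime_three⟩
  induction ts with
  | nil => simp [prodT]
  | cons t ts ih =>
    have ht := hts t (by simp)
    have h1 := ih (fun s hs => hts s (by simp [hs])) (fun s hs => hts3 s (by simp [hs]))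
    have h0 := one_le_prodT ts (fun s hs => hts s (by simp [hs]))
    simp only [prodT]
    have hp : prodT ts ≠ 0 := by linarith
    rw [padicValRat.mul (pow_ne_zero 2 hp) (by linarith), pow_two, padicValRat.mul hp hp, h1,
      hts3 t (by simp)]
    simp

/-- location of the leaves -/
lemma leaf_mem (L : ℕ) (ts : List ℚ) (hlen : ts.length = L) (hts : ∀ t ∈ ts, (1 : ℚ) < t)
    (u v : ℝ) (hu : 1 < u) (huv : u < v) (hv : v < 2)
    (hts2 : ∀ t ∈ ts, (t : ℝ) < 1 + (v - u) / 4) (r : ℝ) (hr1 : u ^ (2 ^ L) < r)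
    (hr2 : r < ((u + v) / 2) ^ (2 ^ L)) : u < leaf ts r ∧ leaf ts r < v := by
  have hε : 0 < (v - u) / 4 := by linarith
  have hr0 : 0 ≤ r := le_trans (by positivity) hr1.le
  have hpow := leaf_pow ts r hr0 (fun t ht => by linarith [hts t ht])
  rw [hlen] at hpow
  have hnn := leaf_nonneg ts r hr0
  have h0 : (1 : ℝ) ≤ prodT ts := by exact_mod_cast one_le_prodT ts hts
  have h1 := prodT_le ts _ hε hts hts2
  rw [hlen] at h1
  have hn : 2 ^ L ≠ 0 := by positivity
  constructor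
  · apply lt_of_pow_lt_pow_left₀ (2 ^ L) hnn
    rw [hpow]
    nlinarith
  · apply lt_of_pow_lt_pow_left₀ (2 ^ L) (by linarith)
    rw [hpow]
    have h2 : (prodT ts : ℝ) ≤ (1 + (v - u) / 4) ^ (2 ^ L) := by
      nlinarith
    calc (prodT ts : ℝ) * r ≤ (1 + (v - u) / 4) ^ (2 ^ L) * r := by gcongr
      _ < (1 + (v - u) / 4) ^ (2 ^ L) * ((u + v) / 2) ^ (2 ^ L) := by
          gcongr
      _ = ((1 + (v - u) / 4) * ((u + v) / 2)) ^ (2 ^ L) := by rw [mul_pow]
      _ ≤ v ^ (2 ^ L) := by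
          apply pow_le_pow_left₀
          · apply mul_nonneg <;> linarith
          · nlinarith

/-- the finite set of twisting lists -/
noncomputable def listsOf (T : Finset ℚ) (L : ℕ) : Finset (List ℚ) := by
  classical
  exact (Fintype.piFinset (fun _ : Fin L => T)).image (fun f => List.ofFn f)

lemma mem_listsOf (T : Finset ℚ) (L : ℕ) (ts : List ℚ) :
    ts ∈ listsOf T L ↔ ts.length = L ∧ ∀ t ∈ ts, t ∈ T := by
  classical
  unfold listsOf
  rw [Finset.mem_image]
  constructor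
  · rintro ⟨f, hf, rfl⟩
    rw [Fintype.mem_piFinset] at hf
    refine ⟨by simp, ?_⟩
    intro t ht
    rw [List.mem_ofFn] at ht
    obtain ⟨i, rfl⟩ := ht
    exact hf i
  · rintro ⟨rfl, h⟩
    refine ⟨fun i => ts.get i, ?_, by simp⟩
    rw [Fintype.mem_piFinset]
    intro i
    exact h _ (List.get_mem _ _)

lemma card_listsOf (T : Finset ℚ) (L : ℕ) : (listsOf T L).card ≤ T.card ^ L := by
  classical
  unfold listsOf
  refine Finset.card_image_le.trans ?_
  rw [Fintype.card_piFinset_const]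

end Pool.Agent.H93.SStar
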