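import Mathlib
import Pool.Agent.H93.SStar.Leaf

open Polynomial

namespace Pool.Agent.H93.SStar

/-- coefficient vector -/
def cf (k : ℕ) (Q : ℤ[X]) : Fin k → ℤ := fun i => Q.coeff i

lemma natDegree_polyOf_lt {k : ℕ} (q : Fin (k + 1) → ℤ) : (polyOf q).natDegree ≤ k := by
  unfold polyOf
  apply natDegree_sum_le_of_forall_le
  intro i _
  refine (natDegree_C_mul_X_pow_le _ _).trans ?_
  omega

lemma card_aroots_le {k : ℕ} (q : Fin (k + 1) → ℤ) :
    ((polyOf q).aroots ℝ).toFinset.card ≤ k := by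
  classical
  refine (Multiset.toFinset_card_le _).trans ?_
  rw [aroots_def]
  refine (card_roots' _).trans ?_
  exact natDegree_map_le.trans (natDegree_polyOf_lt q)

lemma bad1_card (T : Finset ℚ) (hT1 : ∀ t ∈ T, 1 < t) (L M H : ℕ) (S : Finset ℕ) (Y c ω : ℝ)
    (hY : 0 < Y) (hc : 0 < c) (hc1 : c ≤ 1)
    (hS : ∀ b ∈ S, ∀ ts ∈ listsOf T L, |leaf ts ((18 * (b : ℝ) + 3) / Y)| ≤ 2)
    (hbig : 1 ≤ (2 ^ L * 3 ^ (2 ^ L)) * (c * ω) * Y / 9) :
    ∃ Bad : Finset ℕ, (Bad.card : ℝ) ≤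
        (T.card : ℝ) ^ L * (M * (3 ^ (M + 1) * (2 * ((2 ^ L * 3 ^ (2 ^ L)) * c) * Y / 9))) ∧
      ∀ b ∈ S, b ∉ Bad → ∀ ts ∈ listsOf T L, ∀ Q : ℤ[X], Q ≠ 0 → Q.natDegree ≤ M → ht Q ≤ H →
        ω ≤ wt (cf (M + 1) Q) → ∀ β : ℝ, aeval β Q = 0 →
        c * wt (cf (M + 1) Q) < |leaf ts ((18 * (b : ℝ) + 3) / Y) - β| := by
  classical
  set Box := (Fintype.piFinset (fun _ : Fin (M + 1) => Finset.Icc (-(H : ℤ)) H)).filter
    (fun q => ω ≤ wt q) with hBox
  set C0 : ℝ := 2 ^ L * 3 ^ (2 ^ L) with hC0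
  have hC0pos : 0 < C0 := by positivity
  let F : List ℚ → (Fin (M + 1) → ℤ) → ℝ → Finset ℕ := fun ts q β =>
    S.filter (fun b : ℕ => |(18 * (b : ℝ) + 3) / Y - β ^ (2 ^ L) / (prodT ts : ℝ)| ≤
      C0 * (c * wt q))
  refine ⟨(listsOf T L).biUnion fun ts => Box.biUnion fun q =>
    ((polyOf q).aroots ℝ).toFinset.biUnion fun β => F ts q β, ?_, ?_⟩
  · -- cardinality
    have hF : ∀ ts, ∀ q ∈ Box, ∀ β, ((F ts q β).card : ℝ) ≤ 2 * (C0 * (c * wt q)) * Y / 9 := by
      intro ts q hq β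
      have hωq : ω ≤ wt q := (Finset.mem_filter.mp hq).2
      have hw := wt_nonneg q
      have h1 := kill_count S Y (β ^ (2 ^ L) / (prodT ts : ℝ)) (C0 * (c * wt q)) hY (by positivity)
      have h2 : C0 * (c * ω) * Y / 9 ≤ C0 * (c * wt q) * Y / 9 := by gcongr
      calc ((F ts q β).card : ℝ) ≤ C0 * (c * wt q) * Y / 9 + 1 := h1
        _ ≤ C0 * (c * wt q) * Y / 9 + C0 * (c * wt q) * Y / 9 := by linarith
        _ = 2 * (C0 * (c * wt q)) * Y / 9 := by ring
    have h1 : ∀ ts, ∀ q ∈ Box,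
        (((((polyOf q).aroots ℝ).toFinset.biUnion fun β => F ts q β).card : ℕ) : ℝ) ≤
        M * (2 * (C0 * (c * wt q)) * Y / 9) := by
      intro ts q hq
      have hw := wt_nonneg q
      calc (((((polyOf q).aroots ℝ).toFinset.biUnion fun β => F ts q β).card : ℕ) : ℝ)
          ≤ ((∑ β ∈ ((polyOf q).aroots ℝ).toFinset, (F ts q β).card : ℕ) : ℝ) := by
            exact_mod_cast Finset.card_biUnion_le
        _ = ∑ β ∈ ((polyOf q).aroots ℝ).toFinset, ((F ts q β).card : ℝ) := by push_cast; rfl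
        _ ≤ ∑ β ∈ ((polyOf q).aroots ℝ).toFinset, (2 * (C0 * (c * wt q)) * Y / 9) :=
            Finset.sum_le_sum fun β _ => hF ts q hq β
        _ = (((polyOf q).aroots ℝ).toFinset.card : ℝ) * (2 * (C0 * (c * wt q)) * Y / 9) := by
            rw [Finset.sum_const, nsmul_eq_mul]
        _ ≤ M * (2 * (C0 * (c * wt q)) * Y / 9) := by
            apply mul_le_mul_of_nonneg_right _ (by positivity)
            exact_mod_cast card_aroots_le q
    have h2 : ∀ ts, (((Box.biUnion fun q => ((polyOf q).aroots ℝ).toFinset.biUnion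
        fun β => F ts q β).card : ℕ) : ℝ) ≤ M * (3 ^ (M + 1) * (2 * (C0 * c) * Y / 9)) := by
      intro ts
      calc (((Box.biUnion fun q => ((polyOf q).aroots ℝ).toFinset.biUnion
            fun β => F ts q β).card : ℕ) : ℝ)
          ≤ ((∑ q ∈ Box, (((polyOf q).aroots ℝ).toFinset.biUnion
            fun β => F ts q β).card : ℕ) : ℝ) := by
            exact_mod_cast Finset.card_biUnion_le
        _ = ∑ q ∈ Box, ((((polyOf q).aroots ℝ).toFinset.biUnion
            fun β => F ts q β).card : ℝ) := by push_cast; rfl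
        _ ≤ ∑ q ∈ Box, (M * (2 * (C0 * (c * wt q)) * Y / 9)) :=
            Finset.sum_le_sum fun q hq => h1 ts q hq
        _ = (M * (2 * (C0 * c) * Y / 9)) * ∑ q ∈ Box, wt q := by
            rw [Finset.mul_sum]; apply Finset.sum_congr rfl; intro q _; ring
        _ ≤ (M * (2 * (C0 * c) * Y / 9)) * 3 ^ (M + 1) := by
            apply mul_le_mul_of_nonneg_left _ (by positivity)
            refine le_trans ?_ (sum_wt (M + 1) H)
            apply Finset.sum_le_sum_of_subset_of_nonneg (Finset.filter_subset _ _)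
            intro q _ _
            exact wt_nonneg q
        _ = M * (3 ^ (M + 1) * (2 * (C0 * c) * Y / 9)) := by ring
    calc ((((listsOf T L).biUnion fun ts => Box.biUnion fun q =>
          ((polyOf q).aroots ℝ).toFinset.biUnion fun β => F ts q β).card : ℕ) : ℝ)
        ≤ ((∑ ts ∈ listsOf T L, (Box.biUnion fun q =>
          ((polyOf q).aroots ℝ).toFinset.biUnion fun β => F ts q β).card : ℕ) : ℝ) := by
          exact_mod_cast Finset.card_biUnion_le
      _ = ∑ ts ∈ listsOf T L, ((Box.biUnion fun q =>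
          ((polyOf q).aroots ℝ).toFinset.biUnion fun β => F ts q β).card : ℝ) := by
          push_cast; rfl
      _ ≤ ∑ ts ∈ listsOf T L, (M * (3 ^ (M + 1) * (2 * (C0 * c) * Y / 9))) :=
          Finset.sum_le_sum fun ts _ => h2 ts
      _ = ((listsOf T L).card : ℝ) * (M * (3 ^ (M + 1) * (2 * (C0 * c) * Y / 9))) := by
          rw [Finset.sum_const, nsmul_eq_mul]
      _ ≤ (T.card : ℝ) ^ L * (M * (3 ^ (M + 1) * (2 * (C0 * c) * Y / 9))) := by
          apply mul_le_mul_of_nonneg_right _ (by positivity)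
          exact_mod_cast card_listsOf T L
  · -- the good ones
    intro b hbS hbBad ts hts Q hQ0 hQM hQH hω β hβ
    by_contra hcon
    push Not at hcon
    apply hbBad
    rw [Finset.mem_biUnion]
    refine ⟨ts, hts, ?_⟩
    rw [Finset.mem_biUnion]
    have hpoly : polyOf (cf (M + 1) Q) = Q := polyOf_coeff Q (M + 1) (by omega)
    refine ⟨cf (M + 1) Q, ?_, ?_⟩
    · rw [hBox, Finset.mem_filter]
      exact ⟨mem_box Q (M + 1) H hQH, hω⟩
    rw [Finset.mem_biUnion]
    refine ⟨β, ?_, ?_⟩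
    · rw [Multiset.mem_toFinset, hpoly, mem_aroots]
      exact ⟨hQ0, hβ⟩
    rw [Finset.mem_filter]
    refine ⟨hbS, ?_⟩
    have hr0 : 0 ≤ (18 * (b : ℝ) + 3) / Y := by positivity
    set r := (18 * (b : ℝ) + 3) / Y with hr
    obtain ⟨hlen, hmem⟩ := (mem_listsOf T L ts).mp hts
    have hts1 : ∀ t ∈ ts, (1 : ℚ) < t := fun t ht => hT1 t (hmem t ht)
    have hpow := leaf_pow ts r hr0 (fun t ht => by linarith [hts1 t ht])
    rw [hlen] at hpow
    have hP1 : (1 : ℝ) ≤ prodT ts := by exact_mod_cast one_le_prodT ts hts1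
    have hleaf2 := hS b hbS ts hts
    have hw1 : wt (cf (M + 1) Q) ≤ 1 := by
      unfold wt
      apply Finset.prod_le_one
      · intro i _; exact w1_nonneg _
      · intro i _
        unfold w1
        apply inv_le_one_of_one_le₀
        apply one_le_pow₀
        have := abs_nonneg ((cf (M + 1) Q i : ℤ) : ℝ)
        linarith
    have hw0 := wt_nonneg (cf (M + 1) Q)
    have hcw : c * wt (cf (M + 1) Q) ≤ 1 := by nlinarith
    have hβ3 : |β| ≤ 3 := by
      have h1 : |β| ≤ |leaf ts r| + |leaf ts r - β| := by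
        have := abs_sub_abs_le_abs_sub β (leaf ts r)
        rw [abs_sub_comm β] at this
        linarith
      linarith
    have h1 := abs_pow_sub_pow_le' (leaf ts r) β 3 (by norm_num) (by linarith) hβ3 (2 ^ L)
    rw [hpow] at h1
    have h2 : |(prodT ts : ℝ) * r - β ^ (2 ^ L)| ≤ C0 * (c * wt (cf (M + 1) Q)) := by
      refine h1.trans ?_
      rw [hC0]; push_cast
      gcongr
    have h3 : r - β ^ (2 ^ L) / (prodT ts : ℝ) =
        ((prodT ts : ℝ) * r - β ^ (2 ^ L)) / (prodT ts : ℝ) := by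
      field_simp
    rw [h3, abs_div, abs_of_pos (by linarith : (0 : ℝ) < (prodT ts : ℝ))]
    exact (div_le_self (abs_nonneg _) hP1).trans h2

end Pool.Agent.H93.SStar
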