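import Mathlib
import Pool.Agent.H93.SStar.Bad

open Polynomial

namespace Pool.Agent.H93.SStar

lemma bad2_card (M : ℕ) (S : Finset ℕ) (Y Z δ y0 : ℝ) (hY : 0 < Y) (hZ : 1 ≤ Z) (hδ : 0 ≤ δ)
    (hδY : δ * Y ≤ 9) (hy0 : Z ≤ y0 ^ 2) (hy0nn : 0 ≤ y0) :
    ∃ Bad : Finset ℕ, (Bad.card : ℝ) ≤ M * (M * (3 ^ (M + 1) * (Z * y0) * 2)) ∧
      ∀ b ∈ S, b ∉ Bad → ∀ Q : ℤ[X], Q ≠ 0 → 2 ≤ Q.natDegree → Q.natDegree ≤ M →
        (ht Q : ℝ) ^ Q.natDegree ≤ Z → ∀ β : ℝ, aeval β Q = 0 →
        δ < |(18 * (b : ℝ) + 3) / Y - β| := by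
  classical
  let h : ℕ → ℕ := fun m => ⌊Z ^ ((m : ℝ)⁻¹)⌋₊
  let Box : (m : ℕ) → Finset (Fin (m + 1) → ℤ) := fun m =>
    Fintype.piFinset (fun _ : Fin (m + 1) => Finset.Icc (-((h m : ℕ) : ℤ)) (h m))
  let F : ℝ → Finset ℕ := fun β =>
    S.filter (fun b : ℕ => |(18 * (b : ℝ) + 3) / Y - β| ≤ δ)
  have hy0' : 0 ≤ Z * y0 := by positivity
  refine ⟨(Finset.Icc 2 M).biUnion fun m => (Box m).biUnion fun q =>
    ((polyOf q).aroots ℝ).toFinset.biUnion fun β => F β, ?_, ?_⟩
  · have hF : ∀ β, ((F β).card : ℝ) ≤ 2 := by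
      intro β
      have h1 := kill_count S Y β δ hY hδ
      calc ((F β).card : ℝ) ≤ δ * Y / 9 + 1 := h1
        _ ≤ 2 := by linarith
    have h1 : ∀ m ∈ Finset.Icc 2 M, ∀ q ∈ Box m,
        (((((polyOf q).aroots ℝ).toFinset.biUnion fun β => F β).card : ℕ) : ℝ) ≤ M * 2 := by
      intro m hm q hq
      have hmM := (Finset.mem_Icc.mp hm).2
      calc (((((polyOf q).aroots ℝ).toFinset.biUnion fun β => F β).card : ℕ) : ℝ)
          ≤ ((∑ β ∈ ((polyOf q).aroots ℝ).toFinset, (F β).card : ℕ) : ℝ) := by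
            exact_mod_cast Finset.card_biUnion_le
        _ = ∑ β ∈ ((polyOf q).aroots ℝ).toFinset, ((F β).card : ℝ) := by push_cast; rfl
        _ ≤ ∑ β ∈ ((polyOf q).aroots ℝ).toFinset, (2 : ℝ) :=
            Finset.sum_le_sum fun β _ => hF β
        _ = (((polyOf q).aroots ℝ).toFinset.card : ℝ) * 2 := by
            rw [Finset.sum_const, nsmul_eq_mul]
        _ ≤ M * 2 := by
            apply mul_le_mul_of_nonneg_right _ (by positivity)
            exact_mod_cast (card_aroots_le q).trans hmM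
    have h2 : ∀ m ∈ Finset.Icc 2 M, ((((Box m).biUnion fun q =>
        ((polyOf q).aroots ℝ).toFinset.biUnion fun β => F β).card : ℕ) : ℝ) ≤
        M * (3 ^ (M + 1) * (Z * y0) * 2) := by
      intro m hm
      obtain ⟨hm2, hmM⟩ := Finset.mem_Icc.mp hm
      have hm0 : m ≠ 0 := by omega
      set y : ℝ := Z ^ ((m : ℝ)⁻¹) with hy
      have hyone : 1 ≤ y := Real.one_le_rpow hZ (by positivity)
      have hypow : y ^ m = Z := Real.rpow_inv_natCast_pow (by linarith) hm0
      have hyy0 : y ≤ y0 := by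
        apply le_of_pow_le_pow_left₀ (n := 2) (by norm_num) hy0nn
        calc y ^ 2 ≤ y ^ m := pow_le_pow_right₀ hyone hm2
          _ = Z := hypow
          _ ≤ y0 ^ 2 := hy0
      have hhy : ((h m : ℕ) : ℝ) ≤ y := Nat.floor_le (by linarith)
      have hcardBox : ((Box m).card : ℝ) ≤ 3 ^ (M + 1) * (Z * y0) := by
        have : (Box m).card = (2 * h m + 1) ^ (m + 1) := card_box (m + 1) (h m)
        rw [this]
        push_cast
        calc (2 * ((h m : ℕ) : ℝ) + 1) ^ (m + 1) ≤ (3 * y) ^ (m + 1) := by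
              apply pow_le_pow_left₀ (by positivity)
              linarith
          _ = 3 ^ (m + 1) * (y ^ m * y) := by rw [mul_pow, pow_succ y]
          _ ≤ 3 ^ (M + 1) * (Z * y0) := by
              rw [hypow]
              have : (3 : ℝ) ^ (m + 1) ≤ 3 ^ (M + 1) :=
                pow_le_pow_right₀ (by norm_num) (by omega)
              gcongr
      calc ((((Box m).biUnion fun q =>
            ((polyOf q).aroots ℝ).toFinset.biUnion fun β => F β).card : ℕ) : ℝ)
          ≤ ((∑ q ∈ Box m, (((polyOf q).aroots ℝ).toFinset.biUnion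
            fun β => F β).card : ℕ) : ℝ) := by
            exact_mod_cast Finset.card_biUnion_le
        _ = ∑ q ∈ Box m, ((((polyOf q).aroots ℝ).toFinset.biUnion
            fun β => F β).card : ℝ) := by push_cast; rfl
        _ ≤ ∑ q ∈ Box m, ((M : ℝ) * 2) := Finset.sum_le_sum fun q hq => h1 m hm q hq
        _ = ((Box m).card : ℝ) * (M * 2) := by rw [Finset.sum_const, nsmul_eq_mul]
        _ ≤ (3 ^ (M + 1) * (Z * y0)) * (M * 2) :=
            mul_le_mul_of_nonneg_right hcardBox (by positivity)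
        _ = M * (3 ^ (M + 1) * (Z * y0) * 2) := by ring
    calc ((((Finset.Icc 2 M).biUnion fun m => (Box m).biUnion fun q =>
          ((polyOf q).aroots ℝ).toFinset.biUnion fun β => F β).card : ℕ) : ℝ)
        ≤ ((∑ m ∈ Finset.Icc 2 M, ((Box m).biUnion fun q =>
          ((polyOf q).aroots ℝ).toFinset.biUnion fun β => F β).card : ℕ) : ℝ) := by
          exact_mod_cast Finset.card_biUnion_le
      _ = ∑ m ∈ Finset.Icc 2 M, (((Box m).biUnion fun q =>
          ((polyOf q).aroots ℝ).toFinset.biUnion fun β => F β).card : ℝ) := by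
          push_cast; rfl
      _ ≤ ∑ m ∈ Finset.Icc 2 M, (M * (3 ^ (M + 1) * (Z * y0) * 2)) :=
          Finset.sum_le_sum fun m hm => h2 m hm
      _ = ((Finset.Icc 2 M).card : ℝ) * (M * (3 ^ (M + 1) * (Z * y0) * 2)) := by
          rw [Finset.sum_const, nsmul_eq_mul]
      _ ≤ M * (M * (3 ^ (M + 1) * (Z * y0) * 2)) := by
          apply mul_le_mul_of_nonneg_right _ (by positivity)
          have : (Finset.Icc 2 M).card ≤ M := by rw [Nat.card_Icc]; omega
          exact_mod_cast this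
  · intro b hbS hbBad Q hQ0 hQ2 hQM hQZ β hβ
    by_contra hcon
    push Not at hcon
    apply hbBad
    rw [Finset.mem_biUnion]
    refine ⟨Q.natDegree, Finset.mem_Icc.mpr ⟨hQ2, hQM⟩, ?_⟩
    rw [Finset.mem_biUnion]
    have hpoly : polyOf (cf (Q.natDegree + 1) Q) = Q := polyOf_coeff Q (Q.natDegree + 1) (by omega)
    refine ⟨cf (Q.natDegree + 1) Q, ?_, ?_⟩
    · apply mem_box
      apply Nat.le_floor
      have hypow : (Z ^ ((Q.natDegree : ℝ)⁻¹)) ^ Q.natDegree = Z :=
        Real.rpow_inv_natCast_pow (by linarith) (by omega)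
      apply le_of_pow_le_pow_left₀ (n := Q.natDegree) (by omega) (by positivity)
      rw [hypow]
      exact hQZ
    rw [Finset.mem_biUnion]
    refine ⟨β, ?_, ?_⟩
    · rw [Multiset.mem_toFinset, hpoly, mem_aroots]
      exact ⟨hQ0, hβ⟩
    rw [Finset.mem_filter]
    exact ⟨hbS, hcon⟩

end Pool.Agent.H93.SStar
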