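import Mathlib
import Pool.Agent.H93.SStar.Bad2

open Polynomial

namespace Pool.Agent.H93.SStar

lemma base_linear (κ b : ℕ) (K X : ℝ) (hX : X = 2 ^ κ) (hK : 1 ≤ K) (hXK : K ^ 2 < X)
    (Q : ℤ[X]) (hQ : Q.natDegree = 1) (hht : (ht Q : ℝ) ≤ K * X ^ 54) (β : ℝ)
    (hβ : aeval β Q = 0) : K * (X ^ 3600)⁻¹ < |(18 * (b : ℝ) + 3) / X ^ 100 - β| := by
  have hX1 : 1 ≤ X := by rw [hX]; exact one_le_pow₀ (by norm_num)
  have hXpos : 0 < X := by linarith
  set c := Q.coeff 1 with hc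
  set d := Q.coeff 0 with hd
  have hc0 : c ≠ 0 := by
    have hne : Q ≠ 0 := by rintro rfl; simp at hQ
    have : Q.leadingCoeff ≠ 0 := leadingCoeff_ne_zero.mpr hne
    rwa [leadingCoeff, hQ] at this
  have hval : (c : ℝ) * β + d = 0 := by
    rw [aeval_eq_sum, hQ] at hβ
    rw [Finset.sum_range_succ, Finset.sum_range_one] at hβ
    simp only [pow_zero, mul_one, pow_one] at hβ
    linarith
  have hcabs : |(c : ℝ)| ≤ K * X ^ 54 := (abs_coeff_le_ht Q 1).trans hht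
  have hcR : (c : ℝ) ≠ 0 := by exact_mod_cast hc0
  -- the integer numerator
  set Nn : ℤ := (18 * (b : ℤ) + 3) * c + d * 2 ^ (100 * κ) with hN
  have hN0 : Nn ≠ 0 := by
    intro h0
    have h1 : (2 : ℤ) ^ (100 * κ) ∣ (18 * (b : ℤ) + 3) * c := by
      refine ⟨-d, ?_⟩
      have : (18 * (b : ℤ) + 3) * c = - (d * 2 ^ (100 * κ)) := by
        rw [hN] at h0; linarith
      rw [this]; ring
    have h2 : IsCoprime ((2 : ℤ) ^ (100 * κ)) (18 * (b : ℤ) + 3) := by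
      apply IsCoprime.pow_left
      refine ⟨-(9 * (b : ℤ) + 1), 1, ?_⟩
      ring
    have h3 : (2 : ℤ) ^ (100 * κ) ∣ c := h2.dvd_of_dvd_mul_left h1
    have h4 : (2 : ℤ) ^ (100 * κ) ≤ |c| := by
      apply Int.le_of_dvd (abs_pos.mpr hc0)
      exact (dvd_abs _ _).mpr h3
    have h5 : X ^ 100 ≤ |(c : ℝ)| := by
      have : ((2 : ℝ)) ^ (100 * κ) ≤ |(c : ℝ)| := by exact_mod_cast h4
      rw [hX, ← pow_mul, mul_comm κ 100]; exact this
    have h6 : K * X ^ 54 < X ^ 100 := by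
      have h7 : K < X := by nlinarith
      calc K * X ^ 54 < X * X ^ 54 := by gcongr
        _ = X ^ 55 := by ring
        _ ≤ X ^ 100 := pow_le_pow_right₀ hX1 (by norm_num)
    linarith
  have hN1 : (1 : ℝ) ≤ |(Nn : ℝ)| := by
    have : (1 : ℤ) ≤ |Nn| := Int.one_le_abs hN0
    exact_mod_cast this
  have hdiff : (18 * (b : ℝ) + 3) / X ^ 100 - β = (Nn : ℝ) / (c * X ^ 100) := by
    have hβ' : β = -d / c := by field_simp; linarith
    have hX100 : X ^ 100 = (2 : ℝ) ^ (100 * κ) := by rw [hX, ← pow_mul, mul_comm]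
    rw [hβ', hN, hX100]
    push_cast
    field_simp
    ring
  rw [hdiff, abs_div, abs_mul, abs_of_pos (by positivity : (0 : ℝ) < X ^ 100)]
  have h8 : |(c : ℝ)| * X ^ 100 ≤ K * X ^ 154 := by
    calc |(c : ℝ)| * X ^ 100 ≤ (K * X ^ 54) * X ^ 100 := by gcongr
      _ = K * X ^ 154 := by ring
  have hcpos : 0 < |(c : ℝ)| := abs_pos.mpr hcR
  rw [lt_div_iff₀ (by positivity)]
  refine lt_of_lt_of_le ?_ hN1
  calc K * (X ^ 3600)⁻¹ * (|(c : ℝ)| * X ^ 100) ≤ K * (X ^ 3600)⁻¹ * (K * X ^ 154) := by gcongr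
    _ = (K ^ 2 * X ^ 154) / X ^ 3600 := by ring
    _ < 1 := by
        rw [div_lt_one (by positivity)]
        calc K ^ 2 * X ^ 154 < X * X ^ 154 := by gcongr
          _ = X ^ 155 := by ring
          _ ≤ X ^ 3600 := pow_le_pow_right₀ hX1 (by norm_num)

lemma not_matched_base (M n κ b : ℕ) (hn : 1 ≤ n) (K X : ℝ) (hX : X = 2 ^ κ) (hK : 1 ≤ K)
    (hXK : K ^ 2 < X)
    (hgood : ∀ Q : ℤ[X], Q ≠ 0 → 2 ≤ Q.natDegree → Q.natDegree ≤ M →
      (ht Q : ℝ) ^ Q.natDegree ≤ K ^ M * X ^ 54 → ∀ β : ℝ, aeval β Q = 0 →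
      K * (X ^ 3600)⁻¹ < |(18 * (b : ℝ) + 3) / X ^ 100 - β|) :
    ¬ Matched M (X ^ 2) (X ^ (54 * n)) n K ((18 * (b : ℝ) + 3) / X ^ 100) := by
  have hX1 : 1 ≤ X := by rw [hX]; exact one_le_pow₀ (by norm_num)
  have hXpos : 0 < X := by linarith
  rintro ⟨m, hm1, hmM, B, hB1, hBm, hBp, Q, hQ, hdeg, hht, β, hβ, hcl⟩
  have hBm' : B ^ m ≤ X ^ 54 := by
    apply le_of_pow_le_pow_left₀ (n := n) (by omega) (by positivity)
    rw [← pow_mul, ← pow_mul, mul_comm m n]; exact hBp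
  have hcl' : |(18 * (b : ℝ) + 3) / X ^ 100 - β| ≤ K * (X ^ 3600)⁻¹ := by
    refine hcl.trans ?_
    apply mul_le_mul_of_nonneg_left _ (by linarith)
    apply inv_anti₀ (by positivity)
    calc X ^ 3600 = (X ^ 2) ^ 1800 := by rw [← pow_mul]
      _ ≤ (B ^ (n * m)) ^ 1800 := pow_le_pow_left₀ (by positivity) hBm _
  have hmM' : m ≤ M := le_trans (Nat.le_mul_of_pos_left _ hn) hmM
  rcases Nat.lt_or_ge m 2 with h | h
  · have hm : m = 1 := by omega
    rw [hm] at hdeg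
    rw [hm, pow_one] at hBm'
    have := base_linear κ b K X hX hK hXK Q hdeg (hht.trans (by gcongr)) β hβ
    linarith
  · have := hgood Q hQ.ne_zero (by omega) (by omega) (by
      rw [hdeg]
      calc (ht Q : ℝ) ^ m ≤ (K * B) ^ m := pow_le_pow_left₀ (by positivity) hht m
        _ = K ^ m * B ^ m := mul_pow _ _ _
        _ ≤ K ^ M * X ^ 54 := by
            have := pow_le_pow_right₀ hK hmM'
            gcongr) β hβ
    linarith

end Pool.Agent.H93.SStar
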