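import Mathlib

open Polynomial

namespace Pool.Agent.H93.SStar

lemma eis (R : ℚ) (hR0 : 0 < R) (hR : padicValRat 3 R = 1) (k : ℕ) (hk : 1 ≤ k) :
    Irreducible (C ((R.den : ℕ) : ℤ) * X ^ k - C ((R.num.natAbs : ℕ) : ℤ) : ℤ[X]) := by
  have hfact3 : Fact (Nat.Prime 3) := ⟨Nat.prime_three⟩
  have hnum0 : 0 < R.num := Rat.num_pos.mpr hR0
  have hden0 : R.den ≠ 0 := R.den_nz
  set a := R.num.natAbs with ha
  set b := R.den with hb
  have hcop : Nat.Coprime a b := R.reduced
  have hval : (padicValNat 3 a : ℤ) - padicValNat 3 b = 1 := by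
    rw [padicValRat] at hR
    exact hR
  have ha0 : a ≠ 0 := by omega
  have h3b : ¬ 3 ∣ b := by
    intro h3
    have h4 : ¬ 3 ∣ a := by
      intro h5
      have := Nat.dvd_gcd h5 h3
      rw [hcop.gcd_eq_one] at this
      norm_num at this
    rw [padicValNat.eq_zero_of_not_dvd h4, Nat.cast_zero, zero_sub] at hval
    have : (0 : ℤ) ≤ padicValNat 3 b := by positivity
    linarith
  have hva : padicValNat 3 a = 1 := by
    rw [padicValNat.eq_zero_of_not_dvd h3b, Nat.cast_zero, sub_zero] at hval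
    exact_mod_cast hval
  have h3a : 3 ∣ a := by
    apply dvd_of_one_le_padicValNat; omega
  have h9a : ¬ 9 ∣ a := by
    intro h
    have h9 : 3 ^ 2 ∣ a := by norm_num; exact h
    have := (padicValNat_dvd_iff_le (p := 3) ha0).mp h9
    omega
  set f : ℤ[X] := C ((b : ℕ) : ℤ) * X ^ k - C ((a : ℕ) : ℤ) with hf
  have hcoeff : ∀ i, f.coeff i = (if i = k then (b : ℤ) else 0) - (if i = 0 then (a : ℤ) else 0) := by
    intro i
    rw [hf, coeff_sub, coeff_C_mul, coeff_X_pow, coeff_C]
    split_ifs <;> simp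
  have hdeg : f.natDegree = k := by
    apply natDegree_eq_of_le_of_coeff_ne_zero
    · rw [natDegree_le_iff_coeff_eq_zero]
      intro N hN
      rw [hcoeff, if_neg (by omega), if_neg (by omega)]; simp
    · rw [hcoeff, if_pos rfl, if_neg (by omega)]
      simpa using hden0
  have hmem : ∀ z : ℤ, z ∈ Ideal.span ({3} : Set ℤ) ↔ (3 : ℤ) ∣ z := fun z =>
    Ideal.mem_span_singleton
  have hprime : (Ideal.span ({3} : Set ℤ)).IsPrime := by
    rw [Ideal.span_singleton_prime (by norm_num)]
    exact Int.prime_three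
  have heis : f.IsEisensteinAt (Ideal.span ({3} : Set ℤ)) := by
    refine ⟨?_, ?_, ?_⟩
    · rw [leadingCoeff, hdeg, hcoeff, if_pos rfl, if_neg (by omega), sub_zero, hmem]
      intro h; exact h3b (by exact_mod_cast h)
    · intro i hi
      rw [hdeg] at hi
      rw [hcoeff, if_neg (by omega), hmem]
      split_ifs
      · rw [zero_sub, dvd_neg]; exact_mod_cast h3a
      · simp
    · rw [hcoeff, if_neg (by omega), if_pos rfl, Ideal.span_singleton_pow,
        Ideal.mem_span_singleton]
      intro h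
      rw [zero_sub, dvd_neg] at h
      apply h9a
      have : ((9 : ℕ) : ℤ) ∣ (a : ℤ) := by
        have h10 : ((3 : ℤ) ^ 2) = ((9 : ℕ) : ℤ) := by norm_num
        rwa [h10] at h
      exact_mod_cast this
  have hprim : f.IsPrimitive := by
    rw [isPrimitive_iff_isUnit_of_C_dvd]
    intro r hr
    rw [C_dvd_iff_dvd_coeff] at hr
    have h1 := hr k
    have h2 := hr 0
    rw [hcoeff, if_pos rfl, if_neg (by omega), sub_zero] at h1
    rw [hcoeff, if_neg (by omega), if_pos rfl, zero_sub, dvd_neg] at h2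
    have h3 : IsCoprime (b : ℤ) (a : ℤ) := by
      rw [Nat.isCoprime_iff_coprime]; exact hcop.symm
    exact h3.isUnit_of_dvd' h1 h2
  exact heis.irreducible hprime hprim (by rw [hdeg]; omega)

end Pool.Agent.H93.SStar
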