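import Mathlib
import Pool.Agent.H93.SStar.Base
import Pool.Agent.H93.SStar.Eis

open Polynomial

namespace Pool.Agent.H93.SStar

lemma card_S (y1 y2 : ℝ) (hy1 : 0 ≤ y1) :
    y2 - y1 - 2 ≤ ((Finset.Icc (⌊y1⌋₊ + 1) (⌊y2⌋₊ - 1)).card : ℝ) := by
  rw [Nat.card_Icc]
  have h1 : (⌊y1⌋₊ : ℝ) ≤ y1 := Nat.floor_le hy1
  have h2 : y2 < (⌊y2⌋₊ : ℝ) + 1 := Nat.lt_floor_add_one y2
  have h3 : ((⌊y2⌋₊ : ℕ) : ℝ) ≤ ((⌊y2⌋₊ - 1 + 1 - (⌊y1⌋₊ + 1) : ℕ) : ℝ) + ((⌊y1⌋₊ : ℕ) : ℝ) + 1 := by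
    have : ⌊y2⌋₊ ≤ (⌊y2⌋₊ - 1 + 1 - (⌊y1⌋₊ + 1)) + ⌊y1⌋₊ + 1 := by omega
    exact_mod_cast this
  linarith

lemma mem_S {y1 y2 : ℝ} {b : ℕ}
    (hb : b ∈ Finset.Icc (⌊y1⌋₊ + 1) (⌊y2⌋₊ - 1)) (hy2 : 0 ≤ y2) :
    y1 < b ∧ (b : ℝ) + 1 ≤ y2 := by
  rw [Finset.mem_Icc] at hb
  constructor
  · have h1 := Nat.lt_floor_add_one y1
    have h2 : ((⌊y1⌋₊ + 1 : ℕ) : ℝ) ≤ b := by exact_mod_cast hb.1
    push_cast at h2
    linarith
  · have h1 : (⌊y2⌋₊ : ℝ) ≤ y2 := Nat.floor_le hy2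
    have h2 : b + 1 ≤ ⌊y2⌋₊ := by omega
    have h3 : ((b + 1 : ℕ) : ℝ) ≤ ⌊y2⌋₊ := by exact_mod_cast h2
    push_cast at h3
    linarith

lemma pow_sub_pow_ge (n : ℕ) (hn : 1 ≤ n) (a b : ℝ) (ha : 1 ≤ a) (hab : a ≤ b) :
    b - a ≤ b ^ n - a ^ n := by
  induction n with
  | zero => omega
  | succ n ih =>
    rcases Nat.eq_zero_or_pos n with rfl | hn'
    · simp
    · have h1 := ih hn'
      have h2 : 1 ≤ a ^ n := one_le_pow₀ ha
      have h3 : b ^ (n + 1) - a ^ (n + 1) = b * (b ^ n - a ^ n) + (b - a) * a ^ n := by ring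
      rw [h3]
      have h4 : 0 ≤ b ^ n - a ^ n := by linarith
      nlinarith

/-- numerator and denominator control -/
lemma num_den_facts (L κ b : ℕ) (P : ℚ) (hP1 : 1 ≤ P) (hPv : padicValRat 3 P = 0) (D : ℕ)
    (hPD : P.den ≤ D) (x r : ℝ) (hx : x = 2 ^ κ) (hr : r = (18 * (b : ℝ) + 3) / x ^ 100)
    (α : ℝ) (hα0 : 0 ≤ α) (hα : α ^ (2 ^ L) = (P : ℝ) * r) (hα2 : α ≤ 2)
    (hDX : 2 ^ (2 ^ L) * (D : ℝ) ≤ x) :
    ∃ a b : ℕ, 0 < b ∧ α ^ (2 ^ L) = (a : ℝ) / b ∧ (a : ℝ) ≤ x ^ 101 ∧ (b : ℝ) ≤ x ^ 101 ∧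
      ∀ k : ℕ, 1 ≤ k → Irreducible (C (b : ℤ) * X ^ k - C (a : ℤ) : ℤ[X]) := by
  have hfact3 : Fact (Nat.Prime 3) := ⟨Nat.prime_three⟩
  have hx1 : 1 ≤ x := by rw [hx]; exact one_le_pow₀ (by norm_num)
  set R : ℚ := P * (((18 * b + 3 : ℕ) : ℚ) / ((2 ^ (100 * κ) : ℕ) : ℚ)) with hR
  have hx100 : x ^ 100 = (2 : ℝ) ^ (100 * κ) := by rw [hx, ← pow_mul, mul_comm]
  have hRα : α ^ (2 ^ L) = (R : ℝ) := by
    rw [hα, hr, hR, hx100]; push_cast; ring
  have hR0 : 0 < R := by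
    rw [hR]; positivity
  have hv : padicValRat 3 R = 1 := by
    have h1 : ((18 * b + 3 : ℕ) : ℚ) ≠ 0 := by positivity
    have h2 : ((2 ^ (100 * κ) : ℕ) : ℚ) ≠ 0 := by positivity
    have h3 : P ≠ 0 := by linarith
    rw [hR, padicValRat.mul h3 (div_ne_zero h1 h2), hPv, padicValRat.div h1 h2]
    have h4 : ¬ 3 ∣ 2 ^ (100 * κ) := by
      intro h
      have := Nat.Prime.dvd_of_dvd_pow Nat.prime_three h
      norm_num at this
    rw [padicValRat_nat_eq_zero h4, padicValRat.of_nat]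
    have h5 : 18 * b + 3 = 3 * (6 * b + 1) := by ring
    rw [h5, padicValNat.mul (by norm_num) (by positivity), padicValNat_self,
      padicValNat.eq_zero_of_not_dvd (by omega)]
    simp
  have hden : R.den ∣ P.den * 2 ^ (100 * κ) := by
    have h1 : (((18 * b + 3 : ℕ) : ℚ) / ((2 ^ (100 * κ) : ℕ) : ℚ)).den ∣ 2 ^ (100 * κ) := by
      have := Rat.den_dvd ((18 * b + 3 : ℕ) : ℤ) ((2 ^ (100 * κ) : ℕ) : ℤ)
      rw [Rat.divInt_eq_div] at this
      have h2 : (((((18 * b + 3 : ℕ) : ℤ) : ℚ) / (((2 ^ (100 * κ) : ℕ) : ℤ) : ℚ)).den : ℤ) ∣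
        ((2 ^ (100 * κ) : ℕ) : ℤ) := this
      rw [Int.natCast_dvd_natCast] at h2
      simpa using h2
    exact (Rat.mul_den_dvd _ _).trans (Nat.mul_dvd_mul_left _ h1)
  have hdenle : (R.den : ℝ) ≤ D * x ^ 100 := by
    have h1 : R.den ≤ P.den * 2 ^ (100 * κ) := Nat.le_of_dvd (by
      have := P.den_pos; positivity) hden
    have h2 : (R.den : ℝ) ≤ (P.den : ℝ) * 2 ^ (100 * κ) := by exact_mod_cast h1
    rw [hx100]
    refine h2.trans ?_
    have h3 : (P.den : ℝ) ≤ D := by exact_mod_cast hPD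
    gcongr
  have hD0 : (0 : ℝ) ≤ D := by positivity
  have h2n : (1 : ℝ) ≤ 2 ^ (2 ^ L) := one_le_pow₀ (by norm_num)
  refine ⟨R.num.natAbs, R.den, R.den_pos, ?_, ?_, ?_, ?_⟩
  · have hnum : ((R.num.natAbs : ℕ) : ℝ) = (R.num : ℝ) := by
      have : (0 : ℤ) ≤ R.num := (Rat.num_pos.mpr hR0).le
      rw [Nat.cast_natAbs, abs_of_nonneg this]
    rw [hRα, hnum]
    exact_mod_cast (Rat.num_div_den R).symm
  · have hnum : ((R.num.natAbs : ℕ) : ℝ) = (R : ℝ) * R.den := by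
      have : (0 : ℤ) ≤ R.num := (Rat.num_pos.mpr hR0).le
      rw [Nat.cast_natAbs, abs_of_nonneg this]
      exact_mod_cast (Rat.mul_den_eq_num R).symm
    rw [hnum, ← hRα]
    calc α ^ (2 ^ L) * (R.den : ℝ) ≤ 2 ^ (2 ^ L) * (D * x ^ 100) := by gcongr
      _ = (2 ^ (2 ^ L) * D) * x ^ 100 := by ring
      _ ≤ x * x ^ 100 := by gcongr
      _ = x ^ 101 := by ring
  · calc (R.den : ℝ) ≤ D * x ^ 100 := hdenle
      _ ≤ x * x ^ 100 := by
          apply mul_le_mul_of_nonneg_right _ (by positivity)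
          nlinarith
      _ = x ^ 101 := by ring
  · intro k hk
    exact eis R hR0 hv k hk

lemma key (L M : ℕ) : ∃ c1 : ℝ, 0 < c1 ∧ c1 ≤ 1 ∧ ∀ u v : ℝ, 1 < u → u < v → v < 2 →
    ∃ κ0 : ℕ, ∀ κ : ℕ, κ0 ≤ κ → ∃ α : ℝ, u < α ∧ α < v ∧
      (∃ a b : ℕ, 0 < b ∧ α ^ (2 ^ L) = (a : ℝ) / b ∧ (a : ℝ) ≤ ((2 : ℝ) ^ κ) ^ 101 ∧
        (b : ℝ) ≤ ((2 : ℝ) ^ κ) ^ 101 ∧
        ∀ k : ℕ, 1 ≤ k → Irreducible (C (b : ℤ) * X ^ k - C (a : ℤ) : ℤ[X])) ∧
      ∀ Q : ℤ[X], Irreducible Q → Q.natDegree ≤ M → ∀ β : ℝ, aeval β Q = 0 →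
        ((ht Q : ℝ) ^ Q.natDegree ≤ ((2 : ℝ) ^ κ) ^ 2 →
          c1 * (v - u) * ((ht Q : ℝ) ^ (4 * Q.natDegree))⁻¹ ≤ |α - β|) ∧
        (((2 : ℝ) ^ κ) ^ 2 ≤ (ht Q : ℝ) ^ Q.natDegree →
          (ht Q : ℝ) ^ Q.natDegree ≤ ((2 : ℝ) ^ κ) ^ (54 * 2 ^ L) →
          ((ht Q : ℝ) ^ (1800 * Q.natDegree))⁻¹ ≤ |α - β|) := by
  classical
  set n : ℕ := 2 ^ L with hn
  have hn1 : 1 ≤ n := Nat.one_le_two_pow
  set N : ℕ := L + 5 with hN
  set Rr : ℕ := M * N * M + 1 with hRr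
  have hRr1 : (1 : ℝ) ≤ Rr := by
    have : 1 ≤ Rr := by omega
    exact_mod_cast this
  set C0 : ℝ := 2 ^ L * 3 ^ (2 ^ L) with hC0
  have hC01 : 1 ≤ C0 := by
    have h1 : (1 : ℝ) ≤ 2 ^ L := one_le_pow₀ (by norm_num)
    have h2 : (1 : ℝ) ≤ 3 ^ (2 ^ L) := one_le_pow₀ (by norm_num)
    calc (1 : ℝ) = 1 * 1 := by ring
      _ ≤ C0 := by rw [hC0]; gcongr
  set D0 : ℝ := (Rr : ℝ) ^ L * ((M + 1) * (3 ^ (M + 1) * C0)) with hD0
  have hD01 : 1 ≤ D0 := by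
    have h1 : (1 : ℝ) ≤ (Rr : ℝ) ^ L := one_le_pow₀ hRr1
    have h2 : (1 : ℝ) ≤ (M : ℝ) + 1 := by
      have : (0 : ℝ) ≤ M := Nat.cast_nonneg M
      linarith
    have h3 : (1 : ℝ) ≤ 3 ^ (M + 1) := one_le_pow₀ (by norm_num)
    calc (1 : ℝ) = 1 * (1 * (1 * 1)) := by ring
      _ ≤ D0 := by rw [hD0]; gcongr
  have hD0pos : 0 < D0 := by linarith
  set c' : ℝ := 1 / (100 * D0) with hc'
  have hc'pos : 0 < c' := by positivity
  have hc'le : c' ≤ 1 := by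
    rw [hc', div_le_one (by positivity)]; linarith
  refine ⟨c' / 4 ^ (M + 1), by positivity, ?_, ?_⟩
  · rw [div_le_one (by positivity)]
    exact hc'le.trans (one_le_pow₀ (by norm_num))
  intro u v hu huv hv
  have huvpos : 0 < v - u := by linarith
  obtain ⟨T, hTcard, hT1, hTε, hT3, hTsq⟩ := twist_exists ((v - u) / 4) (by linarith) Rr
  have hT2 : ∀ t ∈ T, t ≤ 2 := by
    intro t ht
    have h1 := hTε t ht
    have h2 : (t : ℝ) ≤ 2 := by linarith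
    exact_mod_cast h2
  set Θ : ℝ := 2 ^ n with hΘ
  have hΘ2 : 2 ≤ Θ := by
    calc (2 : ℝ) = 2 ^ 1 := by norm_num
      _ ≤ 2 ^ n := pow_le_pow_right₀ (by norm_num) hn1
  obtain ⟨K, W0, hK, hW0, hdesc⟩ := descent M N (by omega) T hT1 hT2 hTsq
    (by rw [hTcard, hRr]; omega) Θ hΘ2 L
  set c : ℝ := c' * (v - u) with hc
  have hcpos : 0 < c := by positivity
  have hcle : c ≤ 1 := by
    rw [hc]
    exact mul_le_one₀ hc'le huvpos.le (by linarith)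
  set P0 : ℕ := (listsOf T L).sup (fun ts => (prodT ts).den) with hP0
  set E : ℝ := M * (M * (3 ^ (M + 1) * (K ^ M * K ^ M) * 2)) with hE
  have hE0 : 0 ≤ E := by positivity
  set Cst : ℝ := W0 + 9 * 4 ^ (M + 1) / (C0 * c) + K + 40 * (2 + E) / (v - u) +
    2 ^ n * (P0 : ℝ) + K ^ 2 with hCst
  refine ⟨⌈Cst⌉₊ + 1, ?_⟩
  intro κ hκ
  set x : ℝ := (2 : ℝ) ^ κ with hx
  have hx1 : 1 ≤ x := one_le_pow₀ (by norm_num)
  have hxpos : 0 < x := by linarith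
  have hxC : Cst < x := by
    have h1 : Cst ≤ ⌈Cst⌉₊ := Nat.le_ceil _
    have h2 : ((⌈Cst⌉₊ + 1 : ℕ) : ℝ) ≤ κ := by exact_mod_cast hκ
    have h3 : (κ : ℝ) < x := by
      rw [hx]
      exact_mod_cast Nat.lt_two_pow_self
    push_cast at h2
    linarith
  -- individual lower bounds for `x`
  have e1 : 0 ≤ 9 * 4 ^ (M + 1) / (C0 * c) := by positivity
  have e2 : 0 ≤ 40 * (2 + E) / (v - u) := by positivity
  have e3 : 0 ≤ 2 ^ n * (P0 : ℝ) := by positivity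
  have e4 : 0 ≤ K ^ 2 := by positivity
  have hxW : W0 < x := by linarith
  have hx9 : 9 * 4 ^ (M + 1) / (C0 * c) < x := by linarith
  have hxK : K < x := by linarith
  have hxE : 40 * (2 + E) / (v - u) < x := by linarith
  have hxP : 2 ^ n * (P0 : ℝ) < x := by linarith
  have hxK2 : K ^ 2 < x := by linarith
  set Y : ℝ := x ^ 100 with hY
  have hYpos : 0 < Y := by positivity
  set ω : ℝ := (4 ^ (M + 1) * x ^ 8)⁻¹ with hω
  have hωpos : 0 < ω := by positivity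
  set w : ℝ := (u + v) / 2 with hw
  have hw0 : 0 < w := by rw [hw]; linarith
  set S : Finset ℕ := Finset.Icc (⌊u ^ n * Y / 18⌋₊ + 1) (⌊w ^ n * Y / 18⌋₊ - 1) with hS
  have hSmem : ∀ b ∈ S, u ^ n < (18 * (b : ℝ) + 3) / Y ∧ (18 * (b : ℝ) + 3) / Y < w ^ n := by
    intro b hb
    have h1 := mem_S hb (by positivity)
    constructor
    · rw [lt_div_iff₀ hYpos]; linarith [h1.1]
    · rw [div_lt_iff₀ hYpos]; linarith [h1.2]
  have hSloc : ∀ b ∈ S, ∀ ts ∈ listsOf T L, u < leaf ts ((18 * (b : ℝ) + 3) / Y) ∧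
      leaf ts ((18 * (b : ℝ) + 3) / Y) < v := by
    intro b hb ts hts
    obtain ⟨hlen, hmem⟩ := (mem_listsOf T L ts).mp hts
    exact leaf_mem L ts hlen (fun t ht => hT1 t (hmem t ht)) u v hu huv hv
      (fun t ht => hTε t (hmem t ht)) _ (hSmem b hb).1 (hSmem b hb).2
  have hScard : (v - u) / 36 * Y - 2 ≤ (S.card : ℝ) := by
    have h1 := card_S (u ^ n * Y / 18) (w ^ n * Y / 18) (by positivity)
    have h2 := pow_sub_pow_ge n hn1 u w hu.le (by rw [hw]; linarith)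
    have h3 : (v - u) / 36 * Y ≤ w ^ n * Y / 18 - u ^ n * Y / 18 := by
      have h4 : w - u = (v - u) / 2 := by rw [hw]; ring
      have h5 : (v - u) / 2 * Y ≤ (w ^ n - u ^ n) * Y := by
        apply mul_le_mul_of_nonneg_right _ hYpos.le
        linarith
      linarith
    linarith
  -- bad set 1
  have hbig : 1 ≤ (2 ^ L * 3 ^ (2 ^ L)) * (c * ω) * Y / 9 := by
    rw [← hC0]
    have h1 : C0 * (c * ω) * Y / 9 = C0 * c * x ^ 92 / (9 * 4 ^ (M + 1)) := by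
      rw [hω, hY]
      have : x ^ 100 = x ^ 8 * x ^ 92 := by ring
      rw [this]; field_simp
    rw [h1, le_div_iff₀ (by positivity), one_mul]
    have h2 : 9 * 4 ^ (M + 1) < x * (C0 * c) := by
      rw [div_lt_iff₀ (by positivity)] at hx9; exact hx9
    have h3 : x ≤ x ^ 92 := by
      calc x = x ^ 1 := (pow_one x).symm
        _ ≤ x ^ 92 := pow_le_pow_right₀ hx1 (by norm_num)
    calc (9 : ℝ) * 4 ^ (M + 1) ≤ x * (C0 * c) := h2.le
      _ ≤ x ^ 92 * (C0 * c) := by gcongr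
      _ = C0 * c * x ^ 92 := by ring
  obtain ⟨Bad1, hBad1card, hBad1⟩ := bad1_card T hT1 L M (2 ^ κ * 2 ^ κ) S Y c ω hYpos hcpos hcle
    (fun b hb ts hts => by
      have := hSloc b hb ts hts
      rw [abs_of_pos (by linarith)]; linarith) hbig
  -- bad set 2
  have hZ : 1 ≤ K ^ M * x ^ 54 := by
    have h1 : 1 ≤ K ^ M := one_le_pow₀ hK
    have h2 : 1 ≤ x ^ 54 := one_le_pow₀ hx1
    calc (1 : ℝ) = 1 * 1 := by ring
      _ ≤ K ^ M * x ^ 54 := by gcongr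
  obtain ⟨Bad2, hBad2card, hBad2⟩ := bad2_card M S Y (K ^ M * x ^ 54) (K * (x ^ 3600)⁻¹)
    (K ^ M * x ^ 27) hYpos hZ (by positivity) (by
      rw [hY]
      have h1 : x ^ 3600 = x ^ 100 * x ^ 3500 := by ring
      rw [h1, mul_assoc, mul_inv, mul_comm (x ^ 100)⁻¹, mul_assoc, inv_mul_cancel₀ (by positivity),
        mul_one]
      have h2 : K * (x ^ 3500)⁻¹ ≤ 1 := by
        rw [← div_eq_mul_inv, div_le_one (by positivity)]
        calc K ≤ x := hxK.le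
          _ = x ^ 1 := (pow_one x).symm
          _ ≤ x ^ 3500 := pow_le_pow_right₀ hx1 (by norm_num)
      linarith) (by
      have h1 : 1 ≤ K ^ M := one_le_pow₀ hK
      have h2 : (K ^ M * x ^ 27) ^ 2 = K ^ M * (K ^ M * x ^ 54) := by ring
      rw [h2]
      exact le_mul_of_one_le_left (by positivity) h1) (by positivity)
  -- a good `b`
  have hcount : ((Bad1 ∪ Bad2).card : ℝ) < S.card := by
    have h1 : ((Bad1 ∪ Bad2).card : ℝ) ≤ Bad1.card + Bad2.card := by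
      exact_mod_cast Finset.card_union_le _ _
    have h2 : (Bad1.card : ℝ) ≤ (v - u) / 450 * Y := by
      refine hBad1card.trans ?_
      rw [hTcard]
      have h3 : (Rr : ℝ) ^ L * (M * (3 ^ (M + 1) * (2 * ((2 ^ L * 3 ^ (2 ^ L)) * c) * Y / 9))) ≤
          D0 * (2 * c * Y / 9) := by
        rw [hD0, ← hC0]
        have h4 : (Rr : ℝ) ^ L * (M * (3 ^ (M + 1) * (2 * (C0 * c) * Y / 9))) =
            (Rr : ℝ) ^ L * (M * (3 ^ (M + 1) * C0)) * (2 * c * Y / 9) := by ring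
        rw [h4]
        have h5 : (M : ℝ) ≤ M + 1 := by linarith
        gcongr
      refine h3.trans (le_of_eq ?_)
      rw [hc, hc']
      field_simp
      ring
    have h6 : (Bad2.card : ℝ) ≤ E * x ^ 81 := by
      refine hBad2card.trans (le_of_eq ?_)
      rw [hE]; ring
    have h7 : (2 + E) * x ^ 81 < (v - u) / 40 * Y := by
      have h8 : 40 * (2 + E) < x * (v - u) := by
        rwa [div_lt_iff₀ huvpos] at hxE
      have h9 : x * x ^ 81 ≤ Y := by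
        rw [hY]
        calc x * x ^ 81 = x ^ 82 := by ring
          _ ≤ x ^ 100 := pow_le_pow_right₀ hx1 (by norm_num)
      have h10 : 40 * ((2 + E) * x ^ 81) < (v - u) * (x * x ^ 81) := by
        have h12 : 0 < x ^ 81 := by positivity
        calc 40 * ((2 + E) * x ^ 81) = 40 * (2 + E) * x ^ 81 := by ring
          _ < x * (v - u) * x ^ 81 := mul_lt_mul_of_pos_right h8 h12
          _ = (v - u) * (x * x ^ 81) := by ring
      have h11 : (v - u) * (x * x ^ 81) ≤ (v - u) * Y := by gcongr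
      linarith
    have h13 : (1 : ℝ) ≤ x ^ 81 := one_le_pow₀ hx1
    have h14 : E * x ^ 81 + 2 ≤ (2 + E) * x ^ 81 := by
      have h16 : (2 + E) * x ^ 81 = 2 * x ^ 81 + E * x ^ 81 := by ring
      rw [h16]; linarith only [h13]
    have h15 : 0 < (v - u) * Y := by positivity
    have h17 : (v - u) / 450 * Y = (v - u) * Y / 450 := by ring
    have h18 : (v - u) / 40 * Y = (v - u) * Y / 40 := by ring
    have h19 : (v - u) / 36 * Y = (v - u) * Y / 36 := by ring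
    rw [h17] at h2
    rw [h18] at h7
    rw [h19] at hScard
    linarith only [h1, h2, h6, h7, h14, h15, hScard]
  have hcount' : (Bad1 ∪ Bad2).card < S.card := by exact_mod_cast hcount
  obtain ⟨b, hbS, hbBad⟩ := Finset.exists_mem_notMem_of_card_lt_card hcount'
  rw [Finset.mem_union, not_or] at hbBad
  set r : ℝ := (18 * (b : ℝ) + 3) / Y with hr
  have hru := (hSmem b hbS).1
  have hrw := (hSmem b hbS).2
  have hr1 : 1 ≤ r := le_trans (one_le_pow₀ hu.le) hru.le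
  have hrΘ : r ≤ Θ := by
    refine hrw.le.trans ?_
    rw [hΘ]
    apply pow_le_pow_left₀ (by rw [hw]; linarith)
    rw [hw]; linarith
  have hbase : ¬ Matched M (x ^ 2) (x ^ (54 * n)) n K r := by
    apply not_matched_base M n κ b hn1 K x hx hK hxK2
    intro Q hQ0 hQ2 hQM hQZ β hβ
    exact hBad2 b hbS hbBad.2 Q hQ0 hQ2 hQM hQZ β hβ
  have hWp : x ^ (54 * n) ≤ (x ^ 2) ^ (2 ^ N) := by
    rw [← pow_mul x 2 (2 ^ N)]
    apply pow_le_pow_right₀ hx1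
    have h32 : 2 ^ N = n * 32 := by rw [hN, pow_add, ← hn]; norm_num
    rw [h32]
    omega
  have hWm : W0 ≤ x ^ 2 := hxW.le.trans (le_self_pow₀ hx1 (by norm_num))
  have hex : ∃ ts : List ℚ, ts.length = L ∧ (∀ t ∈ ts, t ∈ T) ∧
      ¬ Matched M (x ^ 2) (x ^ (54 * n)) 1 1 (leaf ts r) := by
    by_contra hcon
    push Not at hcon
    apply hbase
    exact hdesc (x ^ 2) (x ^ (54 * n)) r hWm hWp hr1 hrΘ hcon
  obtain ⟨ts, hlen, hmem, hnm⟩ := hex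
  have htsL : ts ∈ listsOf T L := (mem_listsOf T L ts).mpr ⟨hlen, hmem⟩
  have hloc := hSloc b hbS ts htsL
  have hts1 : ∀ t ∈ ts, (1 : ℚ) < t := fun t ht => hT1 t (hmem t ht)
  have hpow := leaf_pow ts r (by linarith) (fun t ht => by linarith [hts1 t ht])
  rw [hlen] at hpow
  refine ⟨leaf ts r, hloc.1, hloc.2, ?_, ?_⟩
  · apply num_den_facts L κ b (prodT ts) (one_le_prodT ts hts1)
      (prodT_val ts hts1 (fun t ht => hT3 t (hmem t ht))) P0 _ x r hx hr (leaf ts r) (by linarith)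
      hpow (by linarith) hxP.le
    exact Finset.le_sup (f := fun ts => (prodT ts).den) htsL
  · intro Q hQ hQM β hβ
    have hm0 := natDegree_ne_zero_of_root hQ hβ
    have hht1 : (1 : ℝ) ≤ ht Q := by exact_mod_cast one_le_ht hQ.ne_zero
    constructor
    · intro hsmall
      have hhtH : ht Q ≤ 2 ^ κ * 2 ^ κ := by
        have h1 : (ht Q : ℝ) ≤ x ^ 2 := by
          calc (ht Q : ℝ) = (ht Q : ℝ) ^ 1 := (pow_one _).symm
            _ ≤ (ht Q : ℝ) ^ Q.natDegree := pow_le_pow_right₀ hht1 (by omega)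
            _ ≤ x ^ 2 := hsmall
        have h2 : (ht Q : ℝ) ≤ ((2 ^ κ * 2 ^ κ : ℕ) : ℝ) := by
          push_cast; rw [← hx]; linarith [sq x]
        exact_mod_cast h2
      have hwt := le_wt Q (M + 1) (by omega) hQ.ne_zero
      have h3 : (4 ^ (M + 1) * (ht Q : ℝ) ^ (4 * Q.natDegree))⁻¹ ≤ wt (cf (M + 1) Q) := by
        refine le_trans ?_ hwt
        apply inv_anti₀ (by positivity)
        rw [mul_pow, pow_mul 2 2]
        have h4 : ((2 : ℝ) ^ 2) ^ (Q.natDegree + 1) ≤ 4 ^ (M + 1) := by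
          norm_num
          exact pow_le_pow_right₀ (by norm_num) (by omega)
        have h5 : (ht Q : ℝ) ^ (2 * (Q.natDegree + 1)) ≤ (ht Q : ℝ) ^ (4 * Q.natDegree) :=
          pow_le_pow_right₀ hht1 (by omega)
        gcongr
      have h6 : ω ≤ wt (cf (M + 1) Q) := by
        refine le_trans ?_ h3
        rw [hω]
        apply inv_anti₀ (by positivity)
        have h7 : (ht Q : ℝ) ^ (4 * Q.natDegree) ≤ x ^ 8 := by
          calc (ht Q : ℝ) ^ (4 * Q.natDegree) = ((ht Q : ℝ) ^ Q.natDegree) ^ 4 := by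
                rw [← pow_mul, mul_comm]
            _ ≤ (x ^ 2) ^ 4 := pow_le_pow_left₀ (by positivity) hsmall 4
            _ = x ^ 8 := by ring
        gcongr
      have h8 := hBad1 b hbS hbBad.1 ts htsL Q hQ.ne_zero hQM hhtH h6 β hβ
      refine le_trans ?_ h8.le
      calc c' / 4 ^ (M + 1) * (v - u) * ((ht Q : ℝ) ^ (4 * Q.natDegree))⁻¹
          = c * (4 ^ (M + 1) * (ht Q : ℝ) ^ (4 * Q.natDegree))⁻¹ := by
            rw [hc, mul_inv]; ring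
        _ ≤ c * wt (cf (M + 1) Q) := by gcongr
    · intro hlow hup
      by_contra hcon
      push Not at hcon
      apply hnm
      refine ⟨Q.natDegree, by omega, by omega, (ht Q : ℝ), hht1, by simpa using hlow,
        by simpa using hup, Q, hQ, rfl, by simp, β, hβ, ?_⟩
      rw [one_mul, one_mul, ← pow_mul, mul_comm Q.natDegree 1800]
      exact hcon.le

end Pool.Agent.H93.SStar
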