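import Mathlib
import Pool.Agent.H93.SStar.Key

open Polynomial

namespace Pool.Agent.H93.SStar

/-- the exponent sequence: every positive integer occurs infinitely often -/
def Lseq (j : ℕ) : ℕ := (Nat.unpair j).1 + 1

/-- properties of one stage of the construction -/
def StageOK (cc : ℕ → ℕ → ℝ) (j : ℕ) (u v : ℝ) (κ : ℕ) (α : ℝ) : Prop :=
  j + 1 ≤ κ ∧ 8 / cc (Lseq (j + 1)) (j + 1) ≤ (2 : ℝ) ^ κ ∧ u < α ∧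
  α + (((2 : ℝ) ^ κ) ^ (100000 * 2 ^ (Lseq j)))⁻¹ < v ∧
  (∃ a b : ℕ, 0 < b ∧ α ^ (2 ^ (Lseq j)) = (a : ℝ) / b ∧ (a : ℝ) ≤ ((2 : ℝ) ^ κ) ^ 101 ∧
    (b : ℝ) ≤ ((2 : ℝ) ^ κ) ^ 101 ∧
    ∀ k : ℕ, 1 ≤ k → Irreducible (C (b : ℤ) * X ^ k - C (a : ℤ) : ℤ[X])) ∧
  ∀ Q : ℤ[X], Irreducible Q → Q.natDegree ≤ j → ∀ β : ℝ, aeval β Q = 0 →
    ((ht Q : ℝ) ^ Q.natDegree ≤ ((2 : ℝ) ^ κ) ^ 2 →
      cc (Lseq j) j * ((v - u) / 2) * ((ht Q : ℝ) ^ (4 * Q.natDegree))⁻¹ ≤ |α - β|) ∧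
    (((2 : ℝ) ^ κ) ^ 2 ≤ (ht Q : ℝ) ^ Q.natDegree →
      (ht Q : ℝ) ^ Q.natDegree ≤ ((2 : ℝ) ^ κ) ^ (54 * 2 ^ (Lseq j)) →
      ((ht Q : ℝ) ^ (1800 * Q.natDegree))⁻¹ ≤ |α - β|)

lemma exists_stage : ∃ cc : ℕ → ℕ → ℝ, (∀ L M, 0 < cc L M) ∧ (∀ L M, cc L M ≤ 1) ∧
    ∀ (j : ℕ) (u v : ℝ), 1 < u → u < v → v < 2 → ∃ (κ : ℕ) (α : ℝ), StageOK cc j u v κ α := by
  choose cc hcc0 hcc1 hkey using key
  refine ⟨cc, hcc0, hcc1, ?_⟩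
  intro j u v hu huv hv
  obtain ⟨κ0, hκ0⟩ := hkey (Lseq j) j u ((u + v) / 2) hu (by linarith) (by linarith)
  set Cst : ℝ := 8 / cc (Lseq (j + 1)) (j + 1) + 4 / (v - u) with hCst
  have hc0 := hcc0 (Lseq (j + 1)) (j + 1)
  have huv' : 0 < v - u := by linarith
  have e1 : 0 < 8 / cc (Lseq (j + 1)) (j + 1) := by positivity
  have e2 : 0 < 4 / (v - u) := by positivity
  set κ : ℕ := max κ0 (max (j + 1) ⌈Cst⌉₊) with hκ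
  obtain ⟨α, hα1, hα2, hα3, hα4⟩ := hκ0 κ (le_max_left _ _)
  have hxC : Cst ≤ (2 : ℝ) ^ κ := by
    have h1 : Cst ≤ ⌈Cst⌉₊ := Nat.le_ceil _
    have h2 : ⌈Cst⌉₊ ≤ κ := (le_max_right _ _).trans (le_max_right _ _)
    have h2' : ((⌈Cst⌉₊ : ℕ) : ℝ) ≤ κ := by exact_mod_cast h2
    have h3 : (κ : ℝ) ≤ (2 : ℝ) ^ κ := by
      exact_mod_cast (Nat.lt_two_pow_self (n := κ)).le
    linarith
  refine ⟨κ, α, (le_max_left _ _).trans (le_max_right _ _), by linarith, hα1, ?_, hα3, ?_⟩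
  · have hx1 : (1 : ℝ) ≤ (2 : ℝ) ^ κ := one_le_pow₀ (by norm_num)
    have h1 : (2 : ℝ) ^ κ ≤ ((2 : ℝ) ^ κ) ^ (100000 * 2 ^ (Lseq j)) := by
      calc (2 : ℝ) ^ κ = ((2 : ℝ) ^ κ) ^ 1 := (pow_one _).symm
        _ ≤ ((2 : ℝ) ^ κ) ^ (100000 * 2 ^ (Lseq j)) := by
            apply pow_le_pow_right₀ hx1
            have : 0 < 2 ^ (Lseq j) := by positivity
            omega
    have h2 : (((2 : ℝ) ^ κ) ^ (100000 * 2 ^ (Lseq j)))⁻¹ ≤ (v - u) / 4 := by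
      have h3 : 4 / (v - u) ≤ ((2 : ℝ) ^ κ) ^ (100000 * 2 ^ (Lseq j)) := by linarith
      calc (((2 : ℝ) ^ κ) ^ (100000 * 2 ^ (Lseq j)))⁻¹ ≤ (4 / (v - u))⁻¹ := inv_anti₀ e2 h3
        _ = (v - u) / 4 := by rw [inv_div]
    linarith
  · intro Q hQ hQd β hβ
    have h5 := hα4 Q hQ hQd β hβ
    have h6 : (u + v) / 2 - u = (v - u) / 2 := by ring
    rw [h6] at h5
    exact h5

/-- The full construction. -/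
lemma exists_construction : ∃ (cc : ℕ → ℕ → ℝ) (u v α : ℕ → ℝ) (κ : ℕ → ℕ),
    (∀ L M, 0 < cc L M) ∧ (∀ L M, cc L M ≤ 1) ∧
    (∀ j, 1 < u j ∧ u j < v j ∧ v j < 2) ∧
    (∀ j, StageOK cc j (u j) (v j) (κ j) (α j)) ∧
    (∀ j, u (j + 1) = α j + (((2 : ℝ) ^ (κ j)) ^ (100000 * 2 ^ (Lseq j)))⁻¹ / 2) ∧
    (∀ j, v (j + 1) = α j + (((2 : ℝ) ^ (κ j)) ^ (100000 * 2 ^ (Lseq j)))⁻¹) := by
  obtain ⟨cc, hcc0, hcc1, hst⟩ := exists_stage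
  let St := {p : ℝ × ℝ // 1 < p.1 ∧ p.1 < p.2 ∧ p.2 < 2}
  have hst' : ∀ (j : ℕ) (p : St), ∃ (κ : ℕ) (α : ℝ), StageOK cc j p.1.1 p.1.2 κ α :=
    fun j p => hst j p.1.1 p.1.2 p.2.1 p.2.2.1 p.2.2.2
  choose κf αf hf using hst'
  let nxt : ℕ → St → St := fun j p =>
    ⟨(αf j p + (((2 : ℝ) ^ (κf j p)) ^ (100000 * 2 ^ (Lseq j)))⁻¹ / 2,
      αf j p + (((2 : ℝ) ^ (κf j p)) ^ (100000 * 2 ^ (Lseq j)))⁻¹), by
      have h := hf j p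
      obtain ⟨-, -, h3, h4, -, -⟩ := h
      have hpos : 0 < (((2 : ℝ) ^ (κf j p)) ^ (100000 * 2 ^ (Lseq j)))⁻¹ := by positivity
      have hp := p.2
      refine ⟨?_, ?_, ?_⟩
      · simp only; linarith [hp.1]
      · simp only; linarith
      · simp only; linarith [hp.2.2]⟩
  let s : ℕ → St := fun j => Nat.rec ⟨(5 / 4, 7 / 4), by norm_num⟩ (fun j p => nxt j p) j
  refine ⟨cc, fun j => (s j).1.1, fun j => (s j).1.2, fun j => αf j (s j), fun j => κf j (s j),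
    hcc0, hcc1, fun j => (s j).2, fun j => hf j (s j), fun j => rfl, fun j => rfl⟩

end Pool.Agent.H93.SStar
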