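import Mathlib
import Pool.Agent.H93.SStar.Constr

open Polynomial

namespace Pool.Agent.H93.SStar

lemma xi_exists : ∃ ξ : ℝ,
    (∀ M0 : ℕ, ∃ Tt : ℝ, ∀ Q : ℤ[X], Irreducible Q → Q.natDegree ≤ M0 → ∀ β : ℝ,
      aeval β Q = 0 → Tt ≤ (ht Q : ℝ) ^ (1896 * Q.natDegree) →
      ((ht Q : ℝ) ^ (1900 * Q.natDegree))⁻¹ ≤ |ξ - β|) ∧
    (∀ L : ℕ, ∀ δ : ℝ, 0 < δ → ∃ (α x : ℝ) (a b : ℕ), 2 ≤ x ∧ 1 < α ∧ α < 2 ∧ 0 < |ξ - α| ∧
      |ξ - α| < δ ∧ |ξ - α| ≤ (x ^ (100000 * 2 ^ (L + 1)))⁻¹ ∧ 0 < b ∧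
      α ^ (2 ^ (L + 1)) = (a : ℝ) / b ∧ (a : ℝ) ≤ x ^ 101 ∧ (b : ℝ) ≤ x ^ 101 ∧
      ∀ k : ℕ, 1 ≤ k → Irreducible (C (b : ℤ) * X ^ k - C (a : ℤ) : ℤ[X])) ∧
    1 < ξ ∧ ξ < 2 := by
  obtain ⟨cc, u, v, α, κ, hcc0, hcc1, huv, hst, hu, hv⟩ := exists_construction
  set x : ℕ → ℝ := fun j => (2 : ℝ) ^ (κ j) with hx
  set ρ : ℕ → ℝ := fun j => ((x j) ^ (100000 * 2 ^ (Lseq j)))⁻¹ with hρ
  have hx2 : ∀ j, 2 ≤ x j := by
    intro j
    have h1 := (hst j).1
    calc (2 : ℝ) = 2 ^ 1 := by norm_num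
      _ ≤ 2 ^ (κ j) := pow_le_pow_right₀ (by norm_num) (by omega)
  have hxj : ∀ j : ℕ, ((j : ℝ) + 1) ≤ x j := by
    intro j
    have h1 := (hst j).1
    have h2 : ((j + 1 : ℕ) : ℝ) ≤ κ j := by exact_mod_cast h1
    have h3 : ((κ j : ℕ) : ℝ) ≤ (2 : ℝ) ^ (κ j) := by
      exact_mod_cast (Nat.lt_two_pow_self (n := κ j)).le
    push_cast at h2
    simp only [hx]
    linarith
  have hρpos : ∀ j, 0 < ρ j := fun j => by
    have := hx2 j
    simp only [hρ]; positivity
  have hu' : ∀ j, u (j + 1) = α j + ρ j / 2 := hu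
  have hv' : ∀ j, v (j + 1) = α j + ρ j := hv
  have huα : ∀ j, u j < α j := fun j => (hst j).2.2.1
  have hαv : ∀ j, α j + ρ j < v j := fun j => (hst j).2.2.2.1
  have humono : StrictMono u := strictMono_nat_of_lt_succ (fun j => by
    rw [hu']; linarith [huα j, hρpos j])
  have hvanti : StrictAnti v := strictAnti_nat_of_succ_lt (fun j => by
    rw [hv']; exact hαv j)
  have huvall : ∀ i j, u i ≤ v j := by
    intro i j
    rcases le_total i j with h | h
    · exact (humono.monotone h).trans (huv j).2.1.le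
    · exact (huv i).2.1.le.trans (hvanti.antitone h)
  have hbdd : BddAbove (Set.range u) := ⟨v 0, by rintro _ ⟨i, rfl⟩; exact huvall i 0⟩
  set ξ : ℝ := ⨆ j, u j with hξ
  have h1 : ∀ j, u j < ξ := fun j =>
    lt_of_lt_of_le (humono (Nat.lt_succ_self j)) (le_ciSup hbdd (j + 1))
  have h2 : ∀ j, ξ ≤ v j := fun j => ciSup_le (fun i => huvall i j)
  have h2' : ∀ j, ξ < v j := fun j => lt_of_le_of_lt (h2 (j + 1)) (hvanti (Nat.lt_succ_self j))
  have hlow : ∀ j, ρ j / 2 < ξ - α j := fun j => by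
    have := h1 (j + 1); rw [hu'] at this; linarith
  have hup : ∀ j, ξ - α j < ρ j := fun j => by
    have := h2' (j + 1); rw [hv'] at this; linarith
  have habs : ∀ j, |ξ - α j| ≤ ρ j := fun j => by
    rw [abs_of_pos (by linarith [hlow j, hρpos j])]; exact (hup j).le
  have hαlt : ∀ j, 1 < α j ∧ α j < 2 := fun j =>
    ⟨by linarith [huα j, (huv j).1], by linarith [hαv j, hρpos j, (huv j).2.2]⟩
  refine ⟨ξ, ?_, ?_, by linarith [h1 0, (huv 0).1], by linarith [h2' 0, (huv 0).2.2]⟩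
  · intro M0
    -- thresholds
    set Tj : ℕ → ℝ := fun j => 4 / (cc (Lseq j) j * (v j - u j)) with hTj
    refine ⟨Tj M0, ?_⟩
    intro Q hQ hQd β hβ hT
    have hm0 := natDegree_ne_zero_of_root hQ hβ
    set m := Q.natDegree with hm
    have hH1 : (1 : ℝ) ≤ ht Q := by exact_mod_cast one_le_ht hQ.ne_zero
    set H : ℝ := (ht Q : ℝ) with hH
    have hHpos : 0 < H := by linarith
    -- thresholds tend to infinity
    have hTsucc : ∀ j, Tj (j + 1) = 8 / cc (Lseq (j + 1)) (j + 1) *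
        x j ^ (100000 * 2 ^ (Lseq j)) := by
      intro j
      have hw : v (j + 1) - u (j + 1) = ρ j / 2 := by rw [hu', hv']; ring
      have hc := hcc0 (Lseq (j + 1)) (j + 1)
      simp only [hTj, hw, hρ]
      have := hx2 j
      field_simp
      ring
    have hTbig : ∀ j : ℕ, (j : ℝ) ≤ Tj (j + 1) := by
      intro j
      rw [hTsucc]
      have hc := hcc0 (Lseq (j + 1)) (j + 1)
      have hc1 := hcc1 (Lseq (j + 1)) (j + 1)
      have e1 : 1 ≤ 8 / cc (Lseq (j + 1)) (j + 1) := by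
        rw [le_div_iff₀ hc]; linarith
      have e2 : x j ≤ x j ^ (100000 * 2 ^ (Lseq j)) := by
        calc x j = x j ^ 1 := (pow_one _).symm
          _ ≤ x j ^ (100000 * 2 ^ (Lseq j)) := by
            apply pow_le_pow_right₀ (by linarith [hx2 j])
            have : 0 < 2 ^ (Lseq j) := by positivity
            omega
      have e3 := hxj j
      have e4 := hx2 j
      nlinarith
    have hexj : ∃ j, M0 ≤ j ∧ H ^ (1896 * m) < Tj (j + 1) := by
      refine ⟨max M0 (⌈H ^ (1896 * m)⌉₊ + 1), le_max_left _ _, ?_⟩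
      refine lt_of_lt_of_le ?_ (hTbig _)
      have e1 : H ^ (1896 * m) ≤ ⌈H ^ (1896 * m)⌉₊ := Nat.le_ceil _
      have e2 : ((⌈H ^ (1896 * m)⌉₊ + 1 : ℕ) : ℝ) ≤
          ((max M0 (⌈H ^ (1896 * m)⌉₊ + 1) : ℕ) : ℝ) := by
        exact_mod_cast le_max_right _ _
      push_cast at e2 ⊢
      linarith
    classical
    set j := Nat.find hexj with hj
    obtain ⟨hjM, hjT⟩ := Nat.find_spec hexj
    have hTle : Tj j ≤ H ^ (1896 * m) := by
      rcases Nat.eq_or_lt_of_le hjM with h | h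
      · rw [hj, ← h]; exact hT
      · by_contra hcon
        push Not at hcon
        have hj1 : 1 ≤ Nat.find hexj := by omega
        have := Nat.find_min hexj (m := Nat.find hexj - 1) (by omega)
        apply this
        refine ⟨by omega, ?_⟩
        have e : Nat.find hexj - 1 + 1 = Nat.find hexj := by omega
        rw [e]; exact hcon
    rw [← hj] at hjM hjT
    obtain ⟨hκj, hκc, -, -, -, hstQ⟩ := hst j
    have hQj : Q.natDegree ≤ j := hQd.trans hjM
    obtain ⟨hA, hB⟩ := hstQ Q hQ hQj β hβ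
    rw [← hm, ← hH] at hA hB
    have hxj1 : 1 ≤ x j := by linarith [hx2 j]
    have hn1 : 1 ≤ 2 ^ (Lseq j) := Nat.one_le_two_pow
    -- `H ^ m ≤ x ^ (54 n)`
    have hHm : H ^ m ≤ x j ^ (54 * 2 ^ (Lseq j)) := by
      by_contra hcon
      push Not at hcon
      have e1 : (x j ^ (54 * 2 ^ (Lseq j))) ^ 1896 ≤ (H ^ m) ^ 1896 :=
        pow_le_pow_left₀ (by positivity) hcon.le 1896
      rw [← pow_mul (x j), ← pow_mul H] at e1
      have e2 : H ^ (m * 1896) = H ^ (1896 * m) := by rw [mul_comm]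
      rw [e2] at e1
      have e3 : Tj (j + 1) ≤ x j ^ (54 * 2 ^ (Lseq j) * 1896) := by
        rw [hTsucc]
        calc 8 / cc (Lseq (j + 1)) (j + 1) * x j ^ (100000 * 2 ^ (Lseq j))
            ≤ x j * x j ^ (100000 * 2 ^ (Lseq j)) := by
              apply mul_le_mul_of_nonneg_right hκc (by positivity)
          _ = x j ^ (100000 * 2 ^ (Lseq j) + 1) := by rw [pow_succ]; ring
          _ ≤ x j ^ (54 * 2 ^ (Lseq j) * 1896) := by
              apply pow_le_pow_right₀ hxj1
              omega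
      linarith
    have hρj := habs j
    have htri : |α j - β| - ρ j ≤ |ξ - β| := by
      have : |α j - β| ≤ |ξ - β| + |ξ - α j| := by
        have e : α j - β = (ξ - β) - (ξ - α j) := by ring
        rw [e]; exact abs_sub _ _
      linarith
    rcases le_total (H ^ m) (x j ^ 2) with hcase | hcase
    · -- lower range
      have hA' := hA hcase
      have hcc := hcc0 (Lseq j) j
      have hlen : 0 < v j - u j := by linarith [(huv j).2.1]
      have e1 : 4 ≤ H ^ (1896 * m) * (cc (Lseq j) j * (v j - u j)) := by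
        have e2 : 4 / (cc (Lseq j) j * (v j - u j)) ≤ H ^ (1896 * m) := hTle
        rwa [div_le_iff₀ (by positivity)] at e2
      have e3 : 2 * (H ^ (1900 * m))⁻¹ ≤ cc (Lseq j) j * ((v j - u j) / 2) * (H ^ (4 * m))⁻¹ := by
        have e4 : H ^ (1900 * m) = H ^ (1896 * m) * H ^ (4 * m) := by
          rw [← pow_add]; congr 1; ring
        rw [e4, mul_inv, ← mul_assoc]
        apply mul_le_mul_of_nonneg_right _ (by positivity)
        rw [← div_eq_mul_inv, div_le_iff₀ (by positivity)]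
        linarith
      have e5 : ρ j ≤ (H ^ (1900 * m))⁻¹ := by
        simp only [hρ]
        apply inv_anti₀ (by positivity)
        calc H ^ (1900 * m) = (H ^ m) ^ 1900 := by rw [← pow_mul, mul_comm]
          _ ≤ (x j ^ 2) ^ 1900 := pow_le_pow_left₀ (by positivity) hcase _
          _ = x j ^ 3800 := by rw [← pow_mul]
          _ ≤ x j ^ (100000 * 2 ^ (Lseq j)) := by
              apply pow_le_pow_right₀ hxj1; omega
      linarith
    · -- upper range
      have hB' := hB hcase hHm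
      have hH2 : 2 ≤ H := by
        by_contra hcon
        push Not at hcon
        have e1 : H = 1 := by
          have e2 : ht Q < 2 := by rw [hH] at hcon; exact_mod_cast hcon
          have e3 : ht Q = 1 := by
            have := one_le_ht hQ.ne_zero
            omega
          rw [hH, e3]; simp
        rw [e1, one_pow] at hcase
        have := hx2 j
        nlinarith
      have e5 : ρ j ≤ (H ^ (1800 * m))⁻¹ / 2 := by
        simp only [hρ]
        have e6 : 2 * H ^ (1800 * m) ≤ x j ^ (100000 * 2 ^ (Lseq j)) := by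
          calc 2 * H ^ (1800 * m) = 2 * (H ^ m) ^ 1800 := by rw [← pow_mul, mul_comm 1800]
            _ ≤ x j * (x j ^ (54 * 2 ^ (Lseq j))) ^ 1800 := by
                have := hx2 j
                gcongr
            _ = x j ^ (54 * 2 ^ (Lseq j) * 1800 + 1) := by rw [← pow_mul, pow_succ]; ring
            _ ≤ x j ^ (100000 * 2 ^ (Lseq j)) := by
                apply pow_le_pow_right₀ hxj1; omega
        calc (x j ^ (100000 * 2 ^ (Lseq j)))⁻¹ ≤ (2 * H ^ (1800 * m))⁻¹ :=
              inv_anti₀ (by positivity) e6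
          _ = (H ^ (1800 * m))⁻¹ / 2 := by rw [mul_inv]; ring
      have e7 : (H ^ (1900 * m))⁻¹ ≤ (H ^ (1800 * m))⁻¹ / 2 := by
        have e8 : 2 * H ^ (1800 * m) ≤ H ^ (1900 * m) := by
          calc 2 * H ^ (1800 * m) ≤ H * H ^ (1800 * m) := by gcongr
            _ = H ^ (1800 * m + 1) := by rw [pow_succ]; ring
            _ ≤ H ^ (1900 * m) := by
                apply pow_le_pow_right₀ hH1; omega
        calc (H ^ (1900 * m))⁻¹ ≤ (2 * H ^ (1800 * m))⁻¹ := inv_anti₀ (by positivity) e8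
          _ = (H ^ (1800 * m))⁻¹ / 2 := by rw [mul_inv]; ring
      linarith
  · intro L δ hδ
    -- choose `j` with `Lseq j = L + 1` and `j` large
    set j := Nat.pair L ⌈1 / δ⌉₊ with hj
    have hjL : Lseq j = L + 1 := by rw [Lseq, hj, Nat.unpair_pair]
    have hjbig : ⌈1 / δ⌉₊ ≤ j := Nat.right_le_pair _ _
    obtain ⟨-, -, -, -, ⟨a, b, hb0, hab, ha, hb, hirr⟩, -⟩ := hst j
    refine ⟨α j, x j, a, b, hx2 j, (hαlt j).1, (hαlt j).2, ?_, ?_, ?_, hb0, ?_, ha, hb, hirr⟩
    · rw [abs_of_pos (by linarith [hlow j, hρpos j])]; linarith [hlow j, hρpos j]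
    · rw [abs_of_pos (by linarith [hlow j, hρpos j])]
      have e1 : ρ j ≤ (x j)⁻¹ := by
        simp only [hρ]
        apply inv_anti₀ (by linarith [hx2 j])
        calc x j = x j ^ 1 := (pow_one _).symm
          _ ≤ x j ^ (100000 * 2 ^ (Lseq j)) := by
            apply pow_le_pow_right₀ (by linarith [hx2 j])
            have : 0 < 2 ^ (Lseq j) := by positivity
            omega
      have e2 : (x j)⁻¹ < δ := by
        have e3 := hxj j
        have e4 : (1 / δ) ≤ ⌈1 / δ⌉₊ := Nat.le_ceil _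
        have e5 : ((⌈1 / δ⌉₊ : ℕ) : ℝ) ≤ j := by exact_mod_cast hjbig
        have e6 : 1 / δ < x j := by linarith
        rw [inv_lt_comm₀ (by linarith [hx2 j]) hδ, inv_eq_one_div]
        exact e6
      linarith [hup j]
    · have := habs j
      simp only [hρ, hjL] at this
      exact this
    · rw [← hjL]; exact hab

end Pool.Agent.H93.SStar
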